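import Mathlib
import Pool.Agent.LGO.Defs
import Pool.Agent.Hhelper14.ZP.JFun
import Pool.Agent.Hhelper14.ZPL.Hecke2

/-!
# LGO/Q: solving `j(τ) = Z` near a finite value

`jInv` is holomorphic (`jInv_mdiff` in `Pool/Agent/Hhelper14/ZP/JFun.lean`, or `f(z) = jInv (ofComplex z)` is
analytic on the upper half plane) and not constant near `τ₀` (it is surjective and the half plane is
connected: identity theorem; or `jInv τ = jInv τ'` only on an orbit of `SL₂(ℤ)`, which is discrete; or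
nonconstancy from the cusp expansion).  So
`f(z) - f(τ₀) = (z - τ₀)^m g(z)` near `τ₀` with `m ≥ 1`, `g` analytic, `g(τ₀) ≠ 0`
(`AnalyticAt.exists_eventuallyEq_pow_smul_nonzero_iff` or `analyticOrderAt`).  Choose `r > 0` small with
closed ball in the half plane, `|g| ≥ c > 0` on it.  By the open mapping theorem
(`AnalyticAt.eventually_constant_or_nhds_le_map_nhds`) `f` maps the ball of radius `r` onto a
neighbourhood of `f(τ₀)`: for `|Z - f(τ₀)| < ε` there is `z` in the ball with `f(z) = Z`, and then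
`|z - τ₀|^m c ≤ |Z - f(τ₀)|`.
-/

namespace Pool.Agent.LGO

open UpperHalfPlane Pool.Agent.Hhelper14.ZP

/-- the function `j` on the upper half plane as a subset of `ℂ` -/
noncomputable def jF (z : ℂ) : ℂ := jInv (ofComplex z)

theorem jF_coe (τ : ℍ) : jF (τ : ℂ) = jInv τ := by
  rw [jF, ofComplex_apply]

theorem isOpen_uhp : IsOpen {z : ℂ | 0 < z.im} := isOpen_lt continuous_const Complex.continuous_im

theorem jF_analytic : AnalyticOnNhd ℂ jF {z : ℂ | 0 < z.im} := by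
  have h1 : DifferentiableOn ℂ jF {z : ℂ | 0 < z.im} := by
    have h2 := (UpperHalfPlane.mdifferentiable_iff).mp jInv_mdiff
    exact h2
  exact h1.analyticOnNhd isOpen_uhp

theorem jF_not_const (τ₀ : ℍ) : ¬ ∀ᶠ z in nhds (τ₀ : ℂ), jF z = jF (τ₀ : ℂ) := by
  intro hc
  have hpre : IsPreconnected {z : ℂ | 0 < z.im} := (convex_halfSpace_im_gt 0).isPreconnected
  have h1 : Set.EqOn jF (fun _ => jF (τ₀ : ℂ)) {z : ℂ | 0 < z.im} :=
    AnalyticOnNhd.eqOn_of_preconnected_of_eventuallyEq jF_analytic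
      (fun _ _ => analyticAt_const) hpre τ₀.im_pos hc
  obtain ⟨τ, hτ⟩ := Pool.Agent.Hhelper14.ZPL.j_surj (jInv τ₀ + 1)
  have h2 := h1 τ.im_pos
  simp only [jF_coe] at h2
  rw [hτ] at h2
  have h3 : (1 : ℂ) = 0 := by linear_combination h2
  exact one_ne_zero h3

theorem j_local (τ₀ : ℍ) : ∃ (C : ℝ) (m : ℕ) (ε : ℝ), 0 < C ∧ 0 < m ∧ 0 < ε ∧
    ∀ Z : ℂ, ‖Z - jInv τ₀‖ < ε → ∃ τ : ℍ, jInv τ = Z ∧
      ‖(τ : ℂ) - (τ₀ : ℂ)‖ ^ m ≤ C * ‖Z - jInv τ₀‖ := by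
  have han : AnalyticAt ℂ jF (τ₀ : ℂ) := jF_analytic _ τ₀.im_pos
  have hnc := jF_not_const τ₀
  have hopen := han.eventually_constant_or_nhds_le_map_nhds.resolve_left hnc
  have han' : AnalyticAt ℂ (fun z => jF z - jF (τ₀ : ℂ)) (τ₀ : ℂ) := han.sub analyticAt_const
  obtain ⟨m, g, hg, hg0, hfac⟩ := (han'.exists_eventuallyEq_pow_smul_nonzero_iff).mpr (by
    intro h
    exact hnc (h.mono fun z hz => sub_eq_zero.mp hz))
  have hm : 0 < m := by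
    rcases Nat.eq_zero_or_pos m with h | h
    · exfalso
      have h1 := hfac.self_of_nhds
      rw [h] at h1
      simp only [sub_self, pow_zero, one_smul] at h1
      exact hg0 h1.symm
    · exact h
  have hgn : 0 < ‖g (τ₀ : ℂ)‖ := norm_pos_iff.mpr hg0
  have hev : ∀ᶠ z in nhds (τ₀ : ℂ), ‖g (τ₀ : ℂ)‖ / 2 < ‖g z‖ := by
    have h1 : ContinuousAt (fun z => ‖g z‖) (τ₀ : ℂ) := hg.continuousAt.norm
    exact h1.eventually (lt_mem_nhds (by linarith))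
  have him : ∀ᶠ z in nhds (τ₀ : ℂ), 0 < z.im := isOpen_uhp.mem_nhds τ₀.im_pos
  have hall := hfac.and (hev.and him)
  have hmem : jF '' {z | (jF z - jF (τ₀ : ℂ) = (z - (τ₀ : ℂ)) ^ m • g z) ∧
      ‖g (τ₀ : ℂ)‖ / 2 < ‖g z‖ ∧ 0 < z.im} ∈ nhds (jF (τ₀ : ℂ)) :=
    hopen (Filter.image_mem_map hall)
  obtain ⟨ε, hε, hball⟩ := Metric.mem_nhds_iff.mp hmem
  refine ⟨2 / ‖g (τ₀ : ℂ)‖, m, ε, by positivity, hm, hε, ?_⟩
  intro Z hZ
  have hZ' : Z ∈ Metric.ball (jF (τ₀ : ℂ)) ε := by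
    rw [Metric.mem_ball, dist_eq_norm, jF_coe]
    exact hZ
  obtain ⟨z, ⟨hz1, hz2, hz3⟩, hzZ⟩ := hball hZ'
  refine ⟨⟨z, hz3⟩, ?_, ?_⟩
  · rw [← jF_coe]
    exact hzZ
  · have h1 : Z - jInv τ₀ = (z - (τ₀ : ℂ)) ^ m * g z := by
      rw [← jF_coe τ₀, ← hzZ, hz1, smul_eq_mul]
    rw [h1, norm_mul, norm_pow]
    have h2 : 0 ≤ ‖z - (τ₀ : ℂ)‖ ^ m := by positivity
    have h3 : ‖z - (τ₀ : ℂ)‖ ^ m * (‖g (τ₀ : ℂ)‖ / 2) ≤ ‖z - (τ₀ : ℂ)‖ ^ m * ‖g z‖ :=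
      mul_le_mul_of_nonneg_left hz2.le h2
    change ‖z - (τ₀ : ℂ)‖ ^ m ≤ _
    rw [div_mul_eq_mul_div, le_div_iff₀ hgn]
    nlinarith

end Pool.Agent.LGO
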