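import Mathlib
import Pool.Agent.LGO.Defs

/-!
# LGO/Q: integral matrices and quadratic polynomials

* `norm_sq_denom`: `τ' (c τ + d) = a τ + b`, `N = a d - b c`: `τ'` times `|c τ + d|²` is
  `(a τ + b) (c τ̄ + d)`, whose imaginary part is `N Im τ`.
* `entries_le`: `|c τ + d|² = N Im τ / Im τ' ≤ N R²`, so `|c| Im τ ≤ R √N`, `|c| ≤ R² √N`,
  `|d| ≤ |c τ + d| + |c| |τ| ≤ 2 R³ √N`, `|a τ + b| = |τ'| |c τ + d| ≤ R² √N`, `|a| ≤ R³ √N`,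
  `|b| ≤ 2 R⁴ √N`; and `√N ≤ N`.
* `form_map`: `F(X) = a (h11 X - h01)² + b (h11 X - h01) (h00 - h10 X) + c (h00 - h10 X)²` with coefficients
  `a' = a h11² - b h11 h10 + c h10²`, `b' = -2 a h11 h01 + b (h11 h00 + h01 h10) - 2 c h00 h10`,
  `c' = a h01² - b h01 h00 + c h00²`.  From `Maps h τ τ'`: `h11 τ' - h01 = τ (h00 - h10 τ')`, which gives the
  formula for `F(τ')`.  The coefficients of `F` are not all zero: the substitution is invertible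
  (`det h ≠ 0`): `a, b, c` times `N²` are given by the inverse substitution.
-/

namespace Pool.Agent.LGO

theorem norm_sq_denom {g : Matrix (Fin 2) (Fin 2) ℤ} {τ τ' : ℂ} (h : Maps g τ τ') :
    ‖(g 1 0 : ℂ) * τ + (g 1 1 : ℂ)‖ ^ 2 * τ'.im = (g.det : ℝ) * τ.im := by
  have hre := congrArg Complex.re h
  have him := congrArg Complex.im h
  simp only [Complex.mul_re, Complex.mul_im, Complex.add_re, Complex.add_im, Complex.intCast_re,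
    Complex.intCast_im, zero_mul, sub_zero, add_zero] at hre him
  rw [Complex.sq_norm, Complex.normSq_apply, Matrix.det_fin_two]
  simp only [Complex.mul_re, Complex.mul_im, Complex.add_re, Complex.add_im, Complex.intCast_re,
    Complex.intCast_im, zero_mul, sub_zero, add_zero]
  push_cast
  linear_combination (g 1 0 * τ.re + g 1 1) * him - (g 1 0 * τ.im) * hre

theorem entries_le {g : Matrix (Fin 2) (Fin 2) ℤ} {τ τ' : ℂ} (h : Maps g τ τ') (hdet : 0 < g.det)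
    {R : ℝ} (hR : 1 ≤ R) (h1 : ‖τ‖ ≤ R) (h2 : ‖τ'‖ ≤ R) (h3 : R⁻¹ ≤ τ.im) (h4 : R⁻¹ ≤ τ'.im) :
    ∀ i j, |(g i j : ℝ)| ≤ 2 * R ^ 4 * g.det := by
  have hR0 : 0 < R := by linarith
  have hN : (1 : ℝ) ≤ g.det := by exact_mod_cast hdet
  set N : ℝ := (g.det : ℝ) with hNdef
  have him : τ.im ≤ R := ((le_abs_self _).trans (Complex.abs_im_le_norm τ)).trans h1
  have hinv : R * R⁻¹ = 1 := mul_inv_cancel₀ hR0.ne'
  have him0 : 0 < τ.im := lt_of_lt_of_le (inv_pos.mpr hR0) h3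
  set D := ‖(g 1 0 : ℂ) * τ + (g 1 1 : ℂ)‖ with hD
  have hD0 : 0 ≤ D := norm_nonneg _
  have hden : D ^ 2 * τ'.im = N * τ.im := norm_sq_denom h
  have hD1 : D ≤ N * R := by
    have e1 : D ^ 2 * R⁻¹ ≤ N * R := by
      calc D ^ 2 * R⁻¹ ≤ D ^ 2 * τ'.im := by gcongr
        _ = N * τ.im := hden
        _ ≤ N * R := by gcongr
    have e2 : D ^ 2 ≤ (N * R) ^ 2 := by
      have e3 : D ^ 2 = D ^ 2 * R⁻¹ * R := by field_simp
      rw [e3]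
      calc D ^ 2 * R⁻¹ * R ≤ N * R * R := by gcongr
        _ ≤ (N * R) ^ 2 := by nlinarith [mul_pos hR0 hR0]
    exact abs_le_of_sq_le_sq' e2 (by positivity) |>.2
  -- a bound of the leading coefficient of a linear form
  have key : ∀ (c d : ℤ) (B : ℝ), ‖(c : ℂ) * τ + (d : ℂ)‖ ≤ B → |(c : ℝ)| ≤ B * R ∧
      |(d : ℝ)| ≤ B + B * R * R := by
    intro c d B hB
    have hB0 : 0 ≤ B := (norm_nonneg _).trans hB
    have e1 : |(c : ℝ) * τ.im| ≤ B := by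
      have e2 := (Complex.abs_im_le_norm ((c : ℂ) * τ + (d : ℂ))).trans hB
      have e3 : ((c : ℂ) * τ + (d : ℂ)).im = (c : ℝ) * τ.im := by simp [Complex.mul_im]
      rwa [e3] at e2
    rw [abs_mul, abs_of_pos him0] at e1
    have e4 : |(c : ℝ)| ≤ B * R := by
      have e5 : |(c : ℝ)| * R⁻¹ ≤ B := (mul_le_mul_of_nonneg_left h3 (abs_nonneg _)).trans e1
      calc |(c : ℝ)| = |(c : ℝ)| * R⁻¹ * R := by field_simp
        _ ≤ B * R := by gcongr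
    refine ⟨e4, ?_⟩
    have e6 : ‖(d : ℂ)‖ = |(d : ℝ)| := by
      rw [← Complex.ofReal_intCast, Complex.norm_real, Real.norm_eq_abs]
    have e7 : ‖(c : ℂ)‖ = |(c : ℝ)| := by
      rw [← Complex.ofReal_intCast, Complex.norm_real, Real.norm_eq_abs]
    calc |(d : ℝ)| = ‖((c : ℂ) * τ + (d : ℂ)) - (c : ℂ) * τ‖ := by rw [← e6]; congr 1; ring
      _ ≤ ‖(c : ℂ) * τ + (d : ℂ)‖ + ‖(c : ℂ) * τ‖ := norm_sub_le _ _
      _ = ‖(c : ℂ) * τ + (d : ℂ)‖ + |(c : ℝ)| * ‖τ‖ := by rw [norm_mul, e7]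
      _ ≤ B + B * R * R := by gcongr
  have hnum : ‖(g 0 0 : ℂ) * τ + (g 0 1 : ℂ)‖ ≤ N * R * R := by
    have e1 : (g 0 0 : ℂ) * τ + (g 0 1 : ℂ) = τ' * ((g 1 0 : ℂ) * τ + (g 1 1 : ℂ)) := h.symm
    rw [e1, norm_mul, mul_comm]
    gcongr
  obtain ⟨k1, k2⟩ := key _ _ _ hD1
  obtain ⟨k3, k4⟩ := key _ _ _ hnum
  have hR2 : 1 ≤ R ^ 2 := one_le_pow₀ hR
  have hR3 : 1 ≤ R ^ 3 := one_le_pow₀ hR
  have p1 : R ≤ R ^ 4 := by nlinarith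
  have p2 : R ^ 2 ≤ R ^ 4 := by nlinarith
  have p3 : R ^ 3 ≤ R ^ 4 := by nlinarith
  have p4 : 0 < R ^ 4 := by positivity
  intro i j
  fin_cases i <;> fin_cases j
  · change |(g 0 0 : ℝ)| ≤ _
    nlinarith
  · change |(g 0 1 : ℝ)| ≤ _
    nlinarith
  · change |(g 1 0 : ℝ)| ≤ _
    nlinarith
  · change |(g 1 1 : ℝ)| ≤ _
    nlinarith

theorem form_map (h : Matrix (Fin 2) (Fin 2) ℤ) (hdet : 0 < h.det) (a b c : ℤ)
    (hne : ¬ (a = 0 ∧ b = 0 ∧ c = 0)) {H B : ℝ} (ha : |(a : ℝ)| ≤ H) (hb : |(b : ℝ)| ≤ H)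
    (hc : |(c : ℝ)| ≤ H) (hB : ∀ i j, |(h i j : ℝ)| ≤ B) :
    ∃ a' b' c' : ℤ, ¬ (a' = 0 ∧ b' = 0 ∧ c' = 0) ∧ |(a' : ℝ)| ≤ 6 * H * B ^ 2 ∧
      |(b' : ℝ)| ≤ 6 * H * B ^ 2 ∧ |(c' : ℝ)| ≤ 6 * H * B ^ 2 ∧
      ∀ τ τ' : ℂ, Maps h τ τ' →
        (a' : ℂ) * τ' ^ 2 + b' * τ' + c' =
          ((h 0 0 : ℂ) - (h 1 0 : ℂ) * τ') ^ 2 * ((a : ℂ) * τ ^ 2 + b * τ + c) := by
  have hB0 : 0 ≤ B := (abs_nonneg _).trans (hB 0 0)
  have hH0 : 0 ≤ H := (abs_nonneg _).trans ha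
  have b00 := hB 0 0
  have b01 := hB 0 1
  have b10 := hB 1 0
  have b11 := hB 1 1
  -- products of three factors
  have tri : ∀ x y z : ℤ, |(x : ℝ)| ≤ H → |(y : ℝ)| ≤ B → |(z : ℝ)| ≤ B →
      |((x * (y * z) : ℤ) : ℝ)| ≤ H * B ^ 2 := by
    intro x y z hx hy hz
    push_cast
    rw [abs_mul, abs_mul, pow_two]
    gcongr
  refine ⟨a * (h 1 1 * h 1 1) - b * (h 1 1 * h 1 0) + c * (h 1 0 * h 1 0),
    -(a * (h 1 1 * h 0 1)) - a * (h 1 1 * h 0 1) + b * (h 1 1 * h 0 0) + b * (h 0 1 * h 1 0) -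
      c * (h 0 0 * h 1 0) - c * (h 0 0 * h 1 0),
    a * (h 0 1 * h 0 1) - b * (h 0 1 * h 0 0) + c * (h 0 0 * h 0 0), ?_, ?_, ?_, ?_, ?_⟩
  · rintro ⟨e1, e2, e3⟩
    have hd : h 0 0 * h 1 1 - h 0 1 * h 1 0 ≠ 0 := by
      rw [← Matrix.det_fin_two]
      exact hdet.ne'
    have hd2 : (h 0 0 * h 1 1 - h 0 1 * h 1 0) ^ 2 ≠ 0 := pow_ne_zero 2 hd
    apply hne
    refine ⟨?_, ?_, ?_⟩
    · apply (mul_eq_zero.mp (?_ : (h 0 0 * h 1 1 - h 0 1 * h 1 0) ^ 2 * a = 0)).resolve_left hd2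
      linear_combination (h 0 0) ^ 2 * e1 + h 0 0 * h 1 0 * e2 + (h 1 0) ^ 2 * e3
    · apply (mul_eq_zero.mp (?_ : (h 0 0 * h 1 1 - h 0 1 * h 1 0) ^ 2 * b = 0)).resolve_left hd2
      linear_combination 2 * h 0 0 * h 0 1 * e1 + (h 0 0 * h 1 1 + h 0 1 * h 1 0) * e2 +
        2 * h 1 0 * h 1 1 * e3
    · apply (mul_eq_zero.mp (?_ : (h 0 0 * h 1 1 - h 0 1 * h 1 0) ^ 2 * c = 0)).resolve_left hd2
      linear_combination (h 0 1) ^ 2 * e1 + h 0 1 * h 1 1 * e2 + (h 1 1) ^ 2 * e3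
  · have t1 := abs_le.mp (tri a _ _ ha b11 b11)
    have t2 := abs_le.mp (tri b _ _ hb b11 b10)
    have t3 := abs_le.mp (tri c _ _ hc b10 b10)
    have hp : 0 ≤ H * B ^ 2 := by positivity
    push_cast at t1 t2 t3 ⊢
    rw [abs_le]
    constructor <;> linarith [t1.1, t1.2, t2.1, t2.2, t3.1, t3.2]
  · have t1 := abs_le.mp (tri a _ _ ha b11 b01)
    have t2 := abs_le.mp (tri b _ _ hb b11 b00)
    have t3 := abs_le.mp (tri b _ _ hb b01 b10)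
    have t4 := abs_le.mp (tri c _ _ hc b00 b10)
    push_cast at t1 t2 t3 t4 ⊢
    rw [abs_le]
    constructor <;> linarith [t1.1, t1.2, t2.1, t2.2, t3.1, t3.2, t4.1, t4.2]
  · have t1 := abs_le.mp (tri a _ _ ha b01 b01)
    have t2 := abs_le.mp (tri b _ _ hb b01 b00)
    have t3 := abs_le.mp (tri c _ _ hc b00 b00)
    have hp : 0 ≤ H * B ^ 2 := by positivity
    push_cast at t1 t2 t3 ⊢
    rw [abs_le]
    constructor <;> linarith [t1.1, t1.2, t2.1, t2.2, t3.1, t3.2]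
  · intro τ τ' hm
    rw [Maps] at hm
    have e : (h 1 1 : ℂ) * τ' - (h 0 1 : ℂ) = τ * ((h 0 0 : ℂ) - (h 1 0 : ℂ) * τ') := by
      linear_combination hm
    push_cast
    linear_combination ((a : ℂ) * (((h 1 1 : ℂ) * τ' - (h 0 1 : ℂ)) +
      ((h 0 0 : ℂ) - (h 1 0 : ℂ) * τ') * τ) + b * ((h 0 0 : ℂ) - (h 1 0 : ℂ) * τ')) * e

/-- a quadratic polynomial varies slowly -/
theorem form_sub (a b c : ℤ) {H R : ℝ} (ha : |(a : ℝ)| ≤ H) (hb : |(b : ℝ)| ≤ H) (hR : 1 ≤ R)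
    {τ τ' : ℂ} (h1 : ‖τ‖ ≤ R) (h2 : ‖τ'‖ ≤ R) :
    ‖((a : ℂ) * τ ^ 2 + b * τ + c) - ((a : ℂ) * τ' ^ 2 + b * τ' + c)‖ ≤ 3 * H * R * ‖τ - τ'‖ := by
  have hH0 : 0 ≤ H := (abs_nonneg _).trans ha
  have e1 : ((a : ℂ) * τ ^ 2 + b * τ + c) - ((a : ℂ) * τ' ^ 2 + b * τ' + c) =
      ((a : ℂ) * (τ + τ') + b) * (τ - τ') := by ring
  have e6 : ‖(a : ℂ)‖ = |(a : ℝ)| := by
    rw [← Complex.ofReal_intCast, Complex.norm_real, Real.norm_eq_abs]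
  have e7 : ‖(b : ℂ)‖ = |(b : ℝ)| := by
    rw [← Complex.ofReal_intCast, Complex.norm_real, Real.norm_eq_abs]
  rw [e1, norm_mul]
  refine mul_le_mul_of_nonneg_right ?_ (norm_nonneg _)
  calc ‖(a : ℂ) * (τ + τ') + b‖ ≤ ‖(a : ℂ) * (τ + τ')‖ + ‖(b : ℂ)‖ := norm_add_le _ _
    _ = |(a : ℝ)| * ‖τ + τ'‖ + |(b : ℝ)| := by rw [norm_mul, e6, e7]
    _ ≤ H * (R + R) + H := by
      gcongr
      exact (norm_add_le _ _).trans (add_le_add h1 h2)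
    _ ≤ 3 * H * R := by nlinarith

end Pool.Agent.LGO
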