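import Mathlib
import Pool.Agent.LGO.Defs

/-!
# LGO/Q: quadratic measures
-/

namespace Pool.Agent.LGO

open UpperHalfPlane Pool.Agent.Hhelper14.ZP

/-- the values of the nonzero integral quadratic polynomials of height at most `H` at a point `τ` with
`j(τ) = γ` are at least `exp (- C (log H) ^ C)` -/
def QM (γ : ℂ) : Prop :=
  ∀ τ : ℍ, jInv τ = γ → ∃ C : ℕ, ∀ (a b c : ℤ) (H : ℝ), 3 ≤ H → |(a : ℝ)| ≤ H → |(b : ℝ)| ≤ H →
    |(c : ℝ)| ≤ H → ¬ (a = 0 ∧ b = 0 ∧ c = 0) →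
    Real.exp (-(C * Real.log H ^ C)) ≤ ‖(a : ℂ) * (τ : ℂ) ^ 2 + b * (τ : ℂ) + c‖

end Pool.Agent.LGO
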