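import Mathlib
import Pool.Agent.LGO.Q.Defs
import Pool.Agent.LGO.Q.Ent
import Pool.Agent.LGO.Gal.JInj
import Pool.Agent.LGO.Mul.Disc
import Pool.Agent.LGO.H.BdC
import Pool.Agent.LGO.Meas
import Pool.Agent.LGO.Mul.Unif
import Pool.Agent.Hhelper14.ZPL.Rho
import Pool.Agent.EllSch.JFun

/-!
# LGO/Q: the quadratic measure from the transcendence measure

`γ = j(τ)` algebraic, no CM.  Let `τ₀` be reduced with `j(τ₀) = γ` (`exists_red` in `Mul/Unif.lean`); `Maps h τ₀ τ` with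
`det h = 1` (`Gal.j_inj`: `jInv τ = jInv τ₀` gives `h ∈ SL₂(ℤ)`; `Gal.maps_sl`).  `form_map` reduces
the claim for `τ` to the claim for `τ₀` (`H` is replaced by `C H`; `log (C H) ≤ C' log H` as `H ≥ 3`; the factor
`(h00 - h10 τ₀)²` is a constant, nonzero).
For the reduced `τ₀`: `G2 1 τ₀ ≠ 0` and `G3 1 τ₀ ≠ 0` (otherwise `γ = 0` or
`γ = 1728` by `jInv_mul` of `Mul/Disc.lean`; `0 = j(ρ)`: `exists_cm_zero` in `Hhelper14/ZPL/Rho.lean`;
`G3 1 i = 0` by `G3_S` of `EllSch/JFun.lean`, so `jInv i = 1728` by `jInv_mul`; both are CM).  Let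
`w² = G3 1 τ₀ / G2 1 τ₀`: `G2 w (w τ₀) = w^(-4) G2 1 τ₀ = G3 w (w τ₀) = w^(-6) G3 1 τ₀ =: g`, and
`γ = 1728 g / (g - 27)`, so `g = 27 γ / (γ - 1728)` is algebraic.
Let `f = a X² + b X + c ≠ 0` of height `≤ H`.  `a = 0`: `|b τ₀ + c| ≥ min(1, Im τ₀)` (`b ≠ 0`: imaginary part; `b = 0`:
`|c| ≥ 1`).  `a ≠ 0`: `f = a (X - ξ)(X - ξ')`.  If the roots are real: `|f(τ₀)| ≥ (Im τ₀)²`.  Otherwise `ξ' = ξ̄`,
one of them, say `ξ'`, has negative imaginary part and `|τ₀ - ξ'| ≥ Im τ₀`; `ξ` is not rational, and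
`K = ℚ(g, ξ)` (`IntermediateField.adjoin ℚ {g, ξ}`) has degree `≤ 2 [ℚ(g) : ℚ]`, `Bd K M ξ` with
`M = C log H` (`a ξ` is integral, all conjugates of `ξ` are roots of `f`, so `≤ 1 + 2 H` in absolute value),
`Bd K M g` for `M ≥ C`.  `meas` gives `|τ₀ - ξ| ≥ exp(- M ^ C)`.
-/

namespace Pool.Agent.LGO

open UpperHalfPlane Pool.Agent.Hhelper14.ZP Pool.Agent.EllSch Polynomial

/-- an algebraic number satisfies the height condition with a constant, for every field -/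
theorem Quad_bd_alg {g : ℂ} (hg : IsAlgebraic ℚ g) :
    ∃ B : ℝ, 0 ≤ B ∧ ∀ K : IntermediateField ℚ ℂ, g ∈ K → Bd K B g := by
  have hgZ : IsAlgebraic ℤ g := (IsFractionRing.isAlgebraic_iff ℤ ℚ ℂ).2 hg
  obtain ⟨n, hn0, hn⟩ := hgZ.exists_integral_multiple
  have hfin : (((minpoly ℚ g).map (algebraMap ℚ ℂ)).roots.toFinset : Set ℂ).Finite :=
    Finset.finite_toSet _
  obtain ⟨A, hA⟩ : ∃ A : ℝ, ∀ y ∈ ((minpoly ℚ g).map (algebraMap ℚ ℂ)).roots.toFinset, ‖y‖ ≤ A := by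
    obtain ⟨A, hA⟩ := (hfin.image fun y => ‖y‖).bddAbove
    exact ⟨A, fun y hy => hA ⟨y, hy, rfl⟩⟩
  have hint : IsIntegral ℚ g := hg.isIntegral
  set B : ℝ := max (Real.log n.natAbs) (max (Real.log (max A 1)) 0) with hB
  have hB0 : 0 ≤ B := le_max_of_le_right (le_max_right _ _)
  refine ⟨B, hB0, fun K hK => ⟨hK, ⟨n.natAbs, Int.natAbs_pos.mpr hn0, ?_, ?_⟩, fun σ => ?_⟩⟩
  · have h1 : (0 : ℝ) < (n.natAbs : ℝ) := by exact_mod_cast Int.natAbs_pos.mpr hn0
    rw [← Real.log_le_iff_le_exp h1]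
    exact le_max_left _ _
  · have h2 : ((n.natAbs : ℕ) : ℂ) = n ∨ ((n.natAbs : ℕ) : ℂ) = -n := by
      rcases Int.natAbs_eq n with h | h
      · left
        have h3 := congrArg (fun z : ℤ => (z : ℂ)) h
        simp only [Int.cast_natCast] at h3
        exact h3.symm
      · right
        have h3 := congrArg (fun z : ℤ => (z : ℂ)) h
        simp only [Int.cast_neg, Int.cast_natCast] at h3
        linear_combination h3
    have h3 : IsIntegral ℤ ((n : ℂ) * g) := by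
      have := hn
      rwa [zsmul_eq_mul] at this
    rcases h2 with h | h
    · rw [h]; exact h3
    · rw [h, neg_mul]; exact h3.neg
  · have h4 : σ ⟨g, hK⟩ ∈ ((minpoly ℚ g).map (algebraMap ℚ ℂ)).roots.toFinset := by
      rw [Multiset.mem_toFinset, mem_roots (map_ne_zero (minpoly.ne_zero hint)), IsRoot.def,
        eval_map]
      have h5 : eval₂ (algebraMap ℚ ℂ) (σ ⟨g, hK⟩) (minpoly ℚ g) =
          σ (eval₂ (algebraMap ℚ K) ⟨g, hK⟩ (minpoly ℚ g)) := by
        rw [hom_eval₂]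
        congr 1
        exact RingHom.ext_rat _ _
      rw [h5]
      have h6 : eval₂ (algebraMap ℚ K) ⟨g, hK⟩ (minpoly ℚ g) = 0 := by
        apply Subtype.ext
        have h7 : ((eval₂ (algebraMap ℚ K) ⟨g, hK⟩ (minpoly ℚ g) : K) : ℂ) =
            eval₂ (algebraMap ℚ ℂ) g (minpoly ℚ g) := by
          have h8 : ((eval₂ (algebraMap ℚ K) ⟨g, hK⟩ (minpoly ℚ g) : K) : ℂ) =
              (algebraMap K ℂ) (eval₂ (algebraMap ℚ K) ⟨g, hK⟩ (minpoly ℚ g)) := rfl
          rw [h8, hom_eval₂]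
          congr 1
        rw [h7]
        exact minpoly.aeval ℚ g
      rw [h6, map_zero]
    have h9 : ‖σ ⟨g, hK⟩‖ ≤ max A 1 := (hA _ h4).trans (le_max_left _ _)
    refine h9.trans ?_
    rw [← Real.log_le_iff_le_exp (lt_of_lt_of_le one_pos (le_max_right _ _))]
    exact le_max_of_le_right (le_max_left _ _)

/-- a root of an integral quadratic polynomial -/
theorem Quad_bd_root {a b c : ℤ} (ha : 0 < a) {H M : ℝ} (haH : |(a : ℝ)| ≤ H)
    (hbH : |(b : ℝ)| ≤ H) (hcH : |(c : ℝ)| ≤ H) (hM : 2 * H ≤ Real.exp M) {ξ : ℂ}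
    (hξ : (a : ℂ) * ξ ^ 2 + b * ξ + c = 0) {K : IntermediateField ℚ ℂ} (hK : ξ ∈ K) :
    Bd K M ξ := by
  have ha1 : (1 : ℝ) ≤ a := by exact_mod_cast ha
  have hH1 : 1 ≤ H := by
    rw [abs_of_pos (by linarith)] at haH
    linarith
  refine ⟨hK, ⟨a.toNat, by omega, ?_, ?_⟩, fun σ => ?_⟩
  · have h1 : ((a.toNat : ℕ) : ℝ) = a := by
      have : ((a.toNat : ℤ)) = a := Int.toNat_of_nonneg ha.le
      exact_mod_cast this
    rw [h1]
    rw [abs_of_pos (by linarith)] at haH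
    linarith
  · have h1 : ((a.toNat : ℕ) : ℂ) = a := by
      have : ((a.toNat : ℤ)) = a := Int.toNat_of_nonneg ha.le
      exact_mod_cast this
    rw [h1]
    refine ⟨X ^ 2 + C b * X + C (a * c), ?_, ?_⟩
    · have : (X ^ 2 + C b * X + C (a * c) : ℤ[X]) = X ^ 2 + (C b * X + C (a * c)) := by ring
      rw [this]
      exact monic_X_pow_add (by
        refine lt_of_le_of_lt degree_linear_le ?_
        norm_num)
    · rw [eval₂_add, eval₂_add, eval₂_mul, eval₂_pow, eval₂_X, eval₂_C, eval₂_C]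
      simp only [algebraMap_int_eq, eq_intCast]
      push_cast
      linear_combination (a : ℂ) * hξ
  · set y := σ ⟨ξ, hK⟩ with hy
    have h1 : (a : ℂ) * y ^ 2 + b * y + c = 0 := by
      have h2 : ((a : K) * (⟨ξ, hK⟩ : K) ^ 2 + b * (⟨ξ, hK⟩ : K) + c) = 0 := by
        apply Subtype.ext
        push_cast
        exact hξ
      have h3 := congrArg σ h2
      rw [map_add, map_add, map_mul, map_mul, map_pow, map_intCast, map_intCast, map_intCast,
        map_zero] at h3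
      exact h3
    by_cases hy1 : ‖y‖ ≤ 1
    · linarith
    · rw [not_le] at hy1
      have h2 : (a : ℂ) * y ^ 2 = -(b * y + c) := by linear_combination h1
      have h3 := congrArg norm h2
      rw [norm_neg, norm_mul, norm_pow, Complex.norm_intCast, abs_of_pos (by linarith)] at h3
      have h4 : ‖(b : ℂ) * y + c‖ ≤ H * ‖y‖ + H := by
        refine (norm_add_le _ _).trans ?_
        rw [norm_mul, Complex.norm_intCast, Complex.norm_intCast]
        have := mul_le_mul_of_nonneg_right hbH (norm_nonneg y)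
        linarith
      have h5 : ‖y‖ ^ 2 ≤ H * ‖y‖ + H := by
        have : ‖y‖ ^ 2 ≤ (a : ℝ) * ‖y‖ ^ 2 := le_mul_of_one_le_left (by positivity) ha1
        linarith
      have h6 : ‖y‖ ^ 2 ≤ (2 * H) * ‖y‖ := by
        have : H * 1 ≤ H * ‖y‖ := mul_le_mul_of_nonneg_left hy1.le (by linarith)
        linarith
      have h7 : ‖y‖ ≤ 2 * H := by
        have h8 : ‖y‖ * ‖y‖ ≤ 2 * H * ‖y‖ := by rw [← sq]; exact h6
        exact le_of_mul_le_mul_right h8 (by linarith)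
      linarith

/-- the values of a quadratic polynomial at a point of the upper half plane: either large, or
controlled by the distance to the root -/
theorem Quad_val {a b c : ℤ} (hne : ¬ (a = 0 ∧ b = 0 ∧ c = 0)) {τ : ℂ} (hτ : 1 / 2 ≤ τ.im) :
    1 / 4 ≤ ‖(a : ℂ) * τ ^ 2 + b * τ + c‖ ∨
      ∃ (a' b' c' : ℤ) (ξ : ℂ), 0 < a' ∧ |(a' : ℝ)| = |(a : ℝ)| ∧ |(b' : ℝ)| = |(b : ℝ)| ∧
        |(c' : ℝ)| = |(c : ℝ)| ∧ (a' : ℂ) * ξ ^ 2 + b' * ξ + c' = 0 ∧ 0 < ξ.im ∧
        1 / 2 * ‖τ - ξ‖ ≤ ‖(a : ℂ) * τ ^ 2 + b * τ + c‖ := by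
  -- the case of a positive leading coefficient
  have key : ∀ a b c : ℤ, 0 < a → 1 / 4 ≤ ‖(a : ℂ) * τ ^ 2 + b * τ + c‖ ∨
      ∃ ξ : ℂ, (a : ℂ) * ξ ^ 2 + b * ξ + c = 0 ∧ 0 < ξ.im ∧
        1 / 2 * ‖τ - ξ‖ ≤ ‖(a : ℂ) * τ ^ 2 + b * τ + c‖ := by
    intro a b c ha
    have ha1 : (1 : ℝ) ≤ a := by exact_mod_cast ha
    have haC : (a : ℂ) ≠ 0 := by exact_mod_cast ha.ne'
    have hfac : ∀ s : ℂ, s ^ 2 = (b : ℂ) ^ 2 - 4 * a * c →
        (a : ℂ) * τ ^ 2 + b * τ + c =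
          a * (τ - (-b + s) / (2 * a)) * (τ - (-b - s) / (2 * a)) := by
      intro s hs
      field_simp
      linear_combination hs
    have hreal : ∀ x : ℂ, x.im ≤ 0 → 1 / 2 ≤ ‖τ - x‖ := by
      intro x hx
      have h1 := Complex.abs_im_le_norm (τ - x)
      rw [Complex.sub_im] at h1
      have h2 := le_abs_self (τ.im - x.im)
      linarith
    by_cases hD : 0 ≤ (b : ℝ) ^ 2 - 4 * a * c
    · left
      set r := √((b : ℝ) ^ 2 - 4 * a * c) with hr
      have hr2 : ((r : ℝ) : ℂ) ^ 2 = (b : ℂ) ^ 2 - 4 * a * c := by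
        rw [← Complex.ofReal_pow, hr, Real.sq_sqrt hD]
        push_cast
        ring
      rw [hfac r hr2, norm_mul, norm_mul, Complex.norm_intCast, abs_of_pos (by linarith)]
      have e1 : ((-b + r) / (2 * a) : ℂ) = (((-b + r) / (2 * a) : ℝ) : ℂ) := by push_cast; ring
      have e2 : ((-b - r) / (2 * a) : ℂ) = (((-b - r) / (2 * a) : ℝ) : ℂ) := by push_cast; ring
      have h1 := hreal ((-b + r) / (2 * a) : ℂ) (by rw [e1, Complex.ofReal_im])
      have h2 := hreal ((-b - r) / (2 * a) : ℂ) (by rw [e2, Complex.ofReal_im])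
      calc (1 / 4 : ℝ) = 1 * (1 / 2) * (1 / 2) := by norm_num
        _ ≤ a * ‖τ - (-b + r) / (2 * a)‖ * ‖τ - (-b - r) / (2 * a)‖ := by gcongr
    · right
      rw [not_le] at hD
      set r := √(-((b : ℝ) ^ 2 - 4 * a * c)) with hr
      have hr0 : 0 < r := Real.sqrt_pos.mpr (by linarith)
      have hr2 : ((r : ℝ) : ℂ) ^ 2 = -((b : ℂ) ^ 2 - 4 * a * c) := by
        rw [← Complex.ofReal_pow, hr, Real.sq_sqrt (by linarith)]
        push_cast
        ring
      have hs : ((r : ℝ) * Complex.I : ℂ) ^ 2 = (b : ℂ) ^ 2 - 4 * a * c := by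
        rw [mul_pow, Complex.I_sq, hr2]
        ring
      have e1 : (((-b : ℂ) + (r : ℝ) * Complex.I) / (2 * a)) =
          (((-b / (2 * a) : ℝ) : ℂ) + ((r / (2 * a) : ℝ) : ℂ) * Complex.I) := by
        push_cast; ring
      have e2 : (((-b : ℂ) - (r : ℝ) * Complex.I) / (2 * a)) =
          (((-b / (2 * a) : ℝ) : ℂ) + ((-(r / (2 * a)) : ℝ) : ℂ) * Complex.I) := by
        push_cast; ring
      refine ⟨((-b : ℂ) + (r : ℝ) * Complex.I) / (2 * a), ?_, ?_, ?_⟩
      · field_simp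
        linear_combination hs
      · rw [e1]
        simp only [Complex.add_im, Complex.ofReal_im, Complex.mul_im, Complex.ofReal_re,
          Complex.I_im, Complex.I_re, mul_one, mul_zero, add_zero, zero_add]
        positivity
      · rw [hfac _ hs, norm_mul, norm_mul, Complex.norm_intCast, abs_of_pos (by linarith)]
        have h2 := hreal (((-b : ℂ) - (r : ℝ) * Complex.I) / (2 * a)) (by
          rw [e2]
          simp only [Complex.add_im, Complex.ofReal_im, Complex.mul_im, Complex.ofReal_re,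
            Complex.I_im, Complex.I_re, mul_one, mul_zero, add_zero, zero_add]
          have : 0 < r / (2 * a) := by positivity
          linarith)
        calc 1 / 2 * ‖τ - (-b + (r : ℝ) * Complex.I) / (2 * a)‖ =
            1 * ‖τ - (-b + (r : ℝ) * Complex.I) / (2 * a)‖ * (1 / 2) := by ring
          _ ≤ a * ‖τ - (-b + (r : ℝ) * Complex.I) / (2 * a)‖ *
              ‖τ - (-b - (r : ℝ) * Complex.I) / (2 * a)‖ := by gcongr
  rcases lt_trichotomy a 0 with ha | ha | ha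
  · have e : ‖(a : ℂ) * τ ^ 2 + b * τ + c‖ =
        ‖((-a : ℤ) : ℂ) * τ ^ 2 + ((-b : ℤ) : ℂ) * τ + ((-c : ℤ) : ℂ)‖ := by
      rw [← norm_neg]
      congr 1
      push_cast
      ring
    rcases key (-a) (-b) (-c) (by omega) with h | ⟨ξ, h1, h2, h3⟩
    · left; rw [e]; exact h
    · right
      refine ⟨-a, -b, -c, ξ, by omega, ?_, ?_, ?_, h1, h2, by rw [e]; exact h3⟩ <;>
        push_cast <;> rw [abs_neg]
  · left
    subst ha
    by_cases hb : b = 0
    · subst hb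
      have hc : c ≠ 0 := fun h => hne ⟨rfl, rfl, h⟩
      have h1 : (1 : ℝ) ≤ |(c : ℝ)| := by exact_mod_cast Int.one_le_abs hc
      simp only [Int.cast_zero, zero_mul, zero_add]
      rw [Complex.norm_intCast]
      linarith
    · have h1 : (1 : ℝ) ≤ |(b : ℝ)| := by exact_mod_cast Int.one_le_abs hb
      have h2 := Complex.abs_im_le_norm (((0 : ℤ) : ℂ) * τ ^ 2 + b * τ + c)
      have h3 : (((0 : ℤ) : ℂ) * τ ^ 2 + b * τ + c).im = b * τ.im := by
        simp
      rw [h3, abs_mul] at h2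
      have h4 : |τ.im| = τ.im := abs_of_pos (by linarith)
      rw [h4] at h2
      have h5 : (1 : ℝ) * (1 / 2) ≤ |(b : ℝ)| * τ.im := by gcongr
      have h6 := h5.trans h2
      refine le_trans ?_ h6
      norm_num
  · rcases key a b c ha with h | ⟨ξ, h1, h2, h3⟩
    · left; exact h
    · right
      exact ⟨a, b, c, ξ, ha, rfl, rfl, rfl, h1, h2, h3⟩

/-- the degree of a root of an integral quadratic polynomial -/
theorem Quad_finrank {a b c : ℤ} (ha : 0 < a) {ξ : ℂ} (hξ : (a : ℂ) * ξ ^ 2 + b * ξ + c = 0) :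
    IsIntegral ℚ ξ ∧ Module.finrank ℚ (IntermediateField.adjoin ℚ {ξ}) ≤ 2 := by
  set P : ℚ[X] := C (a : ℚ) * X ^ 2 + C (b : ℚ) * X + C (c : ℚ) with hP
  have haQ : (a : ℚ) ≠ 0 := by exact_mod_cast ha.ne'
  have hP0 : P ≠ 0 := by
    intro h
    have h1 := leadingCoeff_quadratic (b := (b : ℚ)) (c := (c : ℚ)) haQ
    rw [← hP, h, leadingCoeff_zero] at h1
    exact haQ h1.symm
  have hPξ : aeval ξ P = 0 := by
    rw [hP]
    simp only [map_add, map_mul, aeval_C, aeval_X, map_pow, eq_ratCast]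
    push_cast
    exact hξ
  have halg : IsAlgebraic ℚ ξ := ⟨P, hP0, hPξ⟩
  refine ⟨halg.isIntegral, ?_⟩
  rw [IntermediateField.adjoin.finrank halg.isIntegral]
  refine (natDegree_le_of_dvd (minpoly.dvd ℚ ξ hPξ) hP0).trans ?_
  rw [hP]
  exact natDegree_quadratic_le

/-- the invariant of the special model -/
theorem Quad_model {γ : ℂ} (h0 : γ ≠ 0) (h1728 : γ ≠ 1728) :
    ∃ (w : ℂ) (τ : ℍ), w ≠ 0 ∧ Red τ ∧ jInv τ = γ ∧ G2 w (w * τ) = 27 * γ / (γ - 1728) ∧
      G3 w (w * τ) = 27 * γ / (γ - 1728) := by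
  have hs : γ - 1728 ≠ 0 := sub_ne_zero.mpr h1728
  set g := 27 * γ / (γ - 1728) with hg
  have hg0 : g ≠ 0 := by
    rw [hg]
    exact div_ne_zero (mul_ne_zero (by norm_num) h0) hs
  have hg27 : (g - 27) * (γ - 1728) = 27 * 1728 := by
    rw [hg, sub_mul, div_mul_cancel₀ _ hs]
    ring
  have hg27' : g - 27 ≠ 0 := by
    intro h
    rw [h, zero_mul] at hg27
    norm_num at hg27
  have hd : g ^ 3 - 27 * g ^ 2 ≠ 0 := by
    have e : g ^ 3 - 27 * g ^ 2 = g ^ 2 * (g - 27) := by ring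
    rw [e]
    exact mul_ne_zero (pow_ne_zero _ hg0) hg27'
  obtain ⟨w, τ, hw, hred, h2, h3⟩ := exists_lat hd
  have him : 0 < τ.im := hred.im_pos
  refine ⟨w, ⟨τ, him⟩, hw, hred, ?_, h2, h3⟩
  have hm := jInv_mul ⟨τ, him⟩
  have e2 : G2 1 τ = g * w ^ 4 := by
    have := G2_scale (τ := τ) hw
    rw [h2] at this
    rw [this]
    field_simp
  have e3 : G3 1 τ = g * w ^ 6 := by
    have := G3_scale (τ := τ) hw
    rw [h3] at this
    rw [this]
    field_simp
  have hm' : jInv ⟨τ, him⟩ * (G2 1 τ ^ 3 - 27 * G3 1 τ ^ 2) = 1728 * G2 1 τ ^ 3 := hm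
  rw [e2, e3] at hm'
  have h4 : (jInv ⟨τ, him⟩ - γ) * (w ^ 12 * g ^ 2 * (g - 27)) = 0 := by
    have e5 : γ * (g - 27) = 1728 * g := by
      rw [hg]
      field_simp
      ring
    linear_combination hm' - w ^ 12 * g ^ 2 * e5
  rcases mul_eq_zero.mp h4 with h | h
  · exact sub_eq_zero.mp h
  · exact absurd h (mul_ne_zero (mul_ne_zero (pow_ne_zero _ hw) (pow_ne_zero _ hg0)) hg27')

/-- `j(i) = 1728` -/
theorem Quad_jI : jInv UpperHalfPlane.I = 1728 := by
  have h3 : G3 1 Complex.I = 0 := by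
    have h := JFun.G3_S (τ := Complex.I) Complex.I_ne_zero
    have e1 : (-1 / Complex.I : ℂ) = Complex.I := by
      rw [div_eq_iff Complex.I_ne_zero, Complex.I_mul_I]
    have e2 : (Complex.I : ℂ) ^ 6 = -1 := by
      have : (Complex.I : ℂ) ^ 6 = (Complex.I ^ 2) ^ 3 := by ring
      rw [this, Complex.I_sq]
      norm_num
    rw [e1, e2] at h
    have h2 : 2 * G3 1 Complex.I = 0 := by linear_combination h
    exact (mul_eq_zero.mp h2).resolve_left two_ne_zero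
  have hm := jInv_mul UpperHalfPlane.I
  have hI : ((UpperHalfPlane.I : ℍ) : ℂ) = Complex.I := rfl
  rw [hI, h3] at hm
  have hd := disc_ne_zero (ind_one (τ := Complex.I) (by simp))
  rw [h3] at hd
  have h2 : G2 1 Complex.I ^ 3 ≠ 0 := by simpa using hd
  have h4 : (jInv UpperHalfPlane.I - 1728) * G2 1 Complex.I ^ 3 = 0 := by linear_combination hm
  exact sub_eq_zero.mp ((mul_eq_zero.mp h4).resolve_right h2)

theorem Quad_maps (γ : Matrix.SpecialLinearGroup (Fin 2) ℤ) (τ : ℍ) :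
    Maps γ.1 τ (γ • τ : ℍ) := by
  have h1 : ((γ • τ : ℍ) : ℂ) = ((γ.1 0 0 : ℂ) * τ + γ.1 0 1) / ((γ.1 1 0 : ℂ) * τ + γ.1 1 1) := by
    rw [specialLinearGroup_apply]
    simp
  have h2 : ((γ.1 1 0 : ℂ) * τ + γ.1 1 1) ≠ 0 := by
    have := UpperHalfPlane.denom_ne_zero (Matrix.SpecialLinearGroup.toGL
      ((Matrix.SpecialLinearGroup.map (Int.castRingHom ℝ)) γ)) τ
    simpa [UpperHalfPlane.denom] using this
  rw [Maps, h1, div_mul_cancel₀ _ h2]

theorem quad {γ : ℂ} (hγ : IsAlgebraic ℚ γ) (hcm : ∀ τ : ℍ, jInv τ = γ → NonCM τ) : QM γ := by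
  intro τ hτ
  have h0 : γ ≠ 0 := by
    rintro rfl
    obtain ⟨s, ⟨a, b, c, ha, hs⟩, hj⟩ := Pool.Agent.Hhelper14.ZPL.exists_cm_zero
    exact ha (hcm s hj a b c hs).1
  have h1728 : γ ≠ 1728 := by
    rintro rfl
    have hI : ((UpperHalfPlane.I : ℍ) : ℂ) = Complex.I := rfl
    have h1 := hcm UpperHalfPlane.I Quad_jI 1 0 1 (by rw [hI, Complex.I_sq]; push_cast; ring)
    exact one_ne_zero h1.1
  obtain ⟨w, τ₀, hw, hred, hj, hG2, hG3⟩ := Quad_model h0 h1728
  set g := 27 * γ / (γ - 1728) with hgdef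
  have hg : IsAlgebraic ℚ g := by
    have hn : ∀ n : ℕ, IsAlgebraic ℚ ((n : ℕ) : ℂ) := fun n => isAlgebraic_natCast n
    have h27 : IsAlgebraic ℚ (27 : ℂ) := by exact_mod_cast hn 27
    have h17 : IsAlgebraic ℚ (1728 : ℂ) := by exact_mod_cast hn 1728
    rw [hgdef, div_eq_mul_inv]
    exact (h27.mul hγ).mul (hγ.sub h17).inv
  obtain ⟨B, hB0, hB⟩ := Quad_bd_alg hg
  obtain ⟨C₂, hC₂⟩ := meas
  obtain ⟨γ', hγ'⟩ := Gal.j_inj (τ₁ := τ₀) (τ₂ := τ) (hj.trans hτ.symm)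
  have hmap : Maps γ'.1 τ τ₀ := by
    have := Quad_maps γ' τ
    rwa [← hγ'] at this
  have hdet : γ'.1.det = 1 := γ'.2
  set h := γ'.1 with hh
  obtain ⟨E, hE1, hE⟩ : ∃ E : ℝ, 1 ≤ E ∧ ∀ i j, |(h i j : ℝ)| ≤ E := by
    refine ⟨1 + ∑ i, ∑ j, |(h i j : ℝ)|, ?_, fun i j => ?_⟩
    · have : 0 ≤ ∑ i, ∑ j, |(h i j : ℝ)| :=
        Finset.sum_nonneg fun i _ => Finset.sum_nonneg fun j _ => abs_nonneg _
      linarith
    · have h1 : |(h i j : ℝ)| ≤ ∑ j, |(h i j : ℝ)| :=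
        Finset.single_le_sum (f := fun j => |(h i j : ℝ)|) (fun j _ => abs_nonneg _)
          (Finset.mem_univ j)
      have h2 : ∑ j, |(h i j : ℝ)| ≤ ∑ i, ∑ j, |(h i j : ℝ)| :=
        Finset.single_le_sum (f := fun i => ∑ j, |(h i j : ℝ)|)
          (fun i _ => Finset.sum_nonneg fun j _ => abs_nonneg _) (Finset.mem_univ i)
      linarith
  have him : 1 / 2 ≤ (τ₀ : ℂ).im := by
    have h1 := hred.one_le
    have h2 := hred.re_le
    have h3 := hred.im_pos
    have h4 : ‖(τ₀ : ℂ)‖ ^ 2 = (τ₀ : ℂ).re ^ 2 + (τ₀ : ℂ).im ^ 2 := by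
      rw [Complex.sq_norm, Complex.normSq_apply]
      ring
    have h5 : (τ₀ : ℂ).re ^ 2 ≤ (1 / 2) ^ 2 := by
      rw [← sq_abs]
      exact pow_le_pow_left₀ (abs_nonneg _) h2 2
    have h6 : (1 : ℝ) ≤ ‖(τ₀ : ℂ)‖ ^ 2 := one_le_pow₀ h1
    by_contra hc
    rw [not_le] at hc
    have h7 : (τ₀ : ℂ).im ^ 2 < (1 / 2) ^ 2 := pow_lt_pow_left₀ hc h3.le two_ne_zero
    linarith
  set κ : ℝ := ‖((h 0 0 : ℂ) - (h 1 0 : ℂ) * τ₀)‖ ^ 2 with hκ
  have hκ0 : 0 < κ := by
    have : ((h 0 0 : ℂ) - (h 1 0 : ℂ) * τ₀) ≠ 0 := by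
      intro hz
      have h1 := congrArg Complex.im hz
      simp only [Complex.sub_im, Complex.mul_im, Complex.intCast_im, Complex.intCast_re, zero_mul,
        add_zero, zero_sub, Complex.zero_im, neg_eq_zero] at h1
      have h2 : (h 1 0 : ℝ) = 0 := by
        rcases mul_eq_zero.mp h1 with h3 | h3
        · exact h3
        · rw [h3] at him; norm_num at him
      have h3 : h 1 0 = 0 := by exact_mod_cast h2
      rw [h3, Int.cast_zero, zero_mul, sub_zero] at hz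
      have h4 : h 0 0 = 0 := by exact_mod_cast hz
      rw [Matrix.det_fin_two, h3, h4] at hdet
      norm_num at hdet
    exact pow_pos (norm_pos_iff.mpr this) 2
  set d : ℕ := Module.finrank ℚ (IntermediateField.adjoin ℚ {g}) with hd
  set C₁ : ℝ := max 2 (max (2 * d) (max B (Real.log (12 * E ^ 2) + 1))) with hC₁
  have hC2 : 2 ≤ C₁ := le_max_left _ _
  have hCd : 2 * (d : ℝ) ≤ C₁ := (le_max_left _ _).trans (le_max_right _ _)
  have hCB : B ≤ C₁ := ((le_max_left _ _).trans (le_max_right _ _)).trans (le_max_right _ _)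
  have hCE : Real.log (12 * E ^ 2) + 1 ≤ C₁ :=
    ((le_max_right _ _).trans (le_max_right _ _)).trans (le_max_right _ _)
  set Q : ℝ := C₁ ^ C₂ + |Real.log (4 * κ)| with hQ
  refine ⟨max C₂ ⌈Q⌉₊, fun a b c H hH ha hb hc hne => ?_⟩
  have hL1 : 1 ≤ Real.log H := by
    rw [Real.le_log_iff_exp_le (by linarith)]
    have := Real.exp_one_lt_d9
    linarith
  set L := Real.log H with hL
  set M : ℝ := C₁ * L with hM
  have hML : C₁ ≤ M := le_mul_of_one_le_right (by linarith) hL1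
  obtain ⟨a', b', c', hne', ha', hb', hc', hform⟩ :=
    form_map h (by rw [hdet]; exact one_pos) a b c hne ha hb hc hE
  have hf := hform τ τ₀ hmap
  have hlow : Real.exp (-(M ^ C₂)) / 4 ≤ ‖(a' : ℂ) * (τ₀ : ℂ) ^ 2 + b' * (τ₀ : ℂ) + c'‖ := by
    have hexp1 : Real.exp (-(M ^ C₂)) ≤ 1 := by
      rw [Real.exp_le_one_iff]
      have : 0 ≤ M ^ C₂ := by positivity
      linarith
    rcases Quad_val hne' him with h1 | ⟨a₂, b₂, c₂, ξ, ha₂, ea, eb, ec, hξ, hξim, h1⟩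
    · linarith
    · obtain ⟨hξi, hξr⟩ := Quad_finrank ha₂ hξ
      have : FiniteDimensional ℚ (IntermediateField.adjoin ℚ {g}) :=
        IntermediateField.adjoin.finiteDimensional hg.isIntegral
      have : FiniteDimensional ℚ (IntermediateField.adjoin ℚ {ξ}) :=
        IntermediateField.adjoin.finiteDimensional hξi
      let K : IntermediateField ℚ ℂ :=
        IntermediateField.adjoin ℚ {g} ⊔ IntermediateField.adjoin ℚ {ξ}
      have hgK : g ∈ K := (le_sup_left : IntermediateField.adjoin ℚ {g} ≤ K)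
        (IntermediateField.mem_adjoin_simple_self ℚ g)
      have hξK : ξ ∈ K := (le_sup_right : IntermediateField.adjoin ℚ {ξ} ≤ K)
        (IntermediateField.mem_adjoin_simple_self ℚ ξ)
      have hKr : (Module.finrank ℚ K : ℝ) ≤ M := by
        have e1 : Module.finrank ℚ K ≤ d * 2 :=
          (IntermediateField.finrank_sup_le _ _).trans (Nat.mul_le_mul_left _ hξr)
        have e2 : (Module.finrank ℚ K : ℝ) ≤ d * 2 := by exact_mod_cast e1
        linarith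
      have hgM : Bd K M g := (hB K hgK).mono (hCB.trans hML)
      have hHM : 2 * (6 * H * E ^ 2) ≤ Real.exp M := by
        have e0 : 0 < 12 * E ^ 2 := by positivity
        have e3 : 0 ≤ Real.log (12 * E ^ 2) := by
          apply Real.log_nonneg
          nlinarith
        have e4 : 2 * (6 * H * E ^ 2) = Real.exp (Real.log (12 * E ^ 2) + L) := by
          rw [Real.exp_add, Real.exp_log e0, hL, Real.exp_log (by linarith)]
          ring
        rw [e4]
        apply Real.exp_le_exp.mpr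
        have e5 : Real.log (12 * E ^ 2) + L ≤ (Real.log (12 * E ^ 2) + 1) * L := by nlinarith
        have e6 : (Real.log (12 * E ^ 2) + 1) * L ≤ C₁ * L := by gcongr
        linarith
      have hξM : Bd K M ξ := Quad_bd_root ha₂ (by rw [ea]; exact ha') (by rw [eb]; exact hb')
        (by rw [ec]; exact hc') hHM hξ hξK
      have h2 := hC₂ K M w τ₀ ξ (hC2.trans hML) hKr hw hred (hcm τ₀ hj) (by rw [hG2]; exact hgM)
        (by rw [hG3]; exact hgM) hξM (fun q hq => by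
          rw [hq] at hξim
          simp at hξim)
      have h3 := Real.exp_pos (-(M ^ C₂))
      linarith
  have hnorm : ‖(a' : ℂ) * (τ₀ : ℂ) ^ 2 + b' * (τ₀ : ℂ) + c'‖ =
      κ * ‖(a : ℂ) * (τ : ℂ) ^ 2 + b * (τ : ℂ) + c‖ := by
    rw [hf, norm_mul, norm_pow]
  rw [hnorm] at hlow
  have hfin : Real.exp (-(M ^ C₂)) / (4 * κ) ≤ ‖(a : ℂ) * (τ : ℂ) ^ 2 + b * (τ : ℂ) + c‖ := by
    rw [div_le_iff₀ (by positivity)]
    linarith
  refine le_trans ?_ hfin
  have e1 : Real.exp (-(M ^ C₂)) / (4 * κ) = Real.exp (-(M ^ C₂) - Real.log (4 * κ)) := by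
    rw [Real.exp_sub, Real.exp_log (by positivity)]
  rw [e1]
  apply Real.exp_le_exp.mpr
  have e2 : L ^ C₂ ≤ L ^ (max C₂ ⌈Q⌉₊) := pow_le_pow_right₀ hL1 (le_max_left _ _)
  have e3 : Q ≤ ((max C₂ ⌈Q⌉₊ : ℕ) : ℝ) :=
    (Nat.le_ceil Q).trans (by exact_mod_cast le_max_right _ _)
  have e4 : 1 ≤ L ^ C₂ := one_le_pow₀ hL1
  have e5 : M ^ C₂ + |Real.log (4 * κ)| ≤ Q * L ^ C₂ := by
    rw [hM, mul_pow, hQ, add_mul]
    have : |Real.log (4 * κ)| * 1 ≤ |Real.log (4 * κ)| * L ^ C₂ :=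
      mul_le_mul_of_nonneg_left e4 (abs_nonneg _)
    linarith
  have e6 : Q * L ^ C₂ ≤ ((max C₂ ⌈Q⌉₊ : ℕ) : ℝ) * L ^ (max C₂ ⌈Q⌉₊) := by
    have hQ0 : 0 ≤ Q := by positivity
    exact mul_le_mul e3 e2 (by positivity) (hQ0.trans e3)
  have e7 := le_abs_self (Real.log (4 * κ))
  linarith

end Pool.Agent.LGO
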