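import Mathlib
import Pool.Agent.LGO.H.JSize

/-!
# LGO/Q: two large `j`-invariants with `j^k / j'^l` near `1`

`q = Periodic.qParam 1 τ = exp(2 π i τ)`; `exists_J` (`Hhelper14/ZP/JFun.lean`): `j(τ) q = J(q)` with `J` analytic
near `0` (`Good`), `J 0 = 1`, so `|J(z) - 1| ≤ C |z|` and `1/2 ≤ |J(z)| ≤ 2` for `|z| ≤ δ₀`.  `norm_j_le`: `|j(τ)| ≤ C |q|⁻¹`,
so `|q| ≤ C / |j(τ)|` is small; the same for `q'`, `τ'`.  Let `j = jInv τ`, `j' = jInv τ'`.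
`q'^l / q^k = (j^k / j'^l) · J(q')^l / J(q)^k` (multiply out: `j^k q^k = J(q)^k`, `j'^l q'^l = J(q')^l`), and the
three factors are `1 + O(ε)`, `1 + O(|q'|)`, `1 + O(|q|)`, so
`exp(2 π i (l τ' - k τ)) = 1 + η`, `|η| ≤ C (ε + 1/|j| + 1/|j'|) ≤ 1/2`.  With the principal logarithm
`|log (1 + η)| ≤ 2 |η|` and `exp(2 π i (l τ' - k τ) - log (1 + η)) = 1` gives the integer `r`
(`Complex.exp_eq_one_iff`).  `|Re (l τ' - k τ)| ≤ (k + l) / 2` gives `|r| ≤ k + l + 1`.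
-/

namespace Pool.Agent.LGO

open UpperHalfPlane Pool.Agent.Hhelper14.ZP

/-- `J` is `1 + O(z)` -/
theorem CuspLog_J {J : ℂ → ℂ} (hJ : Good OO J) (hJ0 : J 0 = 1) : ∃ C : ℝ, 0 < C ∧
    ∀ z : ℂ, ‖z‖ ≤ 1 / 2 → ‖J z - 1‖ ≤ C * ‖z‖ := by
  obtain ⟨D, hD, hDz⟩ := (hJ.sub (Good.const (one_mem OO))).div_id (by simp [hJ0])
  obtain ⟨C, hC, hb⟩ := JSize_bdd hD (by norm_num : (0 : ℝ) ≤ 1 / 2) (by norm_num)
  refine ⟨C, hC, fun z hz => ?_⟩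
  have h1 := hDz z (by linarith)
  rw [h1, norm_mul, mul_comm]
  exact mul_le_mul_of_nonneg_right (hb z hz) (norm_nonneg _)

/-- the logarithm of `a b ^ l / c ^ k` for `a`, `b`, `c` near `1` -/
theorem CuspLog_log (k l : ℕ) : ∃ (K ρ : ℝ), 0 < K ∧ 0 < ρ ∧ ∀ a b c : ℂ, ∀ t : ℝ,
    ‖a - 1‖ ≤ t → ‖b - 1‖ ≤ t → ‖c - 1‖ ≤ t → t < ρ →
    ‖Complex.log (a * b ^ l / c ^ k)‖ ≤ K * t := by
  have hd : DifferentiableAt ℂ
      (fun p : ℂ × ℂ × ℂ => Complex.log (p.1 * p.2.1 ^ l / p.2.2 ^ k)) (1, 1, 1) := by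
    have h1 : DifferentiableAt ℂ (fun p : ℂ × ℂ × ℂ => p.1 * p.2.1 ^ l / p.2.2 ^ k) (1, 1, 1) := by
      have h2 : DifferentiableAt ℂ (fun p : ℂ × ℂ × ℂ => p.1 * p.2.1 ^ l) (1, 1, 1) := by
        fun_prop
      have h3 : DifferentiableAt ℂ (fun p : ℂ × ℂ × ℂ => p.2.2 ^ k) (1, 1, 1) := by
        fun_prop
      simp only [div_eq_mul_inv]
      exact h2.mul (h3.inv (by simp))
    exact h1.clog (by simp)
  obtain ⟨K, hK, hb⟩ := hd.isBigO_sub.exists_pos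
  rw [Asymptotics.isBigOWith_iff, Metric.eventually_nhds_iff] at hb
  obtain ⟨ρ, hρ, hb⟩ := hb
  refine ⟨K, ρ, hK, hρ, fun a b c t ha hb' hc ht => ?_⟩
  have h1 : ‖((a, b, c) : ℂ × ℂ × ℂ) - (1, 1, 1)‖ ≤ t := by
    rw [Prod.mk_sub_mk, Prod.mk_sub_mk, Prod.norm_mk, Prod.norm_mk]
    exact max_le ha (max_le hb' hc)
  have h2 := hb (y := (a, b, c)) (by rw [dist_eq_norm]; exact h1.trans_lt ht)
  simp only [one_pow, mul_one, div_one, Complex.log_one, sub_zero] at h2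
  exact h2.trans (mul_le_mul_of_nonneg_left h1 hK.le)

theorem cusp_log {k l : ℕ} (hk : 0 < k) (hl : 0 < l) : ∃ (C δ : ℝ), 1 ≤ C ∧ 0 < δ ∧
    ∀ (τ τ' : ℍ) (ε : ℝ), Red (τ : ℂ) → Red (τ' : ℂ) → 0 ≤ ε → ε ≤ δ → 1 ≤ δ * ‖jInv τ‖ →
      1 ≤ δ * ‖jInv τ'‖ → ‖jInv τ ^ k - jInv τ' ^ l‖ ≤ ε * ‖jInv τ' ^ l‖ →
      ∃ r : ℤ, |(r : ℝ)| ≤ k + l + 1 ∧
        ‖(l : ℂ) * (τ' : ℂ) - k * (τ : ℂ) - r‖ ≤ C * (ε + ‖jInv τ‖⁻¹ + ‖jInv τ'‖⁻¹) := by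
  obtain ⟨J, hJ, hJ0, hj⟩ := exists_J
  obtain ⟨C₁, hC₁, hJ1⟩ := CuspLog_J hJ hJ0
  obtain ⟨C₂, hC₂, hq⟩ := norm_j_le
  obtain ⟨K, ρ, hK, hρ, hlog⟩ := CuspLog_log k l
  have hq' : ∀ τ : ℍ, Red (τ : ℂ) → 0 < ‖jInv τ‖ →
      ‖Function.Periodic.qParam 1 (τ : ℂ)‖ ≤ C₂ * ‖jInv τ‖⁻¹ := by
    intro τ hτ hpos
    have h1 := hq τ hτ
    have h2 : Real.exp (-(2 * Real.pi * τ.im)) * Real.exp (2 * Real.pi * τ.im) = 1 := by
      rw [← Real.exp_add, neg_add_cancel, Real.exp_zero]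
    rw [JSize_norm_q, ← div_eq_mul_inv, le_div_iff₀ hpos]
    calc Real.exp (-(2 * Real.pi * τ.im)) * ‖jInv τ‖
        ≤ Real.exp (-(2 * Real.pi * τ.im)) * (C₂ * Real.exp (2 * Real.pi * τ.im)) :=
          mul_le_mul_of_nonneg_left h1 (Real.exp_pos _).le
      _ = C₂ * (Real.exp (-(2 * Real.pi * τ.im)) * Real.exp (2 * Real.pi * τ.im)) := by ring
      _ = C₂ := by rw [h2, mul_one]
  set A : ℝ := 1 + C₁ * C₂ with hA
  have hA0 : 0 < A := by positivity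
  set δ : ℝ := min (1 / (2 * C₂)) (min (ρ / (6 * A)) (1 / (3 * (K * A)))) with hδ
  have hδ0 : 0 < δ := by
    rw [hδ]
    refine lt_min (by positivity) (lt_min (by positivity) (by positivity))
  have hδ1 : C₂ * δ ≤ 1 / 2 := by
    have h1 : δ ≤ 1 / (2 * C₂) := min_le_left _ _
    calc C₂ * δ ≤ C₂ * (1 / (2 * C₂)) := mul_le_mul_of_nonneg_left h1 hC₂.le
      _ = 1 / 2 := by field_simp
  have hδ2 : A * (3 * δ) < ρ := by
    have h1 : δ ≤ ρ / (6 * A) := (min_le_right _ _).trans (min_le_left _ _)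
    calc A * (3 * δ) ≤ A * (3 * (ρ / (6 * A))) := by gcongr
      _ = ρ / 2 := by field_simp; norm_num
      _ < ρ := by linarith
  have hδ3 : K * (A * (3 * δ)) ≤ 1 := by
    have h1 : δ ≤ 1 / (3 * (K * A)) := (min_le_right _ _).trans (min_le_right _ _)
    calc K * (A * (3 * δ)) ≤ K * (A * (3 * (1 / (3 * (K * A))))) := by gcongr
      _ = 1 := by field_simp
  refine ⟨K * A + 1, δ, by nlinarith [mul_pos hK hA0], hδ0, ?_⟩
  intro τ τ' ε hτ hτ' hε0 hε hj1 hj2 hjj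
  have hn1 : 0 < ‖jInv τ‖ := by
    by_contra h
    have h1 : ‖jInv τ‖ = 0 := le_antisymm (not_lt.1 h) (norm_nonneg _)
    rw [h1, mul_zero] at hj1
    linarith
  have hn2 : 0 < ‖jInv τ'‖ := by
    by_contra h
    have h1 : ‖jInv τ'‖ = 0 := le_antisymm (not_lt.1 h) (norm_nonneg _)
    rw [h1, mul_zero] at hj2
    linarith
  have hi1 : ‖jInv τ‖⁻¹ ≤ δ := by
    rw [inv_le_comm₀ hn1 hδ0, inv_eq_one_div, div_le_iff₀ hδ0]
    linarith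
  have hi2 : ‖jInv τ'‖⁻¹ ≤ δ := by
    rw [inv_le_comm₀ hn2 hδ0, inv_eq_one_div, div_le_iff₀ hδ0]
    linarith
  have hi1' : 0 < ‖jInv τ‖⁻¹ := inv_pos.2 hn1
  have hi2' : 0 < ‖jInv τ'‖⁻¹ := inv_pos.2 hn2
  set s : ℝ := ε + ‖jInv τ‖⁻¹ + ‖jInv τ'‖⁻¹ with hs
  have hs0 : 0 < s := by linarith
  have hs3 : s ≤ 3 * δ := by linarith
  set q : ℂ := Function.Periodic.qParam 1 (τ : ℂ) with hqd
  set q' : ℂ := Function.Periodic.qParam 1 (τ' : ℂ) with hqd'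
  have hqn : ‖q‖ ≤ C₂ * ‖jInv τ‖⁻¹ := hq' τ hτ hn1
  have hqn' : ‖q'‖ ≤ C₂ * ‖jInv τ'‖⁻¹ := hq' τ' hτ' hn2
  have hjq : jInv τ * q = J q := hj τ
  have hjq' : jInv τ' * q' = J q' := hj τ'
  have hq0 : q ≠ 0 := Function.Periodic.qParam_ne_zero _
  have hq0' : q' ≠ 0 := Function.Periodic.qParam_ne_zero _
  have hc : ‖J q - 1‖ ≤ A * s := by
    have h1 : ‖q‖ ≤ 1 / 2 := (hqn.trans (mul_le_mul_of_nonneg_left hi1 hC₂.le)).trans hδ1
    refine (hJ1 q h1).trans ?_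
    calc C₁ * ‖q‖ ≤ C₁ * (C₂ * ‖jInv τ‖⁻¹) := mul_le_mul_of_nonneg_left hqn hC₁.le
      _ = (C₁ * C₂) * ‖jInv τ‖⁻¹ := by ring
      _ ≤ A * s := by
        apply mul_le_mul _ _ hi1'.le hA0.le
        · linarith
        · linarith
  have hb : ‖J q' - 1‖ ≤ A * s := by
    have h1 : ‖q'‖ ≤ 1 / 2 := (hqn'.trans (mul_le_mul_of_nonneg_left hi2 hC₂.le)).trans hδ1
    refine (hJ1 q' h1).trans ?_
    calc C₁ * ‖q'‖ ≤ C₁ * (C₂ * ‖jInv τ'‖⁻¹) := mul_le_mul_of_nonneg_left hqn' hC₁.le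
      _ = (C₁ * C₂) * ‖jInv τ'‖⁻¹ := by ring
      _ ≤ A * s := by
        apply mul_le_mul _ _ hi2'.le hA0.le
        · linarith
        · linarith
  have hjn : jInv τ ≠ 0 := norm_pos_iff.1 hn1
  have hjn' : jInv τ' ≠ 0 := norm_pos_iff.1 hn2
  have ha : ‖jInv τ ^ k / jInv τ' ^ l - 1‖ ≤ A * s := by
    have h1 : jInv τ' ^ l ≠ 0 := pow_ne_zero _ hjn'
    have h2 : jInv τ ^ k / jInv τ' ^ l - 1 = (jInv τ ^ k - jInv τ' ^ l) / jInv τ' ^ l := by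
      field_simp
    rw [h2, norm_div]
    have h3 : ‖jInv τ ^ k - jInv τ' ^ l‖ / ‖jInv τ' ^ l‖ ≤ ε :=
      (div_le_iff₀ (norm_pos_iff.2 h1)).2 hjj
    refine h3.trans ?_
    have h4 : ε ≤ s := by linarith
    have h5 : 1 ≤ A := by rw [hA]; nlinarith [mul_pos hC₁ hC₂]
    nlinarith
  have hw := hlog _ _ _ (A * s) ha hb hc
    ((mul_le_mul_of_nonneg_left hs3 hA0.le).trans_lt hδ2)
  have hprod : jInv τ ^ k / jInv τ' ^ l * J q' ^ l / J q ^ k = q' ^ l / q ^ k := by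
    rw [← hjq, ← hjq']
    have h1 : jInv τ' ^ l ≠ 0 := pow_ne_zero _ hjn'
    have h2 : jInv τ ^ k ≠ 0 := pow_ne_zero _ hjn
    have h3 : q ^ k ≠ 0 := pow_ne_zero _ hq0
    rw [mul_pow, mul_pow]
    field_simp
  rw [hprod] at hw
  set w : ℂ := Complex.log (q' ^ l / q ^ k) with hwd
  have hexp : Complex.exp (2 * Real.pi * Complex.I * ((l : ℂ) * (τ' : ℂ) - k * (τ : ℂ))) =
      Complex.exp w := by
    rw [hwd, Complex.exp_log (div_ne_zero (pow_ne_zero _ hq0') (pow_ne_zero _ hq0)), hqd, hqd',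
      Function.Periodic.qParam, Function.Periodic.qParam, ← Complex.exp_nat_mul,
      ← Complex.exp_nat_mul, ← Complex.exp_sub]
    congr 1
    simp only [Complex.ofReal_one, div_one]
    ring
  obtain ⟨r, hr⟩ := Complex.exp_eq_exp_iff_exists_int.1 hexp
  have hpi : (2 * Real.pi * Complex.I : ℂ) ≠ 0 := by
    simp [Real.pi_ne_zero]
  have hr2 : (l : ℂ) * (τ' : ℂ) - k * (τ : ℂ) - r = w / (2 * Real.pi * Complex.I) := by
    rw [eq_div_iff hpi]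
    linear_combination hr
  have hwn : ‖w / (2 * Real.pi * Complex.I)‖ ≤ ‖w‖ := by
    rw [norm_div]
    have h1 : 1 ≤ ‖(2 * Real.pi * Complex.I : ℂ)‖ := by
      rw [norm_mul, norm_mul, Complex.norm_I, mul_one, Complex.norm_ofNat, Complex.norm_real,
        Real.norm_of_nonneg Real.pi_pos.le]
      linarith [Real.pi_gt_three]
    exact div_le_self (norm_nonneg _) h1
  refine ⟨r, ?_, ?_⟩
  · have h1 : |((l : ℂ) * (τ' : ℂ) - k * (τ : ℂ) - r).re| ≤ 1 := by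
      refine (Complex.abs_re_le_norm _).trans ?_
      rw [hr2]
      refine hwn.trans (hw.trans ?_)
      refine le_trans ?_ hδ3
      gcongr
    simp only [Complex.sub_re, Complex.mul_re, Complex.natCast_re, Complex.natCast_im, zero_mul,
      sub_zero, Complex.intCast_re] at h1
    have h2 := abs_le.1 hτ.re_le
    have h3 := abs_le.1 hτ'.re_le
    have h4 := abs_le.1 h1
    have hk' : (0 : ℝ) ≤ k := Nat.cast_nonneg k
    have hl' : (0 : ℝ) ≤ l := Nat.cast_nonneg l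
    rw [abs_le]
    constructor
    · nlinarith [mul_le_mul_of_nonneg_left h2.1 hk', mul_le_mul_of_nonneg_left h2.2 hk',
        mul_le_mul_of_nonneg_left h3.1 hl', mul_le_mul_of_nonneg_left h3.2 hl']
    · nlinarith [mul_le_mul_of_nonneg_left h2.1 hk', mul_le_mul_of_nonneg_left h2.2 hk',
        mul_le_mul_of_nonneg_left h3.1 hl', mul_le_mul_of_nonneg_left h3.2 hl']
  · rw [hr2]
    refine hwn.trans (hw.trans ?_)
    nlinarith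

end Pool.Agent.LGO
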