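import Mathlib
import Pool.Agent.LGO.Q.Defs
import Pool.Agent.LGO.Q.Loc
import Pool.Agent.LGO.Q.Ent
import Pool.Agent.LGO.Q.CuspLog
import Pool.Agent.LGO.Gal.Basic
import Pool.Agent.LGO.Mul.Unif

/-!
# LGO/Q: closeness to a resonant point `(∞, ∞, γ)`

Put `μ = 1 / m`, `ε = (C₀ / T) ^ μ` (`Real.rpow`; or `ε` = `m`-th root): the hypotheses say `‖X‖, ‖Y‖ ≥ ε⁻¹`,
`‖Z - γ‖ ≤ ε`, `‖X ^ k - Y ^ l‖ ≤ ε ‖Y ^ l‖` (for `C₀ > 0`; if `C₀ ≤ 0` they are contradictory because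
`T ≥ 1`).  If `T < C₁` (a constant) the first alternative holds for `C ≥ log C₁` (`log N ≥ 1`).  Let `T ≥ C₁`,
so that `ε` is small.  `ε` is the only small quantity; at the end `1 ≤ C N^e exp(C (log N)^C) ε ^ (1/m')` gives
the bound `T = C₀ ε ^ (-m) ≤ exp (C' (log N) ^ C')`.

1. `X = j(τ_X)`, `Y = j(τ_Y)` with `Red` (`exists_red` in `Mul/Unif.lean`).  `cusp_log` gives `r ∈ ℤ`,
   `|r| ≤ k + l + 1`, with `l τ_Y - k τ_X = r + δ`, `|δ| ≤ C ε`.  `norm_j_le`, `exp_im_le`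
   (`H/JSize.lean`): `Im τ_X, Im τ_Y ≥ 2`; and `l Im τ_Y = k Im τ_X + O(1)`, so `Im τ_Y` and `Im τ_X` are
   comparable.
2. `g` with `det g = N₁`, `Maps g τ_X τ_Y` (`Gal.isogDeg_iff_maps`): multiply `τ_Y (c τ_X + d) = a τ_X + b` by
   `l`: `f(τ_X) := k c τ_X² + (k d + r c - l a) τ_X + (r d - l b) = - δ (c τ_X + d)`, and
   `|c τ_X + d|² = N₁ Im τ_X / Im τ_Y ≤ C N` (`norm_sq_denom`).
3. If `c = 0`: `|d| ≤ C N`, `(k d - l a) τ_X + (r d - l b) = - δ d`.  If `k d ≠ l a` then the imaginary part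
   gives `1 ≤ |δ| C N`; if `k d = l a`, `r d ≠ l b` then also `1 ≤ |δ| C N`.  Otherwise
   `τ_Y = (a τ_X + b) / d = (k τ_X + r) / l` (`d ≠ 0`): `IsogDeg (k l) X Y` with the matrix `(k, r; 0, l)`.
4. If `c ≠ 0`: `Im τ_X ≤ |c τ_X + d| ≤ C √N`, the same for `τ_Y` (comparable), so all entries of `g` and of
   `f` are `≤ C N^5` (`entries_le` with `R = C N`).  `f ≠ 0` (leading coefficient `k c`).  `Z = j(τ_Z)`,
   `|τ_Z - τ_γ| ^ m' ≤ C ε` (`j_local`), `h` with `det h = N₂`, `Maps h τ_X τ_Z`, entries `≤ C N^5`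
   (`entries_le`; `τ_Z` is in a fixed compact set).
   `form_map` for `h` and `f`: `F ≠ 0` with coefficients `≤ C N^16`,
   `|F(τ_Z)| ≤ C N^12 |f(τ_X)| ≤ C N^13 ε`, `|F(τ_γ) - F(τ_Z)| ≤ C N^16 |τ_Z - τ_γ|` (`form_sub`), and
   `QM γ` for `F(τ_γ)` gives `exp(-C (log N)^C) ≤ C N^16 ε ^ (1/m')`.
-/

namespace Pool.Agent.LGO

open UpperHalfPlane Pool.Agent.Hhelper14.ZP

private theorem Cusp1_log {N : ℕ} (hN : 3 ≤ N) : 1 ≤ Real.log N := by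
  have h1 : Real.exp 1 < 3 := by
    have := Real.exp_one_lt_d9
    linarith
  have h2 : (3 : ℝ) ≤ N := by exact_mod_cast hN
  rw [Real.le_log_iff_exp_le (by linarith)]
  linarith

private theorem Cusp1_mono {C C' N : ℕ} (h : C ≤ C') (hN : 3 ≤ N) :
    Real.exp (C * Real.log N ^ C) ≤ Real.exp (C' * Real.log N ^ C') := by
  have hL := Cusp1_log hN
  apply Real.exp_le_exp.2
  have h1 : Real.log N ^ C ≤ Real.log N ^ C' := pow_le_pow_right₀ hL h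
  have h2 : (C : ℝ) ≤ C' := by exact_mod_cast h
  have h3 : 0 ≤ Real.log N ^ C := by positivity
  exact mul_le_mul h2 h1 h3 (Nat.cast_nonneg _)

/-- absorbing constants and powers of `N` -/
private theorem Cusp1_absorb (K B : ℝ) (E p : ℕ) : ∃ C : ℕ, ∀ N : ℕ, 3 ≤ N →
    K * (N : ℝ) ^ E * Real.exp (B * Real.log N ^ p) ≤ Real.exp (C * Real.log N ^ C) := by
  obtain ⟨C, hC⟩ := exists_nat_ge (Real.log (max K 1) + E + |B| + p + 1)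
  refine ⟨C, fun N hN => ?_⟩
  have hL := Cusp1_log hN
  set L := Real.log N with hLdef
  have hN0 : (0 : ℝ) < N := by exact_mod_cast (by omega : 0 < N)
  have hK1 : (1 : ℝ) ≤ max K 1 := le_max_right _ _
  have hlK : 0 ≤ Real.log (max K 1) := Real.log_nonneg hK1
  have hB0 := abs_nonneg B
  have hE0 : (0 : ℝ) ≤ E := Nat.cast_nonneg _
  have hp0 : (0 : ℝ) ≤ p := Nat.cast_nonneg _
  have hCp : p ≤ C := by
    have : (p : ℝ) ≤ C := by linarith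
    exact_mod_cast this
  have hC1 : 1 ≤ C := by
    have : ((1 : ℕ) : ℝ) ≤ C := by push_cast; linarith
    exact_mod_cast this
  have e1 : (1 : ℝ) ≤ L ^ C := one_le_pow₀ hL
  have e2 : L ≤ L ^ C := by
    calc L = L ^ 1 := (pow_one L).symm
      _ ≤ L ^ C := pow_le_pow_right₀ hL hC1
  have e3 : L ^ p ≤ L ^ C := pow_le_pow_right₀ hL hCp
  have e4 : (N : ℝ) ^ E = Real.exp (E * L) := by
    rw [Real.exp_nat_mul, hLdef, Real.exp_log hN0]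
  have e5 : K ≤ Real.exp (Real.log (max K 1)) := by
    rw [Real.exp_log (by linarith)]
    exact le_max_left _ _
  calc K * (N : ℝ) ^ E * Real.exp (B * L ^ p)
      ≤ Real.exp (Real.log (max K 1)) * Real.exp (E * L) * Real.exp (B * L ^ p) := by
        rw [e4]
        exact mul_le_mul_of_nonneg_right (mul_le_mul_of_nonneg_right e5 (Real.exp_pos _).le)
          (Real.exp_pos _).le
    _ = Real.exp (Real.log (max K 1) + E * L + B * L ^ p) := by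
        rw [Real.exp_add, Real.exp_add]
    _ ≤ Real.exp (C * L ^ C) := by
        apply Real.exp_le_exp.2
        have hLC : 0 ≤ L ^ C := by positivity
        have hLp : 0 ≤ L ^ p := by positivity
        have f1 : Real.log (max K 1) ≤ Real.log (max K 1) * L ^ C :=
          le_mul_of_one_le_right hlK e1
        have f2 : (E : ℝ) * L ≤ E * L ^ C := mul_le_mul_of_nonneg_left e2 hE0
        have f3 : B * L ^ p ≤ |B| * L ^ C :=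
          (mul_le_mul_of_nonneg_right (le_abs_self B) hLp).trans
            (mul_le_mul_of_nonneg_left e3 hB0)
        have f4 : (Real.log (max K 1) + E + |B| + p + 1) * L ^ C ≤ C * L ^ C :=
          mul_le_mul_of_nonneg_right hC hLC
        have f5 : 0 ≤ ((p : ℝ) + 1) * L ^ C := by positivity
        nlinarith

/-- the use of the quadratic measure -/
private theorem Cusp1_meas {τγ : ℍ} {C₅ : ℕ} (hq : ∀ (a b c : ℤ) (H : ℝ), 3 ≤ H →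
    |(a : ℝ)| ≤ H → |(b : ℝ)| ≤ H → |(c : ℝ)| ≤ H → ¬ (a = 0 ∧ b = 0 ∧ c = 0) →
    Real.exp (-(C₅ * Real.log H ^ C₅)) ≤ ‖(a : ℂ) * (τγ : ℂ) ^ 2 + b * (τγ : ℂ) + c‖)
    {K₁ K₂ : ℝ} (h1 : 3 ≤ K₁) (h2 : 0 ≤ K₂) (E₁ E₂ m' : ℕ) : ∃ C : ℕ,
    ∀ (N : ℕ) (ε θ : ℝ) (a b c : ℤ), 3 ≤ N →
    0 < ε → θ ^ m' ≤ ε → |(a : ℝ)| ≤ K₁ * (N : ℝ) ^ E₁ →
    |(b : ℝ)| ≤ K₁ * (N : ℝ) ^ E₁ → |(c : ℝ)| ≤ K₁ * (N : ℝ) ^ E₁ →
    ¬ (a = 0 ∧ b = 0 ∧ c = 0) →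
    ‖(a : ℂ) * (τγ : ℂ) ^ 2 + b * (τγ : ℂ) + c‖ ≤ K₂ * (N : ℝ) ^ E₂ * θ →
    ε⁻¹ ≤ Real.exp (C * Real.log N ^ C) := by
  obtain ⟨C, hC⟩ := Cusp1_absorb (K₂ ^ m') (m' * (C₅ * (Real.log K₁ + E₁) ^ C₅)) (E₂ * m') C₅
  refine ⟨C, fun N ε θ a b c hN hε hθε ha hb hc hne hval => ?_⟩
  have hL := Cusp1_log hN
  set L := Real.log N with hLdef
  have hN1 : (1 : ℝ) ≤ N := by exact_mod_cast (by omega : 1 ≤ N)
  have hNE : (1 : ℝ) ≤ (N : ℝ) ^ E₁ := one_le_pow₀ hN1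
  have hH : 3 ≤ K₁ * (N : ℝ) ^ E₁ := by nlinarith
  have g1 := hq a b c _ hH ha hb hc hne
  have hE0 : (0 : ℝ) ≤ E₁ := Nat.cast_nonneg _
  have hlK : 0 ≤ Real.log K₁ := Real.log_nonneg (by linarith)
  have hlog : Real.log (K₁ * (N : ℝ) ^ E₁) = Real.log K₁ + E₁ * L := by
    rw [Real.log_mul (by linarith) (by positivity), Real.log_pow]
  have hlog2 : Real.log (K₁ * (N : ℝ) ^ E₁) ≤ (Real.log K₁ + E₁) * L := by
    rw [hlog]
    nlinarith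
  have hlog0 : 0 ≤ Real.log (K₁ * (N : ℝ) ^ E₁) := Real.log_nonneg (by linarith)
  have hp : Real.log (K₁ * (N : ℝ) ^ E₁) ^ C₅ ≤ (Real.log K₁ + E₁) ^ C₅ * L ^ C₅ := by
    rw [← mul_pow]
    exact pow_le_pow_left₀ hlog0 hlog2 _
  have hC0 : (0 : ℝ) ≤ C₅ := Nat.cast_nonneg _
  have g2 : Real.exp (-(C₅ * ((Real.log K₁ + E₁) ^ C₅ * L ^ C₅))) ≤
      K₂ * (N : ℝ) ^ E₂ * θ := by
    refine le_trans (Real.exp_le_exp.2 ?_) (g1.trans hval)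
    have := mul_le_mul_of_nonneg_left hp hC0
    linarith
  have g3 := pow_le_pow_left₀ (Real.exp_pos _).le g2 m'
  rw [← Real.exp_nat_mul] at g3
  have g4 : (K₂ * (N : ℝ) ^ E₂ * θ) ^ m' = K₂ ^ m' * (N : ℝ) ^ (E₂ * m') * θ ^ m' := by
    rw [mul_pow, mul_pow, pow_mul]
  rw [g4] at g3
  have hX0 : 0 ≤ K₂ ^ m' * (N : ℝ) ^ (E₂ * m') := by positivity
  have g5 : Real.exp (m' * -(C₅ * ((Real.log K₁ + E₁) ^ C₅ * L ^ C₅))) ≤
      K₂ ^ m' * (N : ℝ) ^ (E₂ * m') * ε := g3.trans (mul_le_mul_of_nonneg_left hθε hX0)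
  set W : ℝ := m' * (C₅ * (Real.log K₁ + E₁) ^ C₅) * L ^ C₅ with hW
  have g6 : (m' : ℝ) * -(C₅ * ((Real.log K₁ + E₁) ^ C₅ * L ^ C₅)) = -W := by
    rw [hW]
    ring
  rw [g6] at g5
  have g7 : 1 ≤ K₂ ^ m' * (N : ℝ) ^ (E₂ * m') * Real.exp W * ε := by
    have e1 : Real.exp (-W) * Real.exp W = 1 := by
      rw [← Real.exp_add, neg_add_cancel, Real.exp_zero]
    calc (1 : ℝ) = Real.exp (-W) * Real.exp W := e1.symm
      _ ≤ K₂ ^ m' * (N : ℝ) ^ (E₂ * m') * ε * Real.exp W :=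
          mul_le_mul_of_nonneg_right g5 (Real.exp_pos _).le
      _ = _ := by ring
  refine le_trans ?_ (hC N hN)
  rw [inv_le_iff_one_le_mul₀ hε]
  linarith

/-- the case of a triangular matrix -/
private theorem Cusp1_zero {k l : ℕ} {g : Matrix (Fin 2) (Fin 2) ℤ} (hg : g.det ≠ 0) {τ τ' : ℍ}
    (hm : Maps g τ τ') (hc : g 1 0 = 0) {r : ℤ} {K : ℝ} (hy : 1 ≤ τ.im)
    (hK : ‖(l : ℂ) * τ' - k * τ - r‖ * ‖(g 1 0 : ℂ) * τ + (g 1 1 : ℂ)‖ ≤ K) :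
    1 ≤ K ∨ IsogDeg (k * l) (jInv τ) (jInv τ') := by
  have hid : (((k : ℤ) * g 1 1 - l * g 0 0 : ℤ) : ℂ) * τ + ((r * g 1 1 - l * g 0 1 : ℤ) : ℂ) =
      -(((l : ℂ) * τ' - k * τ - r) * ((g 1 0 : ℂ) * τ + (g 1 1 : ℂ))) := by
    have h1 : (τ' : ℂ) * ((g 1 0 : ℂ) * τ + (g 1 1 : ℂ)) = (g 0 0 : ℂ) * τ + (g 0 1 : ℂ) := hm
    rw [hc] at h1 ⊢
    push_cast at h1 ⊢
    linear_combination (l : ℂ) * h1
  have hn : ‖(((k : ℤ) * g 1 1 - l * g 0 0 : ℤ) : ℂ) * τ +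
      ((r * g 1 1 - l * g 0 1 : ℤ) : ℂ)‖ ≤ K := by
    rw [hid, norm_neg, norm_mul]
    exact hK
  by_cases h1 : (k : ℤ) * g 1 1 - l * g 0 0 = 0
  · by_cases h2 : r * g 1 1 - l * g 0 1 = 0
    · right
      rw [h1, h2] at hid
      have hD := Gal.den_ne_zero hg τ
      have h3 : (l : ℂ) * τ' - k * τ - r = 0 := by
        have h4 : ((l : ℂ) * τ' - k * τ - r) * ((g 1 0 : ℂ) * τ + (g 1 1 : ℂ)) = 0 := by
          have h5 := hid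
          push_cast at h5
          linear_combination h5
        exact (mul_eq_zero.1 h4).resolve_right hD
      refine ⟨τ, τ', !![(k : ℤ), r; 0, (l : ℤ)], ?_, ?_, rfl, rfl⟩
      · rw [Matrix.det_fin_two_of]
        push_cast
        ring
      · rw [Maps]
        simp only [Matrix.of_apply, Matrix.cons_val', Matrix.cons_val_zero, Matrix.cons_val_one,
          Matrix.cons_val_fin_one]
        push_cast
        linear_combination h3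
    · left
      rw [h1, Int.cast_zero, zero_mul, zero_add] at hn
      refine le_trans ?_ hn
      rw [← Complex.ofReal_intCast, Complex.norm_real, Real.norm_eq_abs]
      exact_mod_cast Int.one_le_abs h2
  · left
    refine le_trans ?_ hn
    refine le_trans ?_ (Complex.abs_im_le_norm _)
    rw [Complex.add_im, Complex.mul_im, Complex.intCast_im, Complex.intCast_re, Complex.intCast_im,
      zero_mul, add_zero, add_zero, abs_mul, coe_im, abs_of_pos τ.im_pos]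
    have h3 : (1 : ℝ) ≤ |(((k : ℤ) * g 1 1 - l * g 0 0 : ℤ) : ℝ)| := by
      exact_mod_cast Int.one_le_abs h1
    nlinarith

/-- the quadratic polynomial -/
private theorem Cusp1_form {k l : ℕ} (hk : 0 < k) {g h : Matrix (Fin 2) (Fin 2) ℤ}
    {N N₁ N₂ : ℕ} (hN₁ : 0 < N₁) (hN₁' : N₁ ≤ N) (hN₂ : 0 < N₂) (hN₂' : N₂ ≤ N)
    (hg : g.det = N₁) (hh : h.det = N₂) {τ τ' σ τγ : ℂ} (hm : Maps g τ τ') (hm' : Maps h τ σ)
    (hc : g 1 0 ≠ 0) {r : ℤ} (hr : |(r : ℝ)| ≤ k + l + 1) {A θ P Q : ℝ} (hA : 1 ≤ A)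
    (h1 : ‖τ‖ ≤ A * N) (h2 : ‖τ'‖ ≤ A * N) (h3 : ‖σ‖ ≤ A * N) (h4 : ‖τγ‖ ≤ A * N)
    (i1 : (A * N)⁻¹ ≤ τ.im) (i2 : (A * N)⁻¹ ≤ τ'.im) (i3 : (A * N)⁻¹ ≤ σ.im)
    (hδ : ‖(l : ℂ) * τ' - k * τ - r‖ ≤ P * θ) (hD : ‖(g 1 0 : ℂ) * τ + (g 1 1 : ℂ)‖ ≤ A * N)
    (hσ : ‖τγ - σ‖ ≤ Q * θ) (hθ : 0 ≤ θ) (hP : 0 ≤ P) :
    ∃ a b c : ℤ, ¬ (a = 0 ∧ b = 0 ∧ c = 0) ∧
      |(a : ℝ)| ≤ 48 * (2 * k + 2 * l + 1) * A ^ 12 * (N : ℝ) ^ 15 ∧
      |(b : ℝ)| ≤ 48 * (2 * k + 2 * l + 1) * A ^ 12 * (N : ℝ) ^ 15 ∧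
      |(c : ℝ)| ≤ 48 * (2 * k + 2 * l + 1) * A ^ 12 * (N : ℝ) ^ 15 ∧
      ‖(a : ℂ) * τγ ^ 2 + b * τγ + c‖ ≤
        (16 * A ^ 11 * P + 3 * (48 * (2 * k + 2 * l + 1) * A ^ 12) * A * Q) *
          (N : ℝ) ^ 16 * θ := by
  have hN1 : (1 : ℝ) ≤ N := by exact_mod_cast (by omega : 1 ≤ N)
  have hR : 1 ≤ A * N := by nlinarith
  have hR0 : 0 < A * N := by linarith
  have hgd : 0 < g.det := by rw [hg]; exact_mod_cast hN₁
  have hhd : 0 < h.det := by rw [hh]; exact_mod_cast hN₂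
  set B : ℝ := 2 * (A * N) ^ 4 * N with hB
  have hB0 : 0 ≤ B := by positivity
  have hgB : ∀ i j, |(g i j : ℝ)| ≤ B := by
    intro i j
    refine (entries_le hm hgd hR h1 h2 i1 i2 i j).trans ?_
    rw [hg, hB]
    have : ((N₁ : ℤ) : ℝ) ≤ N := by exact_mod_cast hN₁'
    gcongr
  have hhB : ∀ i j, |(h i j : ℝ)| ≤ B := by
    intro i j
    refine (entries_le hm' hhd hR h1 h3 i1 i3 i j).trans ?_
    rw [hh, hB]
    have : ((N₂ : ℤ) : ℝ) ≤ N := by exact_mod_cast hN₂'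
    gcongr
  have hk0 : (0 : ℝ) ≤ k := Nat.cast_nonneg _
  have hl0 : (0 : ℝ) ≤ l := Nat.cast_nonneg _
  have ak : |((k : ℤ) : ℝ)| = k := by rw [Int.cast_natCast, abs_of_nonneg hk0]
  have al : |((l : ℤ) : ℝ)| = l := by rw [Int.cast_natCast, abs_of_nonneg hl0]
  have pk : ∀ i j, |((((k : ℤ) * g i j : ℤ)) : ℝ)| ≤ k * B := by
    intro i j
    rw [Int.cast_mul, abs_mul, ak]
    exact mul_le_mul_of_nonneg_left (hgB i j) hk0
  have pl : ∀ i j, |((((l : ℤ) * g i j : ℤ)) : ℝ)| ≤ l * B := by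
    intro i j
    rw [Int.cast_mul, abs_mul, al]
    exact mul_le_mul_of_nonneg_left (hgB i j) hl0
  have pr : ∀ i j, |(((r * g i j : ℤ)) : ℝ)| ≤ (k + l + 1) * B := by
    intro i j
    rw [Int.cast_mul, abs_mul]
    exact mul_le_mul hr (hgB i j) (abs_nonneg _) (by positivity)
  set H : ℝ := (2 * k + 2 * l + 1) * B with hH
  have hkB : 0 ≤ (k : ℝ) * B := by positivity
  have hlB : 0 ≤ (l : ℝ) * B := by positivity
  have ca : |(((k : ℤ) * g 1 0 : ℤ) : ℝ)| ≤ H := by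
    refine (pk 1 0).trans ?_
    rw [hH]
    nlinarith
  have cb : |(((k : ℤ) * g 1 1 + r * g 1 0 - l * g 0 0 : ℤ) : ℝ)| ≤ H := by
    have e1 := abs_le.1 (pk 1 1)
    have e2 := abs_le.1 (pr 1 0)
    have e3 := abs_le.1 (pl 0 0)
    rw [Int.cast_sub, Int.cast_add, hH, abs_le]
    constructor <;> linarith [e1.1, e1.2, e2.1, e2.2, e3.1, e3.2]
  have cc : |((r * g 1 1 - l * g 0 1 : ℤ) : ℝ)| ≤ H := by
    have e2 := abs_le.1 (pr 1 1)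
    have e3 := abs_le.1 (pl 0 1)
    rw [Int.cast_sub, hH, abs_le]
    constructor <;> linarith [e2.1, e2.2, e3.1, e3.2]
  have hne : ¬ ((k : ℤ) * g 1 0 = 0 ∧ (k : ℤ) * g 1 1 + r * g 1 0 - l * g 0 0 = 0 ∧
      r * g 1 1 - l * g 0 1 = 0) := by
    rintro ⟨e, -, -⟩
    have hk' : (k : ℤ) ≠ 0 := by exact_mod_cast hk.ne'
    exact hc ((mul_eq_zero.1 e).resolve_left hk')
  obtain ⟨a, b, c, n0, na, nb, nc, hF⟩ := form_map h hhd _ _ _ hne ca cb cc hhB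
  have hK : 6 * H * B ^ 2 = 48 * (2 * k + 2 * l + 1) * A ^ 12 * (N : ℝ) ^ 15 := by
    rw [hH, hB]
    ring
  rw [hK] at na nb nc
  refine ⟨a, b, c, n0, na, nb, nc, ?_⟩
  have hsub := form_sub a b c na nb hR h4 h3
  have hval := hF τ σ hm'
  have hf : (((k : ℤ) * g 1 0 : ℤ) : ℂ) * τ ^ 2 +
      (((k : ℤ) * g 1 1 + r * g 1 0 - l * g 0 0 : ℤ) : ℂ) * τ +
      ((r * g 1 1 - l * g 0 1 : ℤ) : ℂ) =
      -(((l : ℂ) * τ' - k * τ - r) * ((g 1 0 : ℂ) * τ + (g 1 1 : ℂ))) := by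
    have e1 : τ' * ((g 1 0 : ℂ) * τ + (g 1 1 : ℂ)) = (g 0 0 : ℂ) * τ + (g 0 1 : ℂ) := hm
    push_cast
    linear_combination (l : ℂ) * e1
  rw [hf] at hval
  have hnum : ‖(h 0 0 : ℂ) - (h 1 0 : ℂ) * σ‖ ≤ 2 * B * (A * N) := by
    have e6 : ‖(h 0 0 : ℂ)‖ = |(h 0 0 : ℝ)| := by
      rw [← Complex.ofReal_intCast, Complex.norm_real, Real.norm_eq_abs]
    have e7 : ‖(h 1 0 : ℂ)‖ = |(h 1 0 : ℝ)| := by
      rw [← Complex.ofReal_intCast, Complex.norm_real, Real.norm_eq_abs]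
    calc ‖(h 0 0 : ℂ) - (h 1 0 : ℂ) * σ‖ ≤ ‖(h 0 0 : ℂ)‖ + ‖(h 1 0 : ℂ) * σ‖ := norm_sub_le _ _
      _ = |(h 0 0 : ℝ)| + |(h 1 0 : ℝ)| * ‖σ‖ := by rw [norm_mul, e6, e7]
      _ ≤ B + B * (A * N) := by
          gcongr
          · exact hhB 0 0
          · exact hhB 1 0
      _ ≤ 2 * B * (A * N) := by nlinarith
  have hFσ : ‖(a : ℂ) * σ ^ 2 + b * σ + c‖ ≤ (2 * B * (A * N)) ^ 2 * (P * θ * (A * N)) := by
    rw [hval, norm_mul, norm_pow, norm_neg, norm_mul]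
    have hPθ : 0 ≤ P * θ := by positivity
    gcongr
  have hFσ' : (2 * B * (A * N)) ^ 2 * (P * θ * (A * N)) ≤ 16 * A ^ 11 * P * (N : ℝ) ^ 16 * θ := by
    have e1 : (2 * B * (A * N)) ^ 2 * (P * θ * (A * N)) =
        16 * A ^ 11 * P * (N : ℝ) ^ 13 * θ := by
      rw [hB]
      ring
    rw [e1]
    have e2 : (N : ℝ) ^ 13 ≤ (N : ℝ) ^ 16 := pow_le_pow_right₀ hN1 (by norm_num)
    gcongr
  have hs2 : 3 * (48 * (2 * k + 2 * l + 1) * A ^ 12 * (N : ℝ) ^ 15) * (A * N) * ‖τγ - σ‖ ≤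
      3 * (48 * (2 * k + 2 * l + 1) * A ^ 12) * A * Q * (N : ℝ) ^ 16 * θ := by
    calc 3 * (48 * (2 * k + 2 * l + 1) * A ^ 12 * (N : ℝ) ^ 15) * (A * N) * ‖τγ - σ‖
        ≤ 3 * (48 * (2 * k + 2 * l + 1) * A ^ 12 * (N : ℝ) ^ 15) * (A * N) * (Q * θ) := by
          gcongr
      _ = _ := by ring
  calc ‖(a : ℂ) * τγ ^ 2 + b * τγ + c‖
      = ‖((a : ℂ) * σ ^ 2 + b * σ + c) +
          (((a : ℂ) * τγ ^ 2 + b * τγ + c) - ((a : ℂ) * σ ^ 2 + b * σ + c))‖ := by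
        congr 1
        ring
    _ ≤ ‖(a : ℂ) * σ ^ 2 + b * σ + c‖ +
          ‖((a : ℂ) * τγ ^ 2 + b * τγ + c) - ((a : ℂ) * σ ^ 2 + b * σ + c)‖ := norm_add_le _ _
    _ ≤ 16 * A ^ 11 * P * (N : ℝ) ^ 16 * θ +
          3 * (48 * (2 * k + 2 * l + 1) * A ^ 12) * A * Q * (N : ℝ) ^ 16 * θ :=
        add_le_add (hFσ.trans hFσ') (hsub.trans hs2)
    _ = _ := by ring

private theorem Cusp1_core {γ : ℂ} (hγ : QM γ) {k l : ℕ} (hk : 0 < k) (hl : 0 < l) :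
    ∃ (C : ℕ) (δ : ℝ), 0 < δ ∧ ∀ (ε : ℝ) (N N₁ N₂ : ℕ) (X Y Z : ℂ), 0 < ε → ε ≤ δ → 3 ≤ N →
    0 < N₁ → N₁ ≤ N → 0 < N₂ → N₂ ≤ N → IsogDeg N₁ X Y → IsogDeg N₂ X Z →
    1 ≤ ε * ‖X‖ → 1 ≤ ε * ‖Y‖ → ‖Z - γ‖ ≤ ε → ‖X ^ k - Y ^ l‖ ≤ ε * ‖Y ^ l‖ →
    ε⁻¹ ≤ Real.exp (C * Real.log N ^ C) ∨ IsogDeg (k * l) X Y := by
  obtain ⟨τγ, -, hτγ⟩ := Unif_exists_red γ
  obtain ⟨C₅, hq⟩ := hγ τγ hτγ
  obtain ⟨C₂, δ₂, hC₂, hδ₂, hlog⟩ := cusp_log hk hl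
  obtain ⟨C₃, hC₃, hj⟩ := norm_j_le
  obtain ⟨C₄, m', ε₄, hC₄, hm', hε₄, hloc⟩ := j_local τγ
  have hk1 : (1 : ℝ) ≤ k := by exact_mod_cast hk
  have hl1 : (1 : ℝ) ≤ l := by exact_mod_cast hl
  have hγim : 0 < τγ.im := τγ.im_pos
  obtain ⟨ν, hν⟩ : ∃ ν : ℝ, ν = min 1 (τγ.im / 2) := ⟨_, rfl⟩
  have hν0 : 0 < ν := by rw [hν]; exact lt_min one_pos (by linarith)
  have hν1 : ν ≤ 1 := by rw [hν]; exact min_le_left _ _
  have hν2 : ν ≤ τγ.im / 2 := by rw [hν]; exact min_le_right _ _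
  obtain ⟨R₀, hR₀⟩ : ∃ R₀ : ℝ, R₀ = ‖(τγ : ℂ)‖ + 1 + 2 / τγ.im := ⟨_, rfl⟩
  have hR₀a : 0 < 2 / τγ.im := by positivity
  have hR₀1 : 1 ≤ R₀ := by
    have := norm_nonneg (τγ : ℂ)
    linarith
  have hR₀n : ‖(τγ : ℂ)‖ + 1 ≤ R₀ := by linarith
  have hR₀i : R₀⁻¹ ≤ τγ.im / 2 := by
    have h1 : 2 / τγ.im ≤ R₀ := by
      have := norm_nonneg (τγ : ℂ)
      linarith
    have h2 : R₀⁻¹ ≤ (2 / τγ.im)⁻¹ := inv_anti₀ hR₀a h1
    rwa [inv_div] at h2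
  obtain ⟨A, hA⟩ : ∃ A : ℝ, A = 2 * (k + 1) * (l + 1) * R₀ := ⟨_, rfl⟩
  have hkl : (1 : ℝ) ≤ 2 * (k + 1) * (l + 1) := by nlinarith only [hk1, hl1]
  have hA1 : 1 ≤ A := by
    rw [hA]
    nlinarith only [hkl, hR₀1]
  have hAR : R₀ ≤ A := by
    rw [hA]
    nlinarith only [hkl, hR₀1]
  have hAkl : 2 * ((k : ℝ) + 1) * (l + 1) ≤ A := by
    rw [hA]
    nlinarith only [hkl, hR₀1]
  have hA0 : 0 < A := by linarith
  obtain ⟨K₁, hK₁⟩ : ∃ K₁ : ℝ, K₁ = 48 * (2 * k + 2 * l + 1) * A ^ 12 := ⟨_, rfl⟩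
  have hK₁3 : 3 ≤ K₁ := by
    have h1 : 1 ≤ A ^ 12 := one_le_pow₀ hA1
    rw [hK₁]
    nlinarith only [h1, hk1, hl1]
  obtain ⟨K₂, hK₂⟩ : ∃ K₂ : ℝ, K₂ = 16 * A ^ 11 * (3 * C₂) + 3 * K₁ * A * (1 + C₄) := ⟨_, rfl⟩
  have hK₂0 : 0 ≤ K₂ := by
    rw [hK₂]
    have h1 : 0 < K₁ := by linarith
    have h2 : 0 < C₂ := by linarith
    positivity
  -- constants of the two branches
  obtain ⟨C₆, hC₆⟩ := Cusp1_absorb (3 * C₂ * (l + 1)) 0 1 0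
  obtain ⟨C₇, hC₇⟩ := Cusp1_meas (τγ := τγ) hq hK₁3 hK₂0 15 16 m'
  obtain ⟨δ, hδ⟩ : ∃ δ : ℝ, δ = min (min δ₂ (C₃ * Real.exp (4 * Real.pi))⁻¹)
    (min (min (3 * C₂)⁻¹ (ε₄ / 2)) (min (ν ^ m' / C₄) 1)) := ⟨_, rfl⟩
  have hδ0 : 0 < δ := by
    have := Real.exp_pos (4 * Real.pi)
    rw [hδ]
    refine lt_min (lt_min hδ₂ (by positivity)) (lt_min (lt_min (by positivity) (by positivity))
      (lt_min (by positivity) one_pos))
  refine ⟨max C₆ C₇, δ, hδ0, ?_⟩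
  intro ε N N₁ N₂ X Y Z hε hεδ hN hN₁ hN₁' hN₂ hN₂' hXY hXZ hX hY hZ hXYd
  have d1 : ε ≤ δ₂ := (hεδ.trans_eq hδ).trans ((min_le_left _ _).trans (min_le_left _ _))
  have d2 : ε ≤ (C₃ * Real.exp (4 * Real.pi))⁻¹ :=
    (hεδ.trans_eq hδ).trans ((min_le_left _ _).trans (min_le_right _ _))
  have d3 : ε ≤ (3 * C₂)⁻¹ :=
    (hεδ.trans_eq hδ).trans ((min_le_right _ _).trans ((min_le_left _ _).trans (min_le_left _ _)))
  have d4 : ε ≤ ε₄ / 2 :=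
    (hεδ.trans_eq hδ).trans ((min_le_right _ _).trans ((min_le_left _ _).trans (min_le_right _ _)))
  have d5 : ε ≤ ν ^ m' / C₄ :=
    (hεδ.trans_eq hδ).trans ((min_le_right _ _).trans ((min_le_right _ _).trans (min_le_left _ _)))
  have d6 : ε ≤ 1 :=
    (hεδ.trans_eq hδ).trans ((min_le_right _ _).trans ((min_le_right _ _).trans (min_le_right _ _)))
  have hN1 : (1 : ℝ) ≤ N := by exact_mod_cast (by omega : 1 ≤ N)
  obtain ⟨τ, hτ, rfl⟩ := Unif_exists_red X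
  obtain ⟨τ', hτ', rfl⟩ := Unif_exists_red Y
  have hX0 := norm_nonneg (jInv τ)
  have hY0 := norm_nonneg (jInv τ')
  -- imaginary parts
  have him : ∀ σ : ℍ, Red (σ : ℂ) → 1 ≤ ε * ‖jInv σ‖ → 2 ≤ σ.im := by
    intro σ hσ h1
    have h2 := hj σ hσ
    have h3 : 1 ≤ ε * (C₃ * Real.exp (2 * Real.pi * σ.im)) :=
      h1.trans (mul_le_mul_of_nonneg_left h2 hε.le)
    have hE := Real.exp_pos (4 * Real.pi)
    have h4 : ε * (C₃ * Real.exp (4 * Real.pi)) ≤ 1 := by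
      calc ε * (C₃ * Real.exp (4 * Real.pi))
          ≤ (C₃ * Real.exp (4 * Real.pi))⁻¹ * (C₃ * Real.exp (4 * Real.pi)) := by gcongr
        _ = 1 := inv_mul_cancel₀ (by positivity)
    have h5 : ε * (C₃ * Real.exp (4 * Real.pi)) ≤ ε * (C₃ * Real.exp (2 * Real.pi * σ.im)) :=
      h4.trans h3
    have h6 : Real.exp (4 * Real.pi) ≤ Real.exp (2 * Real.pi * σ.im) :=
      le_of_mul_le_mul_left (le_of_mul_le_mul_left h5 hε) hC₃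
    have h7 := Real.exp_le_exp.1 h6
    have hpi := Real.pi_pos
    have h8 : 2 * Real.pi * 2 ≤ 2 * Real.pi * σ.im := by linarith only [h7]
    exact le_of_mul_le_mul_left h8 (by linarith only [hpi])
  have hy := him τ hτ hX
  have hy' := him τ' hτ' hY
  obtain ⟨r, hr, hrd⟩ := hlog τ τ' ε hτ hτ' hε.le d1
    (hX.trans (mul_le_mul_of_nonneg_right d1 hX0)) (hY.trans (mul_le_mul_of_nonneg_right d1 hY0))
    hXYd
  have hXi : ‖jInv τ‖⁻¹ ≤ ε := by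
    have h1 : 0 < ‖jInv τ‖ := by
      rcases hX0.lt_or_eq with h | h
      · exact h
      · rw [← h, mul_zero] at hX
        linarith
    rwa [inv_le_iff_one_le_mul₀ h1]
  have hYi : ‖jInv τ'‖⁻¹ ≤ ε := by
    have h1 : 0 < ‖jInv τ'‖ := by
      rcases hY0.lt_or_eq with h | h
      · exact h
      · rw [← h, mul_zero] at hY
        linarith
    rwa [inv_le_iff_one_le_mul₀ h1]
  have hdl : ‖(l : ℂ) * (τ' : ℂ) - k * (τ : ℂ) - r‖ ≤ 3 * C₂ * ε := by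
    refine hrd.trans ?_
    have h1 : ε + ‖jInv τ‖⁻¹ + ‖jInv τ'‖⁻¹ ≤ 3 * ε := by linarith
    calc C₂ * (ε + ‖jInv τ‖⁻¹ + ‖jInv τ'‖⁻¹) ≤ C₂ * (3 * ε) :=
          mul_le_mul_of_nonneg_left h1 (by linarith)
      _ = 3 * C₂ * ε := by ring
  have hdl1 : ‖(l : ℂ) * (τ' : ℂ) - k * (τ : ℂ) - r‖ ≤ 1 := by
    refine hdl.trans ?_
    calc 3 * C₂ * ε ≤ 3 * C₂ * (3 * C₂)⁻¹ := by gcongr
      _ = 1 := mul_inv_cancel₀ (by positivity)
  have himd : |(l : ℝ) * τ'.im - k * τ.im| ≤ 1 := by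
    have h1 := (Complex.abs_im_le_norm ((l : ℂ) * (τ' : ℂ) - k * (τ : ℂ) - r)).trans hdl1
    have h2 : ((l : ℂ) * (τ' : ℂ) - k * (τ : ℂ) - r).im = (l : ℝ) * τ'.im - k * τ.im := by
      simp [Complex.mul_im]
    rwa [h2] at h1
  rw [abs_le] at himd
  have hyy : τ'.im ≤ (k + 1) * τ.im := by
    have h1 : τ'.im ≤ l * τ'.im := le_mul_of_one_le_left (by linarith) hl1
    have h2 : ((k : ℝ) + 1) * τ.im = k * τ.im + τ.im := by ring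
    rw [h2]
    linarith only [h1, himd.2, hy]
  have hyy' : τ.im ≤ (l + 1) * τ'.im := by
    have h1 : τ.im ≤ k * τ.im := le_mul_of_one_le_left (by linarith) hk1
    have h2 : ((l : ℝ) + 1) * τ'.im = l * τ'.im + τ'.im := by ring
    rw [h2]
    linarith only [h1, himd.1, hy']
  -- the matrix `g`
  obtain ⟨g, hg, hgm⟩ := isogDeg_maps hXY
  have hgd : g.det ≠ 0 := by
    rw [hg]
    exact_mod_cast hN₁.ne'
  have hD2 := norm_sq_denom hgm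
  obtain ⟨D, hDdef⟩ : ∃ D : ℝ, D = ‖(g 1 0 : ℂ) * (τ : ℂ) + (g 1 1 : ℂ)‖ := ⟨_, rfl⟩
  rw [← hDdef] at hD2
  have hD0 : 0 ≤ D := by rw [hDdef]; exact norm_nonneg _
  have hDle : D ≤ (l + 1) * N := by
    have h1 : D ^ 2 * τ'.im = (N₁ : ℝ) * τ.im := by
      have h2 : D ^ 2 * τ'.im = (g.det : ℝ) * τ.im := hD2
      rw [h2, hg]
      push_cast
      rfl
    have hN₁r : (N₁ : ℝ) ≤ N := by exact_mod_cast hN₁'
    have h3 : D ^ 2 * τ'.im ≤ (N * (l + 1)) * τ'.im := by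
      rw [h1]
      calc (N₁ : ℝ) * τ.im ≤ N * ((l + 1) * τ'.im) :=
            mul_le_mul hN₁r hyy' (by linarith) (by linarith)
        _ = (N * (l + 1)) * τ'.im := by ring
    have h4 : D ^ 2 ≤ N * (l + 1) := le_of_mul_le_mul_right h3 (by linarith)
    have h5 : (1 : ℝ) ≤ N * (l + 1) := by nlinarith only [hN1, hl1]
    have h6 : D ^ 2 ≤ ((l + 1) * N) ^ 2 := by
      have h7 : (((l : ℝ) + 1) * N) ^ 2 = (N * (l + 1)) * (N * (l + 1)) := by ring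
      rw [h7]
      nlinarith only [h4, h5]
    exact (abs_le_of_sq_le_sq' h6 (by positivity)).2
  by_cases hc : g 1 0 = 0
  · have hKK : ‖(l : ℂ) * (τ' : ℂ) - k * (τ : ℂ) - r‖ *
        ‖(g 1 0 : ℂ) * (τ : ℂ) + (g 1 1 : ℂ)‖ ≤ 3 * C₂ * ε * ((l + 1) * N) :=
      mul_le_mul hdl (hDdef ▸ hDle) (norm_nonneg _) (by positivity)
    rcases Cusp1_zero hgd hgm hc (by linarith) hKK with h | h
    · left
      refine le_trans ?_ (Cusp1_mono (le_max_left C₆ C₇) hN)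
      refine le_trans ?_ (hC₆ N hN)
      rw [zero_mul, Real.exp_zero, mul_one, pow_one, inv_le_iff_one_le_mul₀ hε]
      linarith
    · exact Or.inr h
  · left
    -- bounds of the points
    have hcr : (1 : ℝ) ≤ |(g 1 0 : ℝ)| := by exact_mod_cast Int.one_le_abs hc
    have hyN : τ.im ≤ (l + 1) * N := by
      have h1 := Complex.abs_im_le_norm ((g 1 0 : ℂ) * (τ : ℂ) + (g 1 1 : ℂ))
      have h2 : ((g 1 0 : ℂ) * (τ : ℂ) + (g 1 1 : ℂ)).im = (g 1 0 : ℝ) * τ.im := by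
        simp [Complex.mul_im]
      rw [h2, abs_mul, abs_of_pos τ.im_pos] at h1
      have h3 : τ.im ≤ |(g 1 0 : ℝ)| * τ.im := le_mul_of_one_le_left (by linarith) hcr
      rw [← hDdef] at h1
      exact h3.trans (h1.trans hDle)
    have hlN : (1 : ℝ) ≤ (l + 1) * N := by nlinarith only [hN1, hl1]
    have hklN : (0 : ℝ) ≤ k * ((l + 1) * N) := by
      exact mul_nonneg (by linarith only [hk1]) (by linarith only [hlN])
    have hyN' : τ'.im ≤ (k + 1) * ((l + 1) * N) := by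
      refine hyy.trans ?_
      gcongr
    have hnorm : ∀ (σ : ℍ) (K : ℝ), Red (σ : ℂ) → σ.im ≤ K → ‖(σ : ℂ)‖ ≤ 1 + K := by
      intro σ K hσ h1
      have h2 := Complex.norm_le_abs_re_add_abs_im (σ : ℂ)
      have h3 := hσ.re_le
      have h4 : |(σ : ℂ).im| = σ.im := by rw [coe_im, abs_of_pos σ.im_pos]
      rw [h4] at h2
      linarith
    have hAN : 2 * ((k : ℝ) + 1) * (l + 1) * N ≤ A * N := by gcongr
    have n1 : ‖(τ : ℂ)‖ ≤ A * N := by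
      refine (hnorm τ _ hτ hyN).trans (le_trans ?_ hAN)
      linarith only [hlN, hklN]
    have n2 : ‖(τ' : ℂ)‖ ≤ A * N := by
      refine (hnorm τ' _ hτ' hyN').trans (le_trans ?_ hAN)
      linarith only [hlN, hklN]
    have hAN1 : 1 ≤ A * N := by nlinarith only [hA1, hN1]
    have hANi : (A * N)⁻¹ ≤ 1 := inv_le_one_of_one_le₀ hAN1
    -- the point above `Z`
    obtain ⟨σ, hσZ, hσd⟩ := hloc Z (by
      rw [hτγ]
      linarith)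
    rw [hτγ] at hσd
    have hσε : ‖(σ : ℂ) - (τγ : ℂ)‖ ^ m' ≤ C₄ * ε :=
      hσd.trans (mul_le_mul_of_nonneg_left hZ hC₄.le)
    have hσν : ‖(σ : ℂ) - (τγ : ℂ)‖ ≤ ν := by
      have h1 : ‖(σ : ℂ) - (τγ : ℂ)‖ ^ m' ≤ ν ^ m' := by
        refine hσε.trans ?_
        calc C₄ * ε ≤ C₄ * (ν ^ m' / C₄) := by gcongr
          _ = ν ^ m' := by field_simp
      exact (pow_le_pow_iff_left₀ (norm_nonneg _) hν0.le hm'.ne').1 h1
    have n3 : ‖(σ : ℂ)‖ ≤ A * N := by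
      have h1 : ‖(σ : ℂ)‖ ≤ ‖(σ : ℂ) - (τγ : ℂ)‖ + ‖(τγ : ℂ)‖ := by
        have := norm_add_le ((σ : ℂ) - (τγ : ℂ)) (τγ : ℂ)
        rwa [sub_add_cancel] at this
      have h2 : A ≤ A * N := le_mul_of_one_le_right hA0.le hN1
      linarith
    have n4 : ‖(τγ : ℂ)‖ ≤ A * N := by
      have h2 : A ≤ A * N := le_mul_of_one_le_right hA0.le hN1
      linarith
    have i3 : (A * N)⁻¹ ≤ (σ : ℂ).im := by
      have h1 := (Complex.abs_im_le_norm ((σ : ℂ) - (τγ : ℂ))).trans (hσν.trans hν2)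
      have h2 : ((σ : ℂ) - (τγ : ℂ)).im = σ.im - τγ.im := by simp
      rw [h2, abs_le] at h1
      have h3 : (A * N)⁻¹ ≤ R₀⁻¹ := by
        apply inv_anti₀ (by linarith)
        refine hAR.trans (le_mul_of_one_le_right hA0.le hN1)
      rw [coe_im]
      linarith [h1.1]
    -- the matrix `h`
    rw [← hσZ] at hXZ
    obtain ⟨h, hh, hhm⟩ := isogDeg_maps hXZ
    -- the small quantity
    obtain ⟨θ, hθ0, hθp⟩ : ∃ θ : ℝ, 0 ≤ θ ∧ θ ^ m' = ε :=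
      ⟨ε ^ ((m' : ℝ)⁻¹), Real.rpow_nonneg hε.le _, Real.rpow_inv_natCast_pow hε.le hm'.ne'⟩
    have hθ1 : θ ≤ 1 := by
      by_contra hcon
      push Not at hcon
      have := one_lt_pow₀ hcon hm'.ne'
      rw [hθp] at this
      linarith
    have hεθ : ε ≤ θ := by
      calc ε = θ ^ m' := hθp.symm
        _ ≤ θ ^ 1 := pow_le_pow_of_le_one hθ0 hθ1 hm'
        _ = θ := pow_one θ
    have hσθ : ‖(τγ : ℂ) - (σ : ℂ)‖ ≤ (1 + C₄) * θ := by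
      rw [norm_sub_rev]
      have h1 : ‖(σ : ℂ) - (τγ : ℂ)‖ ^ m' ≤ ((1 + C₄) * θ) ^ m' := by
        rw [mul_pow, hθp]
        refine hσε.trans (mul_le_mul_of_nonneg_right ?_ hε.le)
        calc C₄ ≤ (1 + C₄) ^ 1 := by rw [pow_one]; linarith
          _ ≤ (1 + C₄) ^ m' := pow_le_pow_right₀ (by linarith) hm'
      exact (pow_le_pow_iff_left₀ (norm_nonneg _) (by positivity) hm'.ne').1 h1
    have hdθ : ‖(l : ℂ) * (τ' : ℂ) - k * (τ : ℂ) - r‖ ≤ 3 * C₂ * θ :=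
      hdl.trans (by gcongr)
    have hDA : D ≤ A * N := by
      refine hDle.trans (le_trans ?_ hAN)
      linarith only [hlN, hklN]
    obtain ⟨a, b, c, n0, na, nb, nc, hF⟩ := Cusp1_form (τγ := (τγ : ℂ)) (A := A) (θ := θ)
      (P := 3 * C₂) (Q := 1 + C₄) hk hN₁ hN₁' hN₂ hN₂' hg hh hgm hhm hc hr hA1 n1 n2 n3 n4
      (hANi.trans (by rw [coe_im]; linarith)) (hANi.trans (by rw [coe_im]; linarith)) i3 hdθ
      (hDdef ▸ hDA)
      hσθ hθ0 (by positivity)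
    rw [← hK₁] at na nb nc hF
    rw [← hK₂] at hF
    exact (hC₇ N ε θ a b c hN hε hθp.le na nb nc n0 hF).trans
      (Cusp1_mono (le_max_right C₆ C₇) hN)

theorem cusp1 {γ : ℂ} (hγ : QM γ) {k l : ℕ} (hk : 0 < k) (hl : 0 < l) (C₀ : ℝ) {m : ℕ}
    (hm : 0 < m) : ∃ C : ℕ, ∀ (T : ℝ) (N N₁ N₂ : ℕ) (X Y Z : ℂ), 1 ≤ T → 3 ≤ N →
    0 < N₁ → N₁ ≤ N → 0 < N₂ → N₂ ≤ N → IsogDeg N₁ X Y → IsogDeg N₂ X Z →
    T ≤ C₀ * ‖X‖ ^ m → T ≤ C₀ * ‖Y‖ ^ m → ‖Z - γ‖ ^ m * T ≤ C₀ →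
    ‖X ^ k - Y ^ l‖ ^ m * T ≤ C₀ * ‖Y ^ l‖ ^ m →
    T ≤ Real.exp (C * Real.log N ^ C) ∨ IsogDeg (k * l) X Y := by
  obtain ⟨C₁, δ, hδ, hcore⟩ := Cusp1_core hγ hk hl
  obtain ⟨C₂, hC₂⟩ := Cusp1_absorb C₀ (m * C₁) 0 C₁
  obtain ⟨C₃, hC₃⟩ := Cusp1_absorb (C₀ / δ ^ m) 0 0 0
  refine ⟨max C₂ C₃, ?_⟩
  intro T N N₁ N₂ X Y Z hT hN hN₁ hN₁' hN₂ hN₂' hXY hXZ hX hY hZ hXYd
  have hT0 : 0 < T := by linarith
  have hC₀ : 0 < C₀ := by
    by_contra hcon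
    push Not at hcon
    have h1 : C₀ * ‖X‖ ^ m ≤ 0 := mul_nonpos_of_nonpos_of_nonneg hcon (by positivity)
    linarith
  have hCT : 0 < C₀ / T := div_pos hC₀ hT0
  obtain ⟨ε, hε0, hεp⟩ : ∃ ε : ℝ, 0 < ε ∧ ε ^ m = C₀ / T :=
    ⟨(C₀ / T) ^ ((m : ℝ)⁻¹), Real.rpow_pos_of_pos hCT _,
      Real.rpow_inv_natCast_pow hCT.le hm.ne'⟩
  have hεT : ε ^ m * T = C₀ := by
    rw [hεp]
    field_simp
  rcases le_or_gt ε δ with hle | hgt
  · have big : ∀ x : ℂ, T ≤ C₀ * ‖x‖ ^ m → 1 ≤ ε * ‖x‖ := by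
      intro x hx
      have h1 : (1 : ℝ) ^ m ≤ (ε * ‖x‖) ^ m := by
        rw [one_pow, mul_pow, hεp, div_mul_eq_mul_div, le_div_iff₀ hT0]
        linarith
      exact (pow_le_pow_iff_left₀ zero_le_one (by positivity) hm.ne').1 h1
    have hZ' : ‖Z - γ‖ ≤ ε := by
      have h1 : ‖Z - γ‖ ^ m ≤ ε ^ m := by
        rw [hεp, le_div_iff₀ hT0]
        exact hZ
      exact (pow_le_pow_iff_left₀ (norm_nonneg _) hε0.le hm.ne').1 h1
    have hXY' : ‖X ^ k - Y ^ l‖ ≤ ε * ‖Y ^ l‖ := by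
      have h1 : ‖X ^ k - Y ^ l‖ ^ m ≤ (ε * ‖Y ^ l‖) ^ m := by
        rw [mul_pow, hεp, div_mul_eq_mul_div, le_div_iff₀ hT0]
        exact hXYd
      exact (pow_le_pow_iff_left₀ (norm_nonneg _) (by positivity) hm.ne').1 h1
    rcases hcore ε N N₁ N₂ X Y Z hε0 hle hN hN₁ hN₁' hN₂ hN₂' hXY hXZ (big X hX) (big Y hY)
      hZ' hXY' with h | h
    · left
      refine le_trans ?_ (Cusp1_mono (le_max_left C₂ C₃) hN)
      refine le_trans ?_ (hC₂ N hN)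
      have h1 : (ε⁻¹) ^ m ≤ Real.exp (C₁ * Real.log N ^ C₁) ^ m :=
        pow_le_pow_left₀ (by positivity) h m
      rw [← Real.exp_nat_mul] at h1
      have h2 : T = C₀ * (ε⁻¹) ^ m := by
        rw [inv_pow, hεp, inv_div]
        field_simp
      rw [h2, pow_zero, mul_one]
      refine mul_le_mul_of_nonneg_left ?_ hC₀.le
      refine h1.trans (le_of_eq ?_)
      congr 1
      ring
    · exact Or.inr h
  · left
    refine le_trans ?_ (Cusp1_mono (le_max_right C₂ C₃) hN)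
    refine le_trans ?_ (hC₃ N hN)
    rw [zero_mul, Real.exp_zero, mul_one, pow_zero, mul_one, le_div_iff₀ (by positivity)]
    have h1 : δ ^ m ≤ ε ^ m := pow_le_pow_left₀ hδ.le hgt.le m
    calc T * δ ^ m ≤ T * ε ^ m := by gcongr
      _ = C₀ := by rw [mul_comm]; exact hεT

end Pool.Agent.LGO
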