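import Mathlib
import Pool.Agent.LGO.Q.Defs
import Pool.Agent.LGO.Q.Loc
import Pool.Agent.LGO.Q.Ent
import Pool.Agent.LGO.Gal.Basic

/-!
# LGO/Q: closeness to a point `(β, γ)` with two finite coordinates

`T` is large, `(Y, Z)` is at distance `T^(-1/m)` from `(β, γ)` and `Y, Z` are related by an isogeny of degree
`N₁ ≤ N`.  Let `β = j(τ_β)`, `γ = j(τ_γ)`.  For `T ≥ C₁` there are by `j_local` `τ_Y, τ_Z` with `j(τ_Y) = Y`,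
`j(τ_Z) = Z`, `|τ_Y - τ_β|, |τ_Z - τ_γ| ≤ C T^(-μ)`, `μ > 0`, all in a fixed compact part of the half plane
(`‖·‖ ≤ R`, `Im ≥ 1/R`).  By `Gal.isogDeg_iff_maps` there is `g` with `det g = N₁`, `Maps g τ_Y τ_Z`, with entries
`≤ 2 R⁴ N` (`entries_le`).

(a) `cusp2a`: `IsogDeg m₀ β γ`: `h` with `det h = m₀`, `Maps h τ_β τ_γ`.  Let
`f(X) = (g00 X + g01)(h10 X + h11) - (g10 X + g11)(h00 X + h01)`, integral with coefficients `≤ C N`.  At `τ_β`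
the value is `f(τ_β) = f(τ_Y) + O(N |τ_β - τ_Y|)` and `f(τ_Y) = (g10 τ_Y + g11) [τ_Z (h10 τ_Y + h11) -
(h00 τ_Y + h01)] = O(N T^(-μ))` since the bracket vanishes at `(τ_β, τ_γ)`.  So `|f(τ_β)| ≤ C N T^(-μ)`.  If
`f ≠ 0` then `QM β` gives `exp(-C (log N)^C) ≤ C N T^(-μ)`, so `T ≤ exp(C' (log N)^C')`.  If `f = 0` then
`(g00 X + g01)(h10 X + h11) = (g10 X + g11)(h00 X + h01)` identically, so `g` and `h` define the same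
Moebius transformation (both determinants are nonzero, so the linear factors are not proportional and
unique factorisation gives `g = c h` up to a rational factor, or directly: cross multiply at `τ_Y`:
`h10 τ_Y + h11 ≠ 0`, so `τ_Z (h10 τ_Y + h11) = h00 τ_Y + h01`): `Maps h τ_Y τ_Z`, `IsogDeg m₀ Y Z`.
For `T < C₁` the first alternative holds (`C ≥ log C₁`, `log N ≥ 1`).

(b) `cusp2b`: `β` is CM: `a τ_β² + b τ_β + c = 0`, `(a, b, c) ≠ 0`.  `form_map` for `g`: `F = (a', b', c')`,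
nonzero, with coefficients `≤ C N²` and `F(τ') = (..)² (a τ² + b τ + c)` whenever `Maps g τ τ'`; apply it to
`(τ_Y, τ_Z)`: `|F(τ_Z)| ≤ C N² |a τ_Y² + b τ_Y + c| ≤ C N² T^(-μ)`, and `|F(τ_γ) - F(τ_Z)| ≤ C N² T^(-μ)`
(`form_sub`).  `QM γ` gives the bound.
-/

namespace Pool.Agent.LGO

open UpperHalfPlane Pool.Agent.Hhelper14.ZP

/-- a point above `Z` near a given point `τ₀` -/
theorem loc_pt (τ₀ : ℍ) (C₀ : ℝ) {m : ℕ} (hm : 0 < m) : ∃ (k : ℕ) (D R : ℝ), 1 ≤ D ∧ 1 ≤ R ∧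
    ‖(τ₀ : ℂ)‖ ≤ R ∧ R⁻¹ ≤ (τ₀ : ℂ).im ∧ ∀ (T : ℝ) (Z : ℂ), D ≤ T → ‖Z - jInv τ₀‖ ^ m * T ≤ C₀ →
      ∃ τ : ℍ, jInv τ = Z ∧ (∀ K : ℕ, k ≤ K → ‖(τ : ℂ) - (τ₀ : ℂ)‖ ^ K * T ≤ D) ∧
        ‖(τ : ℂ)‖ ≤ R ∧ R⁻¹ ≤ (τ : ℂ).im := by
  obtain ⟨C, m₁, ε, hC, hm₁, hε, hloc⟩ := j_local τ₀
  have hy : 0 < (τ₀ : ℂ).im := τ₀.im_pos
  set y : ℝ := (τ₀ : ℂ).im with hydef
  have hk : 0 < m₁ * m := Nat.mul_pos hm₁ hm
  set δ : ℝ := min 1 (y / 2) with hδ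
  have hδ0 : 0 < δ := lt_min one_pos (by linarith)
  have hδ1 : δ ≤ 1 := min_le_left _ _
  have hδ2 : δ ≤ y / 2 := min_le_right _ _
  have hCm : 0 < C ^ m := pow_pos hC m
  have hεm : 0 < ε ^ m := pow_pos hε m
  have hδk : 0 < δ ^ (m₁ * m) := pow_pos hδ0 _
  set D : ℝ := 1 + C ^ m * |C₀| + |C₀| / ε ^ m + C ^ m * |C₀| / δ ^ (m₁ * m) with hD
  have p1 : 0 ≤ C ^ m * |C₀| := by positivity
  have p2 : 0 ≤ |C₀| / ε ^ m := by positivity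
  have p3 : 0 ≤ C ^ m * |C₀| / δ ^ (m₁ * m) := by positivity
  refine ⟨m₁ * m, D, ‖(τ₀ : ℂ)‖ + 1 + 2 / y, by linarith, ?_, ?_, ?_, ?_⟩
  · have : 0 ≤ ‖(τ₀ : ℂ)‖ := norm_nonneg _
    have : 0 < 2 / y := by positivity
    linarith
  · have : 0 < 2 / y := by positivity
    linarith
  · have h1 : 2 / y ≤ ‖(τ₀ : ℂ)‖ + 1 + 2 / y := by linarith [norm_nonneg (τ₀ : ℂ)]
    have h2 : (‖(τ₀ : ℂ)‖ + 1 + 2 / y)⁻¹ ≤ (2 / y)⁻¹ := inv_anti₀ (by positivity) h1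
    rw [inv_div] at h2
    linarith
  intro T Z hT hZ
  have hT1 : 1 ≤ T := by linarith
  have hT0 : 0 < T := by linarith
  have hCabs : C₀ ≤ |C₀| := le_abs_self _
  have hZε : ‖Z - jInv τ₀‖ < ε := by
    by_contra hcon
    push Not at hcon
    have h1 : ε ^ m ≤ ‖Z - jInv τ₀‖ ^ m := pow_le_pow_left₀ hε.le hcon m
    have h2 : ε ^ m * T ≤ |C₀| := by
      calc ε ^ m * T ≤ ‖Z - jInv τ₀‖ ^ m * T := by gcongr
        _ ≤ C₀ := hZ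
        _ ≤ |C₀| := hCabs
    have h3 : T ≤ |C₀| / ε ^ m := by
      rw [le_div_iff₀ hεm]
      linarith
    linarith
  obtain ⟨τ, hτ, hd⟩ := hloc Z hZε
  have hd0 : 0 ≤ ‖(τ : ℂ) - (τ₀ : ℂ)‖ := norm_nonneg _
  have hkT : ‖(τ : ℂ) - (τ₀ : ℂ)‖ ^ (m₁ * m) * T ≤ C ^ m * |C₀| := by
    calc ‖(τ : ℂ) - (τ₀ : ℂ)‖ ^ (m₁ * m) * T = (‖(τ : ℂ) - (τ₀ : ℂ)‖ ^ m₁) ^ m * T := by
          rw [pow_mul]
      _ ≤ (C * ‖Z - jInv τ₀‖) ^ m * T := by gcongr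
      _ = C ^ m * (‖Z - jInv τ₀‖ ^ m * T) := by rw [mul_pow]; ring
      _ ≤ C ^ m * |C₀| := by
          apply mul_le_mul_of_nonneg_left _ hCm.le
          exact hZ.trans hCabs
  have hdδ : ‖(τ : ℂ) - (τ₀ : ℂ)‖ ≤ δ := by
    by_contra hcon
    push Not at hcon
    have h1 : δ ^ (m₁ * m) ≤ ‖(τ : ℂ) - (τ₀ : ℂ)‖ ^ (m₁ * m) := pow_le_pow_left₀ hδ0.le hcon.le _
    have h2 : δ ^ (m₁ * m) * T ≤ C ^ m * |C₀| := by
      calc δ ^ (m₁ * m) * T ≤ ‖(τ : ℂ) - (τ₀ : ℂ)‖ ^ (m₁ * m) * T := by gcongr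
        _ ≤ _ := hkT
    have h3 : T ≤ C ^ m * |C₀| / δ ^ (m₁ * m) := by
      rw [le_div_iff₀ hδk]
      linarith
    linarith
  refine ⟨τ, hτ, ?_, ?_, ?_⟩
  · intro K hK
    have h1 : ‖(τ : ℂ) - (τ₀ : ℂ)‖ ^ K ≤ ‖(τ : ℂ) - (τ₀ : ℂ)‖ ^ (m₁ * m) :=
      pow_le_pow_of_le_one hd0 (hdδ.trans hδ1) hK
    calc ‖(τ : ℂ) - (τ₀ : ℂ)‖ ^ K * T ≤ ‖(τ : ℂ) - (τ₀ : ℂ)‖ ^ (m₁ * m) * T := by gcongr
      _ ≤ C ^ m * |C₀| := hkT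
      _ ≤ D := by linarith
  · have h1 : ‖(τ : ℂ)‖ ≤ ‖(τ : ℂ) - (τ₀ : ℂ)‖ + ‖(τ₀ : ℂ)‖ := by
      have h2 := norm_add_le ((τ : ℂ) - (τ₀ : ℂ)) (τ₀ : ℂ)
      rwa [sub_add_cancel] at h2
    have h3 : 0 < 2 / y := by positivity
    linarith
  · have h1 : 2 / y ≤ ‖(τ₀ : ℂ)‖ + 1 + 2 / y := by linarith [norm_nonneg (τ₀ : ℂ)]
    have h2 : (‖(τ₀ : ℂ)‖ + 1 + 2 / y)⁻¹ ≤ (2 / y)⁻¹ := inv_anti₀ (by positivity) h1
    rw [inv_div] at h2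
    have h3 := Complex.abs_im_le_norm ((τ : ℂ) - (τ₀ : ℂ))
    rw [Complex.sub_im] at h3
    have h4 := (abs_le.mp (h3.trans hdδ)).1
    linarith

theorem one_le_log {N : ℕ} (hN : 3 ≤ N) : 1 ≤ Real.log N := by
  have hN3 : (3 : ℝ) ≤ N := by exact_mod_cast hN
  rw [Real.le_log_iff_exp_le (by linarith)]
  have h1 := Real.exp_one_lt_d9
  linarith

/-- the shape of the bound -/
theorem fin_bd {A B : ℝ} (hA : 1 ≤ A) (hB : 1 ≤ B) (K C₁ : ℕ) : ∃ C : ℕ, ∀ N : ℕ, 3 ≤ N →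
    A * ((N : ℝ) ^ (2 * K) * Real.exp (K * (C₁ * Real.log (B * (N : ℝ) ^ 2) ^ C₁))) ≤
      Real.exp (C * Real.log N ^ C) := by
  have hlB : 0 ≤ Real.log B := Real.log_nonneg hB
  have hlA : 0 ≤ Real.log A := Real.log_nonneg hA
  set E : ℝ := Real.log A + 2 * K + K * (C₁ * (Real.log B + 2) ^ C₁) with hE
  have hE0 : 0 ≤ E := by positivity
  refine ⟨⌈E⌉₊ + C₁ + 1, fun N hN => ?_⟩
  have hN3 : (3 : ℝ) ≤ N := by exact_mod_cast hN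
  have hN0 : (0 : ℝ) < N := by linarith
  have hL := one_le_log hN
  set L : ℝ := Real.log N with hLdef
  have hL0 : 0 < L := by linarith
  have h1 : Real.log (B * (N : ℝ) ^ 2) ≤ (Real.log B + 2) * L := by
    rw [Real.log_mul (by linarith) (by positivity), Real.log_pow]
    push_cast
    nlinarith
  have h1' : 0 ≤ Real.log (B * (N : ℝ) ^ 2) := by
    apply Real.log_nonneg
    nlinarith
  have h2 : Real.log (B * (N : ℝ) ^ 2) ^ C₁ ≤ (Real.log B + 2) ^ C₁ * L ^ C₁ := by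
    rw [← mul_pow]
    exact pow_le_pow_left₀ h1' h1 C₁
  have h3 : A * ((N : ℝ) ^ (2 * K) * Real.exp (K * (C₁ * Real.log (B * (N : ℝ) ^ 2) ^ C₁))) =
      Real.exp (Real.log A + (2 * K) * L + K * (C₁ * Real.log (B * (N : ℝ) ^ 2) ^ C₁)) := by
    rw [Real.exp_add, Real.exp_add, Real.exp_log (by linarith), hLdef]
    have h4 : Real.exp ((2 * K) * Real.log N) = (N : ℝ) ^ (2 * K) := by
      rw [show ((2 : ℝ) * K) * Real.log N = ((2 * K : ℕ) : ℝ) * Real.log N by push_cast; ring,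
        Real.exp_nat_mul, Real.exp_log hN0]
    rw [h4]
    ring
  rw [h3]
  apply Real.exp_le_exp.mpr
  have hLC : L ≤ L ^ (C₁ + 1) := by
    calc L = L ^ 1 := (pow_one L).symm
      _ ≤ L ^ (C₁ + 1) := pow_le_pow_right₀ hL (by omega)
  have hLC1 : 1 ≤ L ^ (C₁ + 1) := one_le_pow₀ hL
  have hLC2 : L ^ C₁ ≤ L ^ (C₁ + 1) := pow_le_pow_right₀ hL (by omega)
  have h5 : Real.log A + (2 * K) * L + K * (C₁ * Real.log (B * (N : ℝ) ^ 2) ^ C₁) ≤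
      E * L ^ (C₁ + 1) := by
    have e1 : Real.log A ≤ Real.log A * L ^ (C₁ + 1) := le_mul_of_one_le_right hlA hLC1
    have e2 : (2 * K) * L ≤ (2 * K) * L ^ (C₁ + 1) := by gcongr
    have e3 : K * (C₁ * Real.log (B * (N : ℝ) ^ 2) ^ C₁) ≤
        K * (C₁ * ((Real.log B + 2) ^ C₁ * L ^ (C₁ + 1))) := by
      gcongr
      exact h2.trans (by gcongr)
    calc _ ≤ Real.log A * L ^ (C₁ + 1) + (2 * K) * L ^ (C₁ + 1) +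
          K * (C₁ * ((Real.log B + 2) ^ C₁ * L ^ (C₁ + 1))) := by linarith
      _ = E * L ^ (C₁ + 1) := by rw [hE]; ring
  refine h5.trans ?_
  have h6 : E ≤ ((⌈E⌉₊ + C₁ + 1 : ℕ) : ℝ) := by
    have := Nat.le_ceil E
    push_cast
    have h7 : (0 : ℝ) ≤ C₁ := Nat.cast_nonneg _
    linarith
  have h8 : L ^ (C₁ + 1) ≤ L ^ (⌈E⌉₊ + C₁ + 1) := pow_le_pow_right₀ hL (by omega)
  calc E * L ^ (C₁ + 1) ≤ ((⌈E⌉₊ + C₁ + 1 : ℕ) : ℝ) * L ^ (⌈E⌉₊ + C₁ + 1) := by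
        gcongr
    _ = _ := rfl

/-- the conclusion from a lower bound of a value and an upper bound by the distance -/
theorem concl {E v A₀ D d T : ℝ} {N K : ℕ} (hv : Real.exp (-E) ≤ v) (hA₀ : 0 ≤ A₀) (hT : 0 ≤ T)
    (_hd : 0 ≤ d) (hvd : v ≤ A₀ * (N : ℝ) ^ 2 * d) (hdT : d ^ K * T ≤ D) :
    T ≤ (A₀ ^ K * D) * ((N : ℝ) ^ (2 * K) * Real.exp (K * E)) := by
  have h0 : 0 < Real.exp (-E) := Real.exp_pos _
  have h1 : Real.exp (-E) ^ K * T ≤ A₀ ^ K * D * (N : ℝ) ^ (2 * K) := by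
    calc Real.exp (-E) ^ K * T ≤ (A₀ * (N : ℝ) ^ 2 * d) ^ K * T := by
          gcongr
          exact hv.trans hvd
      _ = A₀ ^ K * (N : ℝ) ^ (2 * K) * (d ^ K * T) := by
          rw [mul_pow, mul_pow, pow_mul]
          ring
      _ ≤ A₀ ^ K * (N : ℝ) ^ (2 * K) * D := by gcongr
      _ = _ := by ring
  have h2 : Real.exp (-E) ^ K * Real.exp (K * E) = 1 := by
    rw [Real.exp_nat_mul, ← mul_pow, ← Real.exp_add]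
    simp
  calc T = (Real.exp (-E) ^ K * T) * Real.exp (K * E) := by
        rw [mul_right_comm, h2, one_mul]
    _ ≤ (A₀ ^ K * D * (N : ℝ) ^ (2 * K)) * Real.exp (K * E) := by gcongr
    _ = _ := by ring

theorem le_of_inv_le {R R' x : ℝ} (hR : 1 ≤ R) (h : R ≤ R') (hx : R⁻¹ ≤ x) : R'⁻¹ ≤ x :=
  (inv_anti₀ (by linarith) h).trans hx

theorem norm_int (a : ℤ) : ‖(a : ℂ)‖ = |(a : ℝ)| := by
  rw [← Complex.ofReal_intCast, Complex.norm_real, Real.norm_eq_abs]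

/-- a linear form -/
theorem lin_le {a b : ℤ} {G R : ℝ} (ha : |(a : ℝ)| ≤ G) (hb : |(b : ℝ)| ≤ G) (hR : 1 ≤ R) {τ : ℂ}
    (h : ‖τ‖ ≤ R) : ‖(a : ℂ) * τ + b‖ ≤ 2 * R * G := by
  have hG : 0 ≤ G := (abs_nonneg _).trans ha
  calc ‖(a : ℂ) * τ + b‖ ≤ ‖(a : ℂ) * τ‖ + ‖(b : ℂ)‖ := norm_add_le _ _
    _ = |(a : ℝ)| * ‖τ‖ + |(b : ℝ)| := by rw [norm_mul, norm_int, norm_int]
    _ ≤ G * R + G := by gcongr
    _ ≤ 2 * R * G := by nlinarith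

/-- the comparison of two matrices -/
theorem comp_val {g h : Matrix (Fin 2) (Fin 2) ℤ} {G M R d : ℝ} (hg : ∀ i j, |(g i j : ℝ)| ≤ G)
    (hh : ∀ i j, |(h i j : ℝ)| ≤ M) (hR : 1 ≤ R) {y z b c : ℂ} (hy : ‖y‖ ≤ R) (hb : ‖b‖ ≤ R)
    (hc : ‖c‖ ≤ R) (hgyz : Maps g y z) (hhbc : Maps h b c) (hyb : ‖y - b‖ ≤ d)
    (hzc : ‖z - c‖ ≤ d) :
    ‖((g 0 0 * h 1 0 - g 1 0 * h 0 0 : ℤ) : ℂ) * b ^ 2 +
      ((g 0 0 * h 1 1 + g 0 1 * h 1 0 - g 1 0 * h 0 1 - g 1 1 * h 0 0 : ℤ) : ℂ) * b +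
      ((g 0 1 * h 1 1 - g 1 1 * h 0 1 : ℤ) : ℂ)‖ ≤ 20 * R ^ 2 * G * M * d := by
  have hG : 0 ≤ G := (abs_nonneg _).trans (hg 0 0)
  have hM : 0 ≤ M := (abs_nonneg _).trans (hh 0 0)
  have hd : 0 ≤ d := (norm_nonneg _).trans hyb
  have hR0 : 0 ≤ R := by linarith
  have two : ∀ i j k l, |(g i j : ℝ) * (h k l : ℝ)| ≤ G * M := by
    intro i j k l
    rw [abs_mul]
    exact mul_le_mul (hg i j) (hh k l) (abs_nonneg _) hG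
  -- the value at y
  have e1 : ((g 0 0 * h 1 0 - g 1 0 * h 0 0 : ℤ) : ℂ) * y ^ 2 +
      ((g 0 0 * h 1 1 + g 0 1 * h 1 0 - g 1 0 * h 0 1 - g 1 1 * h 0 0 : ℤ) : ℂ) * y +
      ((g 0 1 * h 1 1 - g 1 1 * h 0 1 : ℤ) : ℂ) =
      ((g 1 0 : ℂ) * y + g 1 1) * ((z - c) * ((h 1 0 : ℂ) * y + h 1 1) +
        (c * (h 1 0 : ℂ) - h 0 0) * (y - b)) := by
    rw [Maps] at hgyz hhbc
    push_cast
    linear_combination (-((h 1 0 : ℂ) * y + h 1 1)) * hgyz + ((g 1 0 : ℂ) * y + g 1 1) * hhbc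
  have e2 : ‖(z - c) * ((h 1 0 : ℂ) * y + h 1 1) + (c * (h 1 0 : ℂ) - h 0 0) * (y - b)‖ ≤
      4 * R * M * d := by
    have f1 : ‖(h 1 0 : ℂ) * y + h 1 1‖ ≤ 2 * R * M := lin_le (hh 1 0) (hh 1 1) hR hy
    have f2 : ‖c * (h 1 0 : ℂ) - h 0 0‖ ≤ 2 * R * M := by
      have f3 := lin_le (a := h 1 0) (b := -h 0 0) (hh 1 0)
        (by push_cast; rw [abs_neg]; exact hh 0 0) hR hc
      have f4 : c * (h 1 0 : ℂ) - h 0 0 = (h 1 0 : ℂ) * c + ((-h 0 0 : ℤ) : ℂ) := by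
        push_cast
        ring
      rw [f4]
      exact f3
    calc _ ≤ ‖(z - c) * ((h 1 0 : ℂ) * y + h 1 1)‖ + ‖(c * (h 1 0 : ℂ) - h 0 0) * (y - b)‖ :=
          norm_add_le _ _
      _ = ‖z - c‖ * ‖(h 1 0 : ℂ) * y + h 1 1‖ + ‖c * (h 1 0 : ℂ) - h 0 0‖ * ‖y - b‖ := by
          rw [norm_mul, norm_mul]
      _ ≤ d * (2 * R * M) + (2 * R * M) * d := by gcongr
      _ = 4 * R * M * d := by ring
  have e3 : ‖(g 1 0 : ℂ) * y + g 1 1‖ ≤ 2 * R * G := lin_le (hg 1 0) (hg 1 1) hR hy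
  have e4 := form_sub (g 0 0 * h 1 0 - g 1 0 * h 0 0)
    (g 0 0 * h 1 1 + g 0 1 * h 1 0 - g 1 0 * h 0 1 - g 1 1 * h 0 0)
    (g 0 1 * h 1 1 - g 1 1 * h 0 1) (H := 4 * (G * M)) (R := R)
    (by
      have t1 := abs_le.mp (two 0 0 1 0)
      have t2 := abs_le.mp (two 1 0 0 0)
      push_cast
      rw [abs_le]
      constructor <;> linarith [t1.1, t1.2, t2.1, t2.2])
    (by
      have t1 := abs_le.mp (two 0 0 1 1)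
      have t2 := abs_le.mp (two 0 1 1 0)
      have t3 := abs_le.mp (two 1 0 0 1)
      have t4 := abs_le.mp (two 1 1 0 0)
      push_cast
      rw [abs_le]
      constructor <;> linarith [t1.1, t1.2, t2.1, t2.2, t3.1, t3.2, t4.1, t4.2]) hR hb hy
  have hby : ‖b - y‖ ≤ d := by rwa [norm_sub_rev]
  have e5 : ‖((g 1 0 : ℂ) * y + g 1 1) * ((z - c) * ((h 1 0 : ℂ) * y + h 1 1) +
        (c * (h 1 0 : ℂ) - h 0 0) * (y - b))‖ ≤ (2 * R * G) * (4 * R * M * d) := by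
    rw [norm_mul]
    gcongr
  rw [← e1] at e5
  have e6 := norm_add_le
    ((((g 0 0 * h 1 0 - g 1 0 * h 0 0 : ℤ) : ℂ) * b ^ 2 +
      ((g 0 0 * h 1 1 + g 0 1 * h 1 0 - g 1 0 * h 0 1 - g 1 1 * h 0 0 : ℤ) : ℂ) * b +
      ((g 0 1 * h 1 1 - g 1 1 * h 0 1 : ℤ) : ℂ)) -
    (((g 0 0 * h 1 0 - g 1 0 * h 0 0 : ℤ) : ℂ) * y ^ 2 +
      ((g 0 0 * h 1 1 + g 0 1 * h 1 0 - g 1 0 * h 0 1 - g 1 1 * h 0 0 : ℤ) : ℂ) * y +
      ((g 0 1 * h 1 1 - g 1 1 * h 0 1 : ℤ) : ℂ)))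
    (((g 0 0 * h 1 0 - g 1 0 * h 0 0 : ℤ) : ℂ) * y ^ 2 +
      ((g 0 0 * h 1 1 + g 0 1 * h 1 0 - g 1 0 * h 0 1 - g 1 1 * h 0 0 : ℤ) : ℂ) * y +
      ((g 0 1 * h 1 1 - g 1 1 * h 0 1 : ℤ) : ℂ))
  rw [sub_add_cancel] at e6
  have e7 : 3 * (4 * (G * M)) * R * ‖b - y‖ ≤ 12 * R ^ 2 * G * M * d := by
    calc 3 * (4 * (G * M)) * R * ‖b - y‖ ≤ 3 * (4 * (G * M)) * R * d := by gcongr
      _ ≤ 3 * (4 * (G * M)) * R ^ 2 * d := by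
          gcongr
          nlinarith
      _ = _ := by ring
  have e8 : (2 * R * G) * (4 * R * M * d) = 8 * R ^ 2 * G * M * d := by ring
  calc _ ≤ _ := e6
    _ ≤ 12 * R ^ 2 * G * M * d + 8 * R ^ 2 * G * M * d := by
        refine add_le_add (e4.trans e7) ?_
        rw [← e8]
        exact e5
    _ = _ := by ring

theorem comp_coef {g h : Matrix (Fin 2) (Fin 2) ℤ} {G M : ℝ} (hg : ∀ i j, |(g i j : ℝ)| ≤ G)
    (hh : ∀ i j, |(h i j : ℝ)| ≤ M) :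
    |((g 0 0 * h 1 0 - g 1 0 * h 0 0 : ℤ) : ℝ)| ≤ 4 * (G * M) ∧
    |((g 0 0 * h 1 1 + g 0 1 * h 1 0 - g 1 0 * h 0 1 - g 1 1 * h 0 0 : ℤ) : ℝ)| ≤ 4 * (G * M) ∧
    |((g 0 1 * h 1 1 - g 1 1 * h 0 1 : ℤ) : ℝ)| ≤ 4 * (G * M) := by
  have hG : 0 ≤ G := (abs_nonneg _).trans (hg 0 0)
  have hM : 0 ≤ M := (abs_nonneg _).trans (hh 0 0)
  have hGM : 0 ≤ G * M := mul_nonneg hG hM
  have two : ∀ i j k l, |(g i j : ℝ) * (h k l : ℝ)| ≤ G * M := by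
    intro i j k l
    rw [abs_mul]
    exact mul_le_mul (hg i j) (hh k l) (abs_nonneg _) hG
  refine ⟨?_, ?_, ?_⟩
  · have t1 := abs_le.mp (two 0 0 1 0)
    have t2 := abs_le.mp (two 1 0 0 0)
    push_cast
    rw [abs_le]
    constructor <;> linarith [t1.1, t1.2, t2.1, t2.2]
  · have t1 := abs_le.mp (two 0 0 1 1)
    have t2 := abs_le.mp (two 0 1 1 0)
    have t3 := abs_le.mp (two 1 0 0 1)
    have t4 := abs_le.mp (two 1 1 0 0)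
    push_cast
    rw [abs_le]
    constructor <;> linarith [t1.1, t1.2, t2.1, t2.2, t3.1, t3.2, t4.1, t4.2]
  · have t1 := abs_le.mp (two 0 1 1 1)
    have t2 := abs_le.mp (two 1 1 0 1)
    push_cast
    rw [abs_le]
    constructor <;> linarith [t1.1, t1.2, t2.1, t2.2]

/-- if the comparison form vanishes, then the matrices give the same map -/
theorem comp_zero {g h : Matrix (Fin 2) (Fin 2) ℤ} {y z : ℂ}
    (hden : ((g 1 0 : ℂ) * y + (g 1 1 : ℂ)) ≠ 0) (hgyz : Maps g y z)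
    (h1 : g 0 0 * h 1 0 - g 1 0 * h 0 0 = 0)
    (h2 : g 0 0 * h 1 1 + g 0 1 * h 1 0 - g 1 0 * h 0 1 - g 1 1 * h 0 0 = 0)
    (h3 : g 0 1 * h 1 1 - g 1 1 * h 0 1 = 0) : Maps h y z := by
  have c1 : (g 0 0 : ℂ) * h 1 0 - g 1 0 * h 0 0 = 0 := by exact_mod_cast h1
  have c2 : (g 0 0 : ℂ) * h 1 1 + g 0 1 * h 1 0 - g 1 0 * h 0 1 - g 1 1 * h 0 0 = 0 := by
    exact_mod_cast h2
  have c3 : (g 0 1 : ℂ) * h 1 1 - g 1 1 * h 0 1 = 0 := by exact_mod_cast h3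
  rw [Maps] at hgyz ⊢
  apply mul_left_cancel₀ hden
  linear_combination ((h 1 0 : ℂ) * y + h 1 1) * hgyz + y ^ 2 * c1 + y * c2 + c3

/-- the bound of the entries of a matrix -/
theorem exists_entry_bd (h : Matrix (Fin 2) (Fin 2) ℤ) : ∃ M : ℝ, 1 ≤ M ∧
    ∀ i j, |(h i j : ℝ)| ≤ M := by
  refine ⟨1 + ∑ i, ∑ j, |(h i j : ℝ)|, ?_, ?_⟩
  · have : 0 ≤ ∑ i, ∑ j, |(h i j : ℝ)| :=
      Finset.sum_nonneg fun i _ => Finset.sum_nonneg fun j _ => abs_nonneg _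
    linarith
  · intro i j
    have h1 : |(h i j : ℝ)| ≤ ∑ j, |(h i j : ℝ)| :=
      Finset.single_le_sum (f := fun j => |(h i j : ℝ)|) (fun j _ => abs_nonneg _)
        (Finset.mem_univ j)
    have h2 : ∑ j, |(h i j : ℝ)| ≤ ∑ i, ∑ j, |(h i j : ℝ)| :=
      Finset.single_le_sum (f := fun i => ∑ j, |(h i j : ℝ)|)
        (fun i _ => Finset.sum_nonneg fun j _ => abs_nonneg _) (Finset.mem_univ i)
    linarith

theorem cusp2a {β γ : ℂ} (hβ : QM β) {m₀ : ℕ} (hm₀ : 0 < m₀) (hβγ : IsogDeg m₀ β γ) (C₀ : ℝ)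
    {m : ℕ} (hm : 0 < m) : ∃ C : ℕ, ∀ (T : ℝ) (N N₁ : ℕ) (Y Z : ℂ), 1 ≤ T → 3 ≤ N → 0 < N₁ →
    N₁ ≤ N → IsogDeg N₁ Y Z → ‖Y - β‖ ^ m * T ≤ C₀ → ‖Z - γ‖ ^ m * T ≤ C₀ →
    T ≤ Real.exp (C * Real.log N ^ C) ∨ IsogDeg m₀ Y Z := by
  obtain ⟨τβ, hτβ⟩ := Pool.Agent.Hhelper14.ZPL.j_surj β
  obtain ⟨τγ, hτγ⟩ := Pool.Agent.Hhelper14.ZPL.j_surj γ
  obtain ⟨k₁, D₁, R₁, hD₁, hR₁, hβR, hβi, hloc₁⟩ := loc_pt τβ C₀ hm
  obtain ⟨k₂, D₂, R₂, hD₂, hR₂, hγR, hγi, hloc₂⟩ := loc_pt τγ C₀ hm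
  rw [hτβ] at hloc₁
  rw [hτγ] at hloc₂
  rw [← hτβ, ← hτγ, Gal.isogDeg_iff_maps hm₀] at hβγ
  obtain ⟨h, hdet, hmap⟩ := hβγ
  obtain ⟨M, hM1, hM⟩ := exists_entry_bd h
  obtain ⟨C₁, hQ⟩ := hβ τβ hτβ
  set R : ℝ := R₁ + R₂ with hRdef
  have hR : 1 ≤ R := by linarith
  have hR4 : 1 ≤ R ^ 4 := one_le_pow₀ hR
  have hR6 : 1 ≤ R ^ 6 := one_le_pow₀ hR
  set D : ℝ := D₁ + D₂ with hDdef
  have hD : 1 ≤ D := by linarith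
  set K : ℕ := k₁ + k₂ with hK
  have hA₀ : 1 ≤ 40 * R ^ 6 * M := by nlinarith
  have hB : 1 ≤ 8 * R ^ 4 * M := by nlinarith
  have hA : 1 ≤ (40 * R ^ 6 * M) ^ K * D := by
    have : 1 ≤ (40 * R ^ 6 * M) ^ K := one_le_pow₀ hA₀
    nlinarith
  obtain ⟨C, hC⟩ := fin_bd hA hB K C₁
  refine ⟨C, fun T N N₁ Y Z hT hN hN₁ hN₁N hYZ hY hZ => ?_⟩
  have hN3 : (3 : ℝ) ≤ N := by exact_mod_cast hN
  have hCN := hC N hN
  have hB1 : 1 ≤ 8 * R ^ 4 * M * (N : ℝ) ^ 2 := by nlinarith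
  have hlog : 0 ≤ Real.log (8 * R ^ 4 * M * (N : ℝ) ^ 2) := Real.log_nonneg hB1
  by_cases hTD : D ≤ T
  swap
  · left
    push Not at hTD
    refine le_trans ?_ hCN
    have h1 : 1 ≤ (40 * R ^ 6 * M) ^ K := one_le_pow₀ hA₀
    have h2 : 1 ≤ (N : ℝ) ^ (2 * K) := one_le_pow₀ (by linarith)
    have h3 : 1 ≤ Real.exp (K * (C₁ * Real.log (8 * R ^ 4 * M * (N : ℝ) ^ 2) ^ C₁)) :=
      Real.one_le_exp (by positivity)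
    have h4 : 1 ≤ (N : ℝ) ^ (2 * K) *
        Real.exp (K * (C₁ * Real.log (8 * R ^ 4 * M * (N : ℝ) ^ 2) ^ C₁)) :=
      one_le_mul_of_one_le_of_one_le h2 h3
    calc T ≤ D := hTD.le
      _ ≤ (40 * R ^ 6 * M) ^ K * D := by nlinarith
      _ ≤ _ := le_mul_of_one_le_right (by linarith) h4
  obtain ⟨τY, hτY, hdY, hYR, hYi⟩ := hloc₁ T Y (by linarith) hY
  obtain ⟨τZ, hτZ, hdZ, hZR, hZi⟩ := hloc₂ T Z (by linarith) hZ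
  have hYZ' := hYZ
  rw [← hτY, ← hτZ, Gal.isogDeg_iff_maps hN₁] at hYZ'
  obtain ⟨g, hgdet, hgmap⟩ := hYZ'
  have hgdet0 : 0 < g.det := by
    rw [hgdet]
    exact_mod_cast hN₁
  have hN₁r : (N₁ : ℝ) ≤ N := by exact_mod_cast hN₁N
  have hNN : (N : ℝ) ≤ (N : ℝ) ^ 2 := by nlinarith
  have hg : ∀ i j, |(g i j : ℝ)| ≤ 2 * R ^ 4 * (N : ℝ) ^ 2 := by
    intro i j
    refine (entries_le hgmap hgdet0 hR (by linarith) (by linarith)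
      (le_of_inv_le hR₁ (by linarith) hYi) (le_of_inv_le hR₂ (by linarith) hZi) i j).trans ?_
    rw [hgdet]
    push_cast
    gcongr
    linarith
  by_cases hzero : (g 0 0 * h 1 0 - g 1 0 * h 0 0 = 0 ∧
      g 0 0 * h 1 1 + g 0 1 * h 1 0 - g 1 0 * h 0 1 - g 1 1 * h 0 0 = 0 ∧
      g 0 1 * h 1 1 - g 1 1 * h 0 1 = 0)
  · right
    obtain ⟨z1, z2, z3⟩ := hzero
    have h1 := comp_zero (Gal.den_ne_zero hgdet0.ne' τY) hgmap z1 z2 z3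
    exact ⟨τY, τZ, h, hdet, h1, hτY.symm, hτZ.symm⟩
  · left
    obtain ⟨b1, b2, b3⟩ := comp_coef hg hM
    have e0 : 4 * (2 * R ^ 4 * (N : ℝ) ^ 2 * M) = 8 * R ^ 4 * M * (N : ℝ) ^ 2 := by ring
    rw [e0] at b1 b2 b3
    have hH3 : 3 ≤ 8 * R ^ 4 * M * (N : ℝ) ^ 2 := by nlinarith
    have hlow := hQ _ _ _ _ hH3 b1 b2 b3 hzero
    set d : ℝ := max ‖(τY : ℂ) - (τβ : ℂ)‖ ‖(τZ : ℂ) - (τγ : ℂ)‖ with hd
    have hd0 : 0 ≤ d := (norm_nonneg _).trans (le_max_left _ _)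
    have hval := comp_val hg hM hR (y := (τY : ℂ)) (z := (τZ : ℂ)) (b := (τβ : ℂ)) (c := (τγ : ℂ))
      (by linarith) (by linarith) (by linarith) hgmap hmap (le_max_left _ _ : _ ≤ d)
      (le_max_right _ _ : _ ≤ d)
    have hval' : 20 * R ^ 2 * (2 * R ^ 4 * (N : ℝ) ^ 2) * M * d =
        (40 * R ^ 6 * M) * (N : ℝ) ^ 2 * d := by ring
    rw [hval'] at hval
    have hdT : d ^ K * T ≤ D := by
      rcases max_choice ‖(τY : ℂ) - (τβ : ℂ)‖ ‖(τZ : ℂ) - (τγ : ℂ)‖ with h1 | h1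
      · rw [hd, h1]
        exact (hdY K (by omega)).trans (by linarith)
      · rw [hd, h1]
        exact (hdZ K (by omega)).trans (by linarith)
    exact (concl hlow (by linarith) (by linarith) hd0 hval hdT).trans hCN

theorem cusp2b {β γ : ℂ} (hβ : ∃ τ : ℍ, jInv τ = β ∧ ¬ NonCM τ) (hγ : QM γ) (C₀ : ℝ)
    {m : ℕ} (hm : 0 < m) : ∃ C : ℕ, ∀ (T : ℝ) (N N₁ : ℕ) (Y Z : ℂ), 1 ≤ T → 3 ≤ N → 0 < N₁ →
    N₁ ≤ N → IsogDeg N₁ Y Z → ‖Y - β‖ ^ m * T ≤ C₀ → ‖Z - γ‖ ^ m * T ≤ C₀ →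
    T ≤ Real.exp (C * Real.log N ^ C) := by
  obtain ⟨τβ, hτβ, hCM⟩ := hβ
  obtain ⟨τγ, hτγ⟩ := Pool.Agent.Hhelper14.ZPL.j_surj γ
  obtain ⟨k₁, D₁, R₁, hD₁, hR₁, hβR, hβi, hloc₁⟩ := loc_pt τβ C₀ hm
  obtain ⟨k₂, D₂, R₂, hD₂, hR₂, hγR, hγi, hloc₂⟩ := loc_pt τγ C₀ hm
  rw [hτβ] at hloc₁
  rw [hτγ] at hloc₂
  rw [NonCM] at hCM
  push Not at hCM
  obtain ⟨a, b, c, habc, hne⟩ := hCM
  have hne' : ¬ (a = 0 ∧ b = 0 ∧ c = 0) := fun h => hne h.1 h.2.1 h.2.2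
  obtain ⟨C₁, hQ⟩ := hγ τγ hτγ
  set H : ℝ := 1 + |(a : ℝ)| + |(b : ℝ)| + |(c : ℝ)| with hHdef
  have ha0 := abs_nonneg (a : ℝ)
  have hb0 := abs_nonneg (b : ℝ)
  have hc0 := abs_nonneg (c : ℝ)
  have haH : |(a : ℝ)| ≤ H := by linarith
  have hbH : |(b : ℝ)| ≤ H := by linarith
  have hcH : |(c : ℝ)| ≤ H := by linarith
  have hH1 : 1 ≤ H := by linarith
  set R : ℝ := R₁ + R₂ with hRdef
  have hR : 1 ≤ R := by linarith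
  have hR0 : 0 ≤ R := by linarith
  have hR8 : 1 ≤ R ^ 8 := one_le_pow₀ hR
  have hR11 : 1 ≤ R ^ 11 := one_le_pow₀ hR
  set D : ℝ := D₁ + D₂ with hDdef
  have hD : 1 ≤ D := by linarith
  set K : ℕ := k₁ + k₂ with hK
  have hA₀ : 1 ≤ 120 * R ^ 11 * H := by nlinarith
  have hB : 1 ≤ 24 * R ^ 8 * H := by nlinarith
  have hA : 1 ≤ (120 * R ^ 11 * H) ^ K * D := by
    have : 1 ≤ (120 * R ^ 11 * H) ^ K := one_le_pow₀ hA₀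
    nlinarith
  obtain ⟨C, hC⟩ := fin_bd hA hB K C₁
  refine ⟨C, fun T N N₁ Y Z hT hN hN₁ hN₁N hYZ hY hZ => ?_⟩
  have hN3 : (3 : ℝ) ≤ N := by exact_mod_cast hN
  have hCN := hC N hN
  have hB1 : 1 ≤ 24 * R ^ 8 * H * (N : ℝ) ^ 2 := by nlinarith
  have hlog : 0 ≤ Real.log (24 * R ^ 8 * H * (N : ℝ) ^ 2) := Real.log_nonneg hB1
  by_cases hTD : D ≤ T
  swap
  · push Not at hTD
    refine le_trans ?_ hCN
    have h1 : 1 ≤ (120 * R ^ 11 * H) ^ K := one_le_pow₀ hA₀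
    have h2 : 1 ≤ (N : ℝ) ^ (2 * K) := one_le_pow₀ (by linarith)
    have h3 : 1 ≤ Real.exp (K * (C₁ * Real.log (24 * R ^ 8 * H * (N : ℝ) ^ 2) ^ C₁)) :=
      Real.one_le_exp (by positivity)
    have h4 : 1 ≤ (N : ℝ) ^ (2 * K) *
        Real.exp (K * (C₁ * Real.log (24 * R ^ 8 * H * (N : ℝ) ^ 2) ^ C₁)) :=
      one_le_mul_of_one_le_of_one_le h2 h3
    calc T ≤ D := hTD.le
      _ ≤ (120 * R ^ 11 * H) ^ K * D := by nlinarith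
      _ ≤ _ := le_mul_of_one_le_right (by linarith) h4
  obtain ⟨τY, hτY, hdY, hYR, hYi⟩ := hloc₁ T Y (by linarith) hY
  obtain ⟨τZ, hτZ, hdZ, hZR, hZi⟩ := hloc₂ T Z (by linarith) hZ
  have hYZ' := hYZ
  rw [← hτY, ← hτZ, Gal.isogDeg_iff_maps hN₁] at hYZ'
  obtain ⟨g, hgdet, hgmap⟩ := hYZ'
  have hgdet0 : 0 < g.det := by
    rw [hgdet]
    exact_mod_cast hN₁
  have hN₁r : (N₁ : ℝ) ≤ N := by exact_mod_cast hN₁N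
  have hg : ∀ i j, |(g i j : ℝ)| ≤ 2 * R ^ 4 * N := by
    intro i j
    refine (entries_le hgmap hgdet0 hR (by linarith) (by linarith)
      (le_of_inv_le hR₁ (by linarith) hYi) (le_of_inv_le hR₂ (by linarith) hZi) i j).trans ?_
    rw [hgdet]
    push_cast
    gcongr
  obtain ⟨a', b', c', hne2, ha', hb', hc', hF⟩ := form_map g hgdet0 a b c hne' haH hbH hcH hg
  have e0 : 6 * H * (2 * R ^ 4 * N) ^ 2 = 24 * R ^ 8 * H * (N : ℝ) ^ 2 := by ring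
  rw [e0] at ha' hb' hc'
  have hH3 : 3 ≤ 24 * R ^ 8 * H * (N : ℝ) ^ 2 := by nlinarith
  have hlow := hQ _ _ _ _ hH3 ha' hb' hc' hne2
  set d : ℝ := max ‖(τY : ℂ) - (τβ : ℂ)‖ ‖(τZ : ℂ) - (τγ : ℂ)‖ with hd
  have hd0 : 0 ≤ d := (norm_nonneg _).trans (le_max_left _ _)
  have hdT : d ^ K * T ≤ D := by
    rcases max_choice ‖(τY : ℂ) - (τβ : ℂ)‖ ‖(τZ : ℂ) - (τγ : ℂ)‖ with h1 | h1
    · rw [hd, h1]
      exact (hdY K (by omega)).trans (by linarith)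
    · rw [hd, h1]
      exact (hdZ K (by omega)).trans (by linarith)
  have hF1 := hF _ _ hgmap
  have v1 : ‖(a : ℂ) * (τY : ℂ) ^ 2 + b * (τY : ℂ) + c‖ ≤ 3 * H * R * d := by
    have v2 := form_sub a b c haH hbH hR (τ := (τY : ℂ)) (τ' := (τβ : ℂ)) (by linarith)
      (by linarith)
    rw [habc, sub_zero] at v2
    refine v2.trans ?_
    gcongr
    exact le_max_left _ _
  have v3 : ‖(g 0 0 : ℂ) - (g 1 0 : ℂ) * (τZ : ℂ)‖ ≤ 2 * R * (2 * R ^ 4 * N) := by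
    have v4 := lin_le (a := -g 1 0) (b := g 0 0) (by push_cast; rw [abs_neg]; exact hg 1 0)
      (hg 0 0) hR (τ := (τZ : ℂ)) (by linarith)
    have v5 : (g 0 0 : ℂ) - (g 1 0 : ℂ) * (τZ : ℂ) = ((-g 1 0 : ℤ) : ℂ) * (τZ : ℂ) + g 0 0 := by
      push_cast
      ring
    rw [v5]
    exact v4
  have v6 : ‖(a' : ℂ) * (τZ : ℂ) ^ 2 + b' * (τZ : ℂ) + c'‖ ≤
      48 * H * R ^ 11 * (N : ℝ) ^ 2 * d := by
    rw [hF1, norm_mul, norm_pow]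
    calc ‖(g 0 0 : ℂ) - (g 1 0 : ℂ) * (τZ : ℂ)‖ ^ 2 *
          ‖(a : ℂ) * (τY : ℂ) ^ 2 + b * (τY : ℂ) + c‖ ≤
          (2 * R * (2 * R ^ 4 * N)) ^ 2 * (3 * H * R * d) := by gcongr
      _ = _ := by ring
  have v7 := form_sub a' b' c' ha' hb' hR (τ := (τγ : ℂ)) (τ' := (τZ : ℂ)) (by linarith)
    (by linarith)
  have v8 : ‖(τγ : ℂ) - (τZ : ℂ)‖ ≤ d := by
    rw [norm_sub_rev]
    exact le_max_right _ _
  have v9 : 3 * (24 * R ^ 8 * H * (N : ℝ) ^ 2) * R * ‖(τγ : ℂ) - (τZ : ℂ)‖ ≤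
      72 * H * R ^ 11 * (N : ℝ) ^ 2 * d := by
    calc 3 * (24 * R ^ 8 * H * (N : ℝ) ^ 2) * R * ‖(τγ : ℂ) - (τZ : ℂ)‖ ≤
        3 * (24 * R ^ 8 * H * (N : ℝ) ^ 2) * R * d := by gcongr
      _ = 72 * H * R ^ 9 * (N : ℝ) ^ 2 * d := by ring
      _ ≤ 72 * H * R ^ 11 * (N : ℝ) ^ 2 * d := by
          have : R ^ 9 ≤ R ^ 11 := pow_le_pow_right₀ hR (by norm_num)
          gcongr
  have v10 : ‖(a' : ℂ) * (τγ : ℂ) ^ 2 + b' * (τγ : ℂ) + c'‖ ≤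
      (120 * R ^ 11 * H) * (N : ℝ) ^ 2 * d := by
    have v11 := norm_add_le (((a' : ℂ) * (τγ : ℂ) ^ 2 + b' * (τγ : ℂ) + c') -
      ((a' : ℂ) * (τZ : ℂ) ^ 2 + b' * (τZ : ℂ) + c'))
      ((a' : ℂ) * (τZ : ℂ) ^ 2 + b' * (τZ : ℂ) + c')
    rw [sub_add_cancel] at v11
    calc _ ≤ _ := v11
      _ ≤ 72 * H * R ^ 11 * (N : ℝ) ^ 2 * d + 48 * H * R ^ 11 * (N : ℝ) ^ 2 * d :=
          add_le_add (v7.trans v9) v6
      _ = _ := by ring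
  exact (concl hlow (by linarith) (by linarith) hd0 v10 hdT).trans hCN

end Pool.Agent.LGO
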