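import Mathlib
import Pool.Agent.LGO.Defs

/-!
# LGO/Q: good cusps
-/

namespace Pool.Agent.LGO

open UpperHalfPlane Pool.Agent.Hhelper14.ZP Filter Topology

/-- `V` has a good point at infinity (with respect to the three coordinates `i`): there is a sequence in
`V` with `x_a → ∞` such that, in some order `a, b, c` of the three coordinates, either
`x_b → ∞`, `x_a ^ k / x_b ^ l → 1` for some `k, l ≥ 1` and `x_c → γ`, `γ` not CM; or
`x_b → β`, `x_c → γ`, `γ` is not CM and `β` is either CM or isogenous to `γ`. -/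
def GoodCusp {n : ℕ} (V : Set (Fin n → ℂ)) (i : Fin 3 → Fin n) : Prop :=
  ∃ (P : ℕ → Fin n → ℂ) (e : Equiv.Perm (Fin 3)) (γ : ℂ), (∀ m, P m ∈ V) ∧
    Tendsto (fun m => ‖P m (i (e 0))‖) atTop atTop ∧
    Tendsto (fun m => P m (i (e 2))) atTop (𝓝 γ) ∧ (∀ τ : ℍ, jInv τ = γ → NonCM τ) ∧
    ((∃ k l : ℕ, 0 < k ∧ 0 < l ∧ Tendsto (fun m => ‖P m (i (e 1))‖) atTop atTop ∧
        Tendsto (fun m => P m (i (e 0)) ^ k / P m (i (e 1)) ^ l) atTop (𝓝 1)) ∨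
      ∃ β : ℂ, Tendsto (fun m => P m (i (e 1))) atTop (𝓝 β) ∧
        ((∃ N : ℕ, 0 < N ∧ IsogDeg N β γ) ∨ ∃ τ : ℍ, jInv τ = β ∧ ¬ NonCM τ))

end Pool.Agent.LGO
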