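import Mathlib
import Pool.Agent.LGO.Q.GoodCusp
import Pool.Agent.LGO.Q.Cusp1
import Pool.Agent.LGO.Q.Cusp2
import Pool.Agent.LGO.Q.Quad
import Pool.Agent.LGO.Gal.Inv
import Pool.Agent.LGO.Gal.Fin
import Pool.Agent.LGO.G.Geo
import Pool.Agent.LGO.G.RelF

/-!
# LGO/Q: at a good cusp the function `F` is bounded by `exp (C (log N) ^ C)` at all places

Let `P, e, γ` be as in `GoodCusp`, `F` from `geo` (for `a = e 0`).  `γ` (and `β` in the second case) is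
algebraic (`limit_algebraic`), so an element of `Qb`.  `i` is injective: if `i a = i b`, `a ≠ b`, then `hmod` for
`g = 1` contradicts the surjectivity of `jInv`.  `NonCM` and automorphisms: `not_isCMVal_jInv`,
`isCMVal_map_iff` (folder `Gal`): `∀ τ, jInv τ = γ → NonCM τ` iff `¬ IsCMVal γ` (`γ = jInv τ₀` for some `τ₀`).

First case.  Use the second part of `geo` for the pairs `(N, D)`: `(1, X (e 0))`, `(1, X (e 1))`,
`(X (e 2) - C γ, 1)`, `(X (e 0) ^ k - X (e 1) ^ l, X (e 1) ^ l)`: all the quotients tend to `0` along `P m`.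
The four exponents `m_j` can be replaced by their product `m`: raise the inequality to the power `m / m_j`
and use `1 ≤ ‖σ F‖`, so `‖σ F‖ ≤ ‖σ F‖ ^ r`.
For an automorphism `σ` let `γ' = σ γ`: there are finitely many such `γ'` (roots of `minpoly ℚ γ`), each is
algebraic and not CM, so `QM γ'` (`quad`) and `cusp1` applies with a constant `C(γ')`; let `C`
be larger than all of them and all the other constants.  (`C₀` as in `cusp1` is a common constant.)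
Let `E = {x ∈ V | IsogDeg (k l) (x (i (e 0))) (x (i (e 1)))}`, finite (`finite_isogDeg` in `Gal/Fin.lean`).
For `x ∈ V \ E` let `T = ‖σ (F x)‖`; if `T` is less than the constants we are done.  Otherwise the hypotheses
of `cusp1` hold for `X = σ x_(e 0)`, `Y = σ x_(e 1)`, `Z = σ x_(e 2)` and the isogeny degrees given by the
hypothesis (`IsogDeg.map` in `Gal/Inv.lean`), and `IsogDeg (k l) X Y` is impossible (`isogDeg_map_iff`).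

Second case, `β` isogenous to `γ`: `β` is not CM (`IsogDeg.isCMVal_iff`), `QM (σ β)`; pairs
`(X (e 1) - C β, 1)`, `(X (e 2) - C γ, 1)`; `cusp2a` for the finitely many pairs `(σ β, σ γ)`
(`IsogDeg N (σ β) (σ γ)` by `IsogDeg.map`); `E = {x ∈ V | IsogDeg N (x (i (e 1))) (x (i (e 2)))}`.
Second case, `β` CM: `σ β` is CM (`IsCMVal.map`), `cusp2b`, `E = ∅`.
-/

namespace Pool.Agent.LGO

open UpperHalfPlane MvPolynomial Filter Topology Pool.Agent.Hhelper14.ZPL Pool.Agent.Hhelper14.ZP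

/-- the value is not CM -/
private theorem Arch_notCM {γ : ℂ} : (∀ τ : ℍ, jInv τ = γ → NonCM τ) ↔ ¬ IsCMVal γ := by
  constructor
  · intro h
    obtain ⟨τ₀, rfl⟩ := j_surj γ
    exact (not_isCMVal_jInv τ₀).mpr (h τ₀ rfl)
  · rintro h τ rfl
    exact (not_isCMVal_jInv τ).mp h

/-- the value is CM -/
private theorem Arch_CM {β : ℂ} : (∃ τ : ℍ, jInv τ = β ∧ ¬ NonCM τ) ↔ IsCMVal β := by
  rw [← not_iff_not, ← Arch_notCM]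
  simp only [not_exists, not_and, not_not]

private theorem Arch_log {N : ℕ} (hN : 3 ≤ N) : 1 ≤ Real.log N := by
  rw [Real.le_log_iff_exp_le (by positivity)]
  have h1 := Real.exp_one_lt_d9
  have h2 : (3 : ℝ) ≤ N := by exact_mod_cast hN
  linarith

/-- the bound is monotone in the constant -/
private theorem Arch_mono {a b N : ℕ} (hab : a ≤ b) (hN : 3 ≤ N) :
    Real.exp (a * Real.log N ^ a) ≤ Real.exp (b * Real.log N ^ b) := by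
  have h1 := Arch_log hN
  apply Real.exp_le_exp.mpr
  have h2 : (a : ℝ) ≤ b := by exact_mod_cast hab
  have h3 : Real.log N ^ a ≤ Real.log N ^ b := pow_le_pow_right₀ h1 hab
  exact mul_le_mul h2 h3 (by positivity) (by positivity)

/-- the bound is larger than the constant -/
private theorem Arch_const {a N : ℕ} (hN : 3 ≤ N) : (a : ℝ) ≤ Real.exp (a * Real.log N ^ a) := by
  have h1 := Arch_log hN
  have h2 : (a : ℝ) ≤ a * Real.log N ^ a := by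
    have h3 : 1 ≤ Real.log N ^ a := one_le_pow₀ h1
    nlinarith [(Nat.cast_nonneg a : (0 : ℝ) ≤ a)]
  have h4 := Real.add_one_le_exp ((a : ℝ) * Real.log N ^ a)
  linarith

/-- finitely many constants -/
private theorem Arch_unif {ι : Type} {S : Set ι} (hS : S.Finite) {p : ι → ℕ → Prop}
    (hp : ∀ s a b, a ≤ b → p s a → p s b) (h : ∀ s ∈ S, ∃ C, p s C) : ∃ C, ∀ s ∈ S, p s C := by
  classical
  choose! C hC using h
  refine ⟨hS.toFinset.sup C, fun s hs => ?_⟩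
  exact hp s (C s) _ (Finset.le_sup (hS.mem_toFinset.mpr hs)) (hC s hs)

/-- the images of an algebraic number -/
private theorem Arch_alg {γ : ℂ} (hγ : IsAlgebraic ℚ γ) (σ : ℂ ≃+* ℂ) : IsAlgebraic ℚ (σ γ) := by
  have h : (σ γ) = (σ.toRingHom.toRatAlgHom) γ := rfl
  rw [h]
  exact hγ.algHom _

private theorem Arch_finite {γ : ℂ} (hγ : IsAlgebraic ℚ γ) :
    {x : ℂ | ∃ σ : ℂ ≃+* ℂ, σ γ = x}.Finite := by
  refine ((minpoly ℚ γ).rootSet_finite ℂ).subset ?_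
  rintro x ⟨σ, rfl⟩
  rw [Polynomial.mem_rootSet]
  refine ⟨minpoly.ne_zero hγ.isIntegral, ?_⟩
  have h : (σ γ) = (σ.toRingHom.toRatAlgHom) γ := rfl
  rw [h, Polynomial.aeval_algHom_apply, minpoly.aeval, map_zero]

/-- common constants for finitely many inequalities -/
private theorem Arch_common {ι Ω : Type} [Fintype ι] (T : Ω → ℝ) (A B : ι → Ω → ℝ)
    (hA : ∀ j ω, 0 ≤ A j ω) (hB : ∀ j ω, 0 ≤ B j ω)
    (h : ∀ j, ∃ (K : ℝ) (m : ℕ), 0 < K ∧ 0 < m ∧ ∀ ω, K ≤ T ω →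
      A j ω ^ m * T ω ≤ K * B j ω ^ m) :
    ∃ (C₀ : ℝ) (m : ℕ), 0 < m ∧ ∀ ω, C₀ ≤ T ω →
      1 ≤ T ω ∧ ∀ j, A j ω ^ m * T ω ≤ C₀ * B j ω ^ m := by
  classical
  choose K m hK hm hKm using h
  set M : ℕ := ∏ j, m j with hM
  have hM0 : 0 < M := Finset.prod_pos fun j _ => hm j
  set C₀ : ℝ := 1 + ∑ j, (max 1 (K j)) ^ M with hC₀
  have hnn : ∀ j, 0 ≤ (max 1 (K j)) ^ M := fun j =>
    pow_nonneg (le_trans zero_le_one (le_max_left _ _)) _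
  have h1 : ∀ j, (max 1 (K j)) ^ M ≤ C₀ := by
    intro j
    have := Finset.single_le_sum (f := fun j => (max 1 (K j)) ^ M) (fun j _ => hnn j)
      (Finset.mem_univ j)
    linarith
  refine ⟨C₀, M, hM0, fun ω hω => ?_⟩
  have hT1 : 1 ≤ T ω := by
    have : 0 ≤ ∑ j, (max 1 (K j)) ^ M := Finset.sum_nonneg fun j _ => hnn j
    linarith
  refine ⟨hT1, fun j => ?_⟩
  obtain ⟨r, hr⟩ : m j ∣ M := Finset.dvd_prod_of_mem m (Finset.mem_univ j)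
  have hr0 : r ≠ 0 := by
    rintro rfl
    rw [mul_zero] at hr
    omega
  have h2 : K j ≤ T ω := by
    have h3 : K j ≤ max 1 (K j) := le_max_right _ _
    have h4 : max 1 (K j) ≤ (max 1 (K j)) ^ M := le_self_pow₀ (le_max_left _ _) hM0.ne'
    have := h1 j
    linarith
  have h5 := hKm j ω h2
  have h6 : (A j ω ^ m j * T ω) ^ r ≤ (K j * B j ω ^ m j) ^ r :=
    pow_le_pow_left₀ (mul_nonneg (pow_nonneg (hA j ω) _) (by linarith)) h5 r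
  rw [mul_pow, mul_pow, ← pow_mul, ← pow_mul, ← hr] at h6
  have h7 : T ω ≤ T ω ^ r := le_self_pow₀ hT1 hr0
  have h8 : K j ^ r ≤ C₀ := by
    have h9 : K j ^ r ≤ (max 1 (K j)) ^ r := pow_le_pow_left₀ (hK j).le (le_max_right _ _) r
    have h10 : (max 1 (K j)) ^ r ≤ (max 1 (K j)) ^ M :=
      pow_le_pow_right₀ (le_max_left _ _) (by
        rw [hr]
        exact Nat.le_mul_of_pos_left r (hm j))
    have := h1 j
    linarith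
  calc A j ω ^ M * T ω ≤ A j ω ^ M * T ω ^ r :=
        mul_le_mul_of_nonneg_left h7 (pow_nonneg (hA j ω) _)
    _ ≤ K j ^ r * B j ω ^ M := h6
    _ ≤ C₀ * B j ω ^ M := mul_le_mul_of_nonneg_right h8 (pow_nonneg (hB j ω) _)

variable {n : ℕ} {V : Set (Fin n → ℂ)}

/-- `geo` for several pairs with common constants -/
private theorem Arch_geo (hV : Pool.Agent.Hhelper14.ZPL.IsIrredClosed V)
    (hVk : KClosed V) (hdim : Pool.Agent.Hhelper14.ZPL.dim V = 1) (i : Fin 3 → Fin n)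
    (P : ℕ → Fin n → ℂ) (hP : ∀ m, P m ∈ V) (a : Fin 3)
    (ha : Tendsto (fun m => ‖P m (i a)‖) atTop atTop) :
    ∃ F : MvPolynomial (Fin 3) Qb, (∀ c : ℂ, ∃ x ∈ V, (aeval (x ∘ i) F : ℂ) ≠ c) ∧
      ∀ (k : ℕ) (N D : Fin k → MvPolynomial (Fin 3) Qb),
        (∀ j, ∃ x ∈ V, (aeval (x ∘ i) (D j) : ℂ) ≠ 0) →
        (∀ j, Tendsto (fun m => (aeval (P m ∘ i) (N j) / aeval (P m ∘ i) (D j) : ℂ)) atTop
          (𝓝 0)) →
        ∃ (C₀ : ℝ) (m : ℕ), 0 < m ∧ ∀ (σ : ℂ ≃+* ℂ), ∀ x ∈ V,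
          C₀ ≤ ‖σ (aeval (x ∘ i) F : ℂ)‖ → 1 ≤ ‖σ (aeval (x ∘ i) F : ℂ)‖ ∧
          ∀ j, ‖σ (aeval (x ∘ i) (N j) : ℂ)‖ ^ m * ‖σ (aeval (x ∘ i) F : ℂ)‖ ≤
            C₀ * ‖σ (aeval (x ∘ i) (D j) : ℂ)‖ ^ m := by
  obtain ⟨F, hF, hgeo⟩ := geo hV hVk hdim i P hP a ha
  refine ⟨F, hF, fun k N D hD hND => ?_⟩
  have h1 := Arch_common (ι := Fin k) (Ω := (ℂ ≃+* ℂ) × V)
    (fun ω => ‖ω.1 (aeval (ω.2.1 ∘ i) F : ℂ)‖)
    (fun j ω => ‖ω.1 (aeval (ω.2.1 ∘ i) (N j) : ℂ)‖)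
    (fun j ω => ‖ω.1 (aeval (ω.2.1 ∘ i) (D j) : ℂ)‖)
    (fun j ω => norm_nonneg _) (fun j ω => norm_nonneg _) (fun j => by
      obtain ⟨C, m, hC, hm, h⟩ := hgeo (N j) (D j) (hD j) (hND j)
      exact ⟨C, m, hC, hm, fun ω hω => h ω.1 ω.2.1 ω.2.2 hω⟩)
  obtain ⟨C₀, m, hm, h⟩ := h1
  exact ⟨C₀, m, hm, fun σ x hx hσ => h (σ, ⟨x, hx⟩) hσ⟩

/-- the last step: small values of `F` -/
private theorem Arch_end {i : Fin 3 → Fin n} {F : MvPolynomial (Fin 3) Qb}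
    (hF : ∀ c : ℂ, ∃ x ∈ V, (aeval (x ∘ i) F : ℂ) ≠ c) {E : Set (Fin n → ℂ)} (hE : E.Finite)
    (C₀ : ℝ) (C₁ : ℕ) (h : ∀ x ∈ V, x ∉ E → ∀ N : ℕ, 3 ≤ N →
        (∀ a b : Fin 3, a ≠ b → ∃ N' : ℕ, 0 < N' ∧ N' ≤ N ∧ IsogDeg N' (x (i a)) (x (i b))) →
        ∀ σ : ℂ ≃+* ℂ, C₀ ≤ ‖σ (aeval (x ∘ i) F : ℂ)‖ →
        ‖σ (aeval (x ∘ i) F : ℂ)‖ ≤ Real.exp (C₁ * Real.log N ^ C₁)) :
    ∃ (F : MvPolynomial (Fin 3) Qb) (E : Set (Fin n → ℂ)) (C : ℕ),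
      (∀ c : ℂ, ∃ x ∈ V, (aeval (x ∘ i) F : ℂ) ≠ c) ∧ E.Finite ∧
      ∀ x ∈ V, x ∉ E → ∀ N : ℕ, 3 ≤ N →
        (∀ a b : Fin 3, a ≠ b → ∃ N' : ℕ, 0 < N' ∧ N' ≤ N ∧ IsogDeg N' (x (i a)) (x (i b))) →
        ∀ σ : ℂ ≃+* ℂ, ‖σ (aeval (x ∘ i) F : ℂ)‖ ≤ Real.exp (C * Real.log N ^ C) := by
  refine ⟨F, E, C₁ + ⌈C₀⌉₊, hF, hE, fun x hx hxE N hN hisog σ => ?_⟩
  rcases le_or_gt C₀ ‖σ (aeval (x ∘ i) F : ℂ)‖ with h1 | h1
  · exact (h x hx hxE N hN hisog σ h1).trans (Arch_mono (Nat.le_add_right _ _) hN)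
  · have h2 : (C₀ : ℝ) ≤ ((C₁ + ⌈C₀⌉₊ : ℕ) : ℝ) := by
      have := Nat.le_ceil C₀
      push_cast
      have h3 : (0 : ℝ) ≤ C₁ := Nat.cast_nonneg _
      linarith
    exact h1.le.trans (h2.trans (Arch_const hN))

private theorem Arch_inv {P : ℕ → Fin n → ℂ} {i : Fin 3 → Fin n} {a : Fin 3}
    (ha : Tendsto (fun m => ‖P m (i a)‖) atTop atTop) :
    Tendsto (fun m => (aeval (P m ∘ i) (1 : MvPolynomial (Fin 3) Qb) /
      aeval (P m ∘ i) (X a : MvPolynomial (Fin 3) Qb) : ℂ)) atTop (𝓝 0) := by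
  have hinv : Tendsto (fun m => (P m (i a))⁻¹) atTop (𝓝 0) :=
    tendsto_inv₀_cobounded.comp (tendsto_norm_atTop_iff_cobounded.1 ha)
  refine hinv.congr fun m => ?_
  rw [map_one, aeval_X, Function.comp_apply, one_div]

private theorem Arch_ne {P : ℕ → Fin n → ℂ} (hP : ∀ m, P m ∈ V) {i : Fin 3 → Fin n} {a : Fin 3}
    (ha : Tendsto (fun m => ‖P m (i a)‖) atTop atTop) : ∃ x ∈ V, x (i a) ≠ 0 := by
  obtain ⟨m, hm⟩ := (ha.eventually_gt_atTop 0).exists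
  exact ⟨P m, hP m, norm_pos_iff.1 hm⟩

private theorem Arch_sub {P : ℕ → Fin n → ℂ} {i : Fin 3 → Fin n} {a : Fin 3} (γ : Qb)
    (hc : Tendsto (fun m => P m (i a)) atTop (𝓝 (γ : ℂ))) :
    Tendsto (fun m => (aeval (P m ∘ i) (X a - C γ : MvPolynomial (Fin 3) Qb) /
      aeval (P m ∘ i) (1 : MvPolynomial (Fin 3) Qb) : ℂ)) atTop (𝓝 0) := by
  have h1 : Tendsto (fun m => P m (i a) - (γ : ℂ)) atTop (𝓝 ((γ : ℂ) - γ)) :=
    hc.sub tendsto_const_nhds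
  rw [sub_self] at h1
  refine h1.congr fun m => ?_
  rw [map_one, map_sub, aeval_X, aeval_C, Function.comp_apply, div_one]
  rfl

private theorem Arch_quot {P : ℕ → Fin n → ℂ} {i : Fin 3 → Fin n} {a b : Fin 3} {k l : ℕ}
    (hb : Tendsto (fun m => ‖P m (i b)‖) atTop atTop)
    (hq : Tendsto (fun m => P m (i a) ^ k / P m (i b) ^ l) atTop (𝓝 1)) :
    Tendsto (fun m => (aeval (P m ∘ i) (X a ^ k - X b ^ l : MvPolynomial (Fin 3) Qb) /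
      aeval (P m ∘ i) (X b ^ l : MvPolynomial (Fin 3) Qb) : ℂ)) atTop (𝓝 0) := by
  have h1 : Tendsto (fun m => P m (i a) ^ k / P m (i b) ^ l - 1) atTop (𝓝 ((1 : ℂ) - 1)) :=
    hq.sub tendsto_const_nhds
  rw [sub_self] at h1
  refine h1.congr' ?_
  filter_upwards [hb.eventually_gt_atTop 0] with m hm
  have hne : P m (i b) ≠ 0 := norm_pos_iff.1 hm
  rw [map_sub, map_pow, map_pow, aeval_X, aeval_X, Function.comp_apply, Function.comp_apply,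
    sub_div, div_self (pow_ne_zero _ hne)]

private theorem Arch_inj {i : Fin 3 → Fin n} {a b : Fin 3}
    (hmod : ∀ g : GL (Fin 2) ℚ, 0 < g.det.val →
      ∃ x ∈ V, ¬ ∃ τ : ℍ, x (i a) = jInv τ ∧ x (i b) = jInv (gact g τ)) : i a ≠ i b := by
  intro hab
  obtain ⟨x, -, hx⟩ := hmod 1 (by simp)
  obtain ⟨τ, hτ⟩ := j_surj (x (i a))
  exact hx ⟨τ, hτ.symm, by rw [gact_one, ← hab]; exact hτ.symm⟩

private theorem Arch_qm {γ : ℂ} (hγ : IsAlgebraic ℚ γ) (hcm : ∀ τ : ℍ, jInv τ = γ → NonCM τ)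
    (σ : ℂ ≃+* ℂ) : QM (σ γ) := by
  apply quad (Arch_alg hγ σ)
  rw [Arch_notCM, isCMVal_map_iff]
  exact Arch_notCM.mp hcm

private theorem Arch_mem {γ : ℂ} (hγ : IsAlgebraic ℚ γ) : γ ∈ Qb := by
  rw [mem_algebraicClosure_iff]
  exact hγ

private theorem Arch_val1 (y : Fin 3 → ℂ) (σ : ℂ ≃+* ℂ) :
    σ (aeval y (1 : MvPolynomial (Fin 3) Qb) : ℂ) = 1 := by
  rw [map_one, map_one]

private theorem Arch_valsub (x : Fin n → ℂ) (i : Fin 3 → Fin n) (σ : ℂ ≃+* ℂ) (a : Fin 3)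
    (γ : Qb) : σ (aeval (x ∘ i) (X a - C γ : MvPolynomial (Fin 3) Qb) : ℂ) =
      σ (x (i a)) - σ (γ : ℂ) := by
  rw [map_sub, aeval_X, aeval_C, Function.comp_apply, map_sub]
  rfl

/-- two coordinates tend to infinity -/
private theorem Arch_case1 (hV : Pool.Agent.Hhelper14.ZPL.IsIrredClosed V)
    (hVk : KClosed V) (hdim : Pool.Agent.Hhelper14.ZPL.dim V = 1) (i : Fin 3 → Fin n)
    (hmod : ∀ a b, a ≠ b → ∀ g : GL (Fin 2) ℚ, 0 < g.det.val →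
      ∃ x ∈ V, ¬ ∃ τ : ℍ, x (i a) = jInv τ ∧ x (i b) = jInv (gact g τ))
    {P : ℕ → Fin n → ℂ} {e : Equiv.Perm (Fin 3)} {γ : ℂ} (hP : ∀ m, P m ∈ V)
    (ha : Tendsto (fun m => ‖P m (i (e 0))‖) atTop atTop)
    (hc : Tendsto (fun m => P m (i (e 2))) atTop (𝓝 γ)) (hcm : ∀ τ : ℍ, jInv τ = γ → NonCM τ)
    {k l : ℕ} (hk : 0 < k) (hl : 0 < l)
    (hb : Tendsto (fun m => ‖P m (i (e 1))‖) atTop atTop)
    (hq : Tendsto (fun m => P m (i (e 0)) ^ k / P m (i (e 1)) ^ l) atTop (𝓝 1)) :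
    ∃ (F : MvPolynomial (Fin 3) Qb) (E : Set (Fin n → ℂ)) (C : ℕ),
      (∀ c : ℂ, ∃ x ∈ V, (aeval (x ∘ i) F : ℂ) ≠ c) ∧ E.Finite ∧
      ∀ x ∈ V, x ∉ E → ∀ N : ℕ, 3 ≤ N →
        (∀ a b : Fin 3, a ≠ b → ∃ N' : ℕ, 0 < N' ∧ N' ≤ N ∧ IsogDeg N' (x (i a)) (x (i b))) →
        ∀ σ : ℂ ≃+* ℂ, ‖σ (aeval (x ∘ i) F : ℂ)‖ ≤ Real.exp (C * Real.log N ^ C) := by
  have hγ : IsAlgebraic ℚ γ := limit_algebraic hV hVk hdim i P hP (e 0) (e 2) ha hc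
  obtain ⟨γ', hγ'⟩ : ∃ γ' : Qb, (γ' : ℂ) = γ := ⟨⟨γ, Arch_mem hγ⟩, rfl⟩
  have h01 : e 0 ≠ e 1 := fun h => absurd (e.injective h) (by decide)
  have h02 : e 0 ≠ e 2 := fun h => absurd (e.injective h) (by decide)
  obtain ⟨F, hF, hgeo⟩ := Arch_geo hV hVk hdim i P hP (e 0) ha
  obtain ⟨xa, hxa, hxa'⟩ := Arch_ne hP ha
  obtain ⟨xb, hxb, hxb'⟩ := Arch_ne hP hb
  obtain ⟨C₀, m, hm, h0⟩ := hgeo 4 ![1, 1, X (e 2) - C γ', X (e 0) ^ k - X (e 1) ^ l]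
    ![X (e 0), X (e 1), 1, X (e 1) ^ l] (by
      intro j
      fin_cases j
      · exact ⟨xa, hxa, by simpa using hxa'⟩
      · exact ⟨xb, hxb, by simpa using hxb'⟩
      · exact ⟨xa, hxa, by simp⟩
      · exact ⟨xb, hxb, by simpa using fun h => absurd h hxb'⟩) (by
      intro j
      fin_cases j
      · exact Arch_inv ha
      · exact Arch_inv hb
      · exact Arch_sub γ' (by rw [hγ']; exact hc)
      · exact Arch_quot hb hq)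
  obtain ⟨C₁, hC₁⟩ := Arch_unif (Arch_finite hγ) (p := fun s C => ∀ (T : ℝ) (N N₁ N₂ : ℕ)
    (X Y Z : ℂ), 1 ≤ T → 3 ≤ N → 0 < N₁ → N₁ ≤ N → 0 < N₂ → N₂ ≤ N → IsogDeg N₁ X Y →
    IsogDeg N₂ X Z → T ≤ C₀ * ‖X‖ ^ m → T ≤ C₀ * ‖Y‖ ^ m → ‖Z - s‖ ^ m * T ≤ C₀ →
    ‖X ^ k - Y ^ l‖ ^ m * T ≤ C₀ * ‖Y ^ l‖ ^ m →
    T ≤ Real.exp (C * Real.log N ^ C) ∨ IsogDeg (k * l) X Y) (by
      intro s a b hab h T N N₁ N₂ X Y Z h1 h2 h3 h4 h5 h6 h7 h8 h9 h10 h11 h12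
      rcases h T N N₁ N₂ X Y Z h1 h2 h3 h4 h5 h6 h7 h8 h9 h10 h11 h12 with h13 | h13
      · exact Or.inl (h13.trans (Arch_mono hab h2))
      · exact Or.inr h13) (by
      rintro s ⟨σ, rfl⟩
      exact cusp1 (Arch_qm hγ hcm σ) hk hl C₀ hm)
  refine Arch_end hF (finite_isogDeg hV hdim (Arch_inj (hmod _ _ h01)) (hmod _ _ h01)
    (Nat.mul_pos hk hl)) C₀ C₁ ?_
  intro x hx hxE N hN hisog σ hσ
  obtain ⟨hT1, hj⟩ := h0 σ x hx hσ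
  have h1 : ‖σ (aeval (x ∘ i) F : ℂ)‖ ≤ C₀ * ‖σ (x (i (e 0)))‖ ^ m := by
    simpa using hj 0
  have h2 : ‖σ (aeval (x ∘ i) F : ℂ)‖ ≤ C₀ * ‖σ (x (i (e 1)))‖ ^ m := by
    simpa using hj 1
  have h3 : ‖σ (x (i (e 2))) - σ γ‖ ^ m * ‖σ (aeval (x ∘ i) F : ℂ)‖ ≤ C₀ := by
    have h := hj 2
    simp only [Matrix.cons_val] at h
    rw [Arch_val1, Arch_valsub, norm_one, one_pow, mul_one] at h
    rw [← hγ']
    exact h
  have h4 : ‖σ (x (i (e 0))) ^ k - σ (x (i (e 1))) ^ l‖ ^ m * ‖σ (aeval (x ∘ i) F : ℂ)‖ ≤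
      C₀ * ‖σ (x (i (e 1))) ^ l‖ ^ m := by
    have h := hj 3
    simp only [Matrix.cons_val] at h
    rw [map_sub, map_pow, map_pow, aeval_X, aeval_X, Function.comp_apply, Function.comp_apply,
      map_sub, map_pow, map_pow] at h
    exact h
  obtain ⟨N₁, hN₁, hN₁', hI₁⟩ := hisog (e 0) (e 1) h01
  obtain ⟨N₂, hN₂, hN₂', hI₂⟩ := hisog (e 0) (e 2) h02
  rcases hC₁ (σ γ) ⟨σ, rfl⟩ _ N N₁ N₂ (σ (x (i (e 0)))) (σ (x (i (e 1)))) (σ (x (i (e 2)))) hT1 hN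
    hN₁ hN₁' hN₂ hN₂' (hI₁.map σ.toRingHom hN₁) (hI₂.map σ.toRingHom hN₂) h1 h2 h3 h4 with h | h
  · exact h
  · exact absurd ⟨hx, (isogDeg_map_iff σ (Nat.mul_pos hk hl)).mp h⟩ hxE

/-- one coordinate tends to infinity -/
private theorem Arch_case2 (hV : Pool.Agent.Hhelper14.ZPL.IsIrredClosed V)
    (hVk : KClosed V) (hdim : Pool.Agent.Hhelper14.ZPL.dim V = 1) (i : Fin 3 → Fin n)
    {P : ℕ → Fin n → ℂ} {e : Equiv.Perm (Fin 3)} {β γ : ℂ} (hP : ∀ m, P m ∈ V)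
    (ha : Tendsto (fun m => ‖P m (i (e 0))‖) atTop atTop)
    (hb : Tendsto (fun m => P m (i (e 1))) atTop (𝓝 β))
    (hc : Tendsto (fun m => P m (i (e 2))) atTop (𝓝 γ)) :
    ∃ F : MvPolynomial (Fin 3) Qb, (∀ c : ℂ, ∃ x ∈ V, (aeval (x ∘ i) F : ℂ) ≠ c) ∧
      ∃ (C₀ : ℝ) (m : ℕ), 0 < m ∧ ∀ (σ : ℂ ≃+* ℂ), ∀ x ∈ V,
          C₀ ≤ ‖σ (aeval (x ∘ i) F : ℂ)‖ → 1 ≤ ‖σ (aeval (x ∘ i) F : ℂ)‖ ∧
          ‖σ (x (i (e 1))) - σ β‖ ^ m * ‖σ (aeval (x ∘ i) F : ℂ)‖ ≤ C₀ ∧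
          ‖σ (x (i (e 2))) - σ γ‖ ^ m * ‖σ (aeval (x ∘ i) F : ℂ)‖ ≤ C₀ := by
  have hβ : IsAlgebraic ℚ β := limit_algebraic hV hVk hdim i P hP (e 0) (e 1) ha hb
  have hγ : IsAlgebraic ℚ γ := limit_algebraic hV hVk hdim i P hP (e 0) (e 2) ha hc
  obtain ⟨β', hβ'⟩ : ∃ β' : Qb, (β' : ℂ) = β := ⟨⟨β, Arch_mem hβ⟩, rfl⟩
  obtain ⟨γ', hγ'⟩ : ∃ γ' : Qb, (γ' : ℂ) = γ := ⟨⟨γ, Arch_mem hγ⟩, rfl⟩
  obtain ⟨F, hF, hgeo⟩ := Arch_geo hV hVk hdim i P hP (e 0) ha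
  obtain ⟨C₀, m, hm, h0⟩ := hgeo 2 ![X (e 1) - C β', X (e 2) - C γ'] ![1, 1] (by
      intro j
      fin_cases j
      · exact ⟨P 0, hP 0, by simp⟩
      · exact ⟨P 0, hP 0, by simp⟩) (by
      intro j
      fin_cases j
      · exact Arch_sub β' (by rw [hβ']; exact hb)
      · exact Arch_sub γ' (by rw [hγ']; exact hc))
  refine ⟨F, hF, C₀, m, hm, fun σ x hx hσ => ?_⟩
  obtain ⟨hT1, hj⟩ := h0 σ x hx hσ
  refine ⟨hT1, ?_, ?_⟩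
  · have h := hj 0
    simp only [Matrix.cons_val] at h
    rw [Arch_val1, Arch_valsub, norm_one, one_pow, mul_one] at h
    rw [← hβ']
    exact h
  · have h := hj 1
    simp only [Matrix.cons_val] at h
    rw [Arch_val1, Arch_valsub, norm_one, one_pow, mul_one] at h
    rw [← hγ']
    exact h

theorem good_arch {n : ℕ} {V : Set (Fin n → ℂ)} (hV : Pool.Agent.Hhelper14.ZPL.IsIrredClosed V)
    (hVk : KClosed V) (hdim : Pool.Agent.Hhelper14.ZPL.dim V = 1) (i : Fin 3 → Fin n)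
    (hmod : ∀ a b, a ≠ b → ∀ g : GL (Fin 2) ℚ, 0 < g.det.val →
      ∃ x ∈ V, ¬ ∃ τ : ℍ, x (i a) = jInv τ ∧ x (i b) = jInv (gact g τ))
    (hg : GoodCusp V i) :
    ∃ (F : MvPolynomial (Fin 3) Qb) (E : Set (Fin n → ℂ)) (C : ℕ),
      (∀ c : ℂ, ∃ x ∈ V, (aeval (x ∘ i) F : ℂ) ≠ c) ∧ E.Finite ∧
      ∀ x ∈ V, x ∉ E → ∀ N : ℕ, 3 ≤ N →
        (∀ a b : Fin 3, a ≠ b → ∃ N' : ℕ, 0 < N' ∧ N' ≤ N ∧ IsogDeg N' (x (i a)) (x (i b))) →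
        ∀ σ : ℂ ≃+* ℂ, ‖σ (aeval (x ∘ i) F : ℂ)‖ ≤ Real.exp (C * Real.log N ^ C) := by
  obtain ⟨P, e, γ, hP, ha, hc, hcm, ⟨k, l, hk, hl, hb, hq⟩ | ⟨β, hb, hβ⟩⟩ := hg
  · exact Arch_case1 hV hVk hdim i hmod hP ha hc hcm hk hl hb hq
  have hβa : IsAlgebraic ℚ β := limit_algebraic hV hVk hdim i P hP (e 0) (e 1) ha hb
  have hγa : IsAlgebraic ℚ γ := limit_algebraic hV hVk hdim i P hP (e 0) (e 2) ha hc
  have h12 : e 1 ≠ e 2 := fun h => absurd (e.injective h) (by decide)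
  have hS : {p : ℂ × ℂ | ∃ σ : ℂ ≃+* ℂ, (σ β, σ γ) = p}.Finite := by
    refine ((Arch_finite hβa).prod (Arch_finite hγa)).subset ?_
    rintro p ⟨σ, rfl⟩
    exact ⟨⟨σ, rfl⟩, ⟨σ, rfl⟩⟩
  obtain ⟨F, hF, C₀, m, hm, h0⟩ := Arch_case2 hV hVk hdim i hP ha hb hc
  rcases hβ with ⟨N₀, hN₀, hβγ⟩ | hβ
  · have hβcm : ∀ τ : ℍ, jInv τ = β → NonCM τ := by
      rw [Arch_notCM, hβγ.isCMVal_iff hN₀]
      exact Arch_notCM.mp hcm
    obtain ⟨C₁, hC₁⟩ := Arch_unif hS (p := fun s C => ∀ (T : ℝ) (N N₁ : ℕ)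
      (Y Z : ℂ), 1 ≤ T → 3 ≤ N → 0 < N₁ →
      N₁ ≤ N → IsogDeg N₁ Y Z → ‖Y - s.1‖ ^ m * T ≤ C₀ → ‖Z - s.2‖ ^ m * T ≤ C₀ →
      T ≤ Real.exp (C * Real.log N ^ C) ∨ IsogDeg N₀ Y Z) (by
        intro s a b hab h T N N₁ Y Z h1 h2 h3 h4 h5 h6 h7
        rcases h T N N₁ Y Z h1 h2 h3 h4 h5 h6 h7 with h8 | h8
        · exact Or.inl (h8.trans (Arch_mono hab h2))
        · exact Or.inr h8) (by
        rintro s ⟨σ, rfl⟩
        exact cusp2a (Arch_qm hβa hβcm σ) hN₀ (hβγ.map σ.toRingHom hN₀) C₀ hm)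
    refine Arch_end hF (finite_isogDeg hV hdim (Arch_inj (hmod _ _ h12)) (hmod _ _ h12) hN₀)
      C₀ C₁ ?_
    intro x hx hxE N hN hisog σ hσ
    obtain ⟨hT1, h1, h2⟩ := h0 σ x hx hσ
    obtain ⟨N₁, hN₁, hN₁', hI₁⟩ := hisog (e 1) (e 2) h12
    rcases hC₁ (σ β, σ γ) ⟨σ, rfl⟩ _ N N₁ (σ (x (i (e 1)))) (σ (x (i (e 2)))) hT1 hN
      hN₁ hN₁' (hI₁.map σ.toRingHom hN₁) h1 h2 with h | h
    · exact h
    · exact absurd ⟨hx, (isogDeg_map_iff σ hN₀).mp h⟩ hxE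
  · obtain ⟨C₁, hC₁⟩ := Arch_unif hS (p := fun s C => ∀ (T : ℝ) (N N₁ : ℕ)
      (Y Z : ℂ), 1 ≤ T → 3 ≤ N → 0 < N₁ →
      N₁ ≤ N → IsogDeg N₁ Y Z → ‖Y - s.1‖ ^ m * T ≤ C₀ → ‖Z - s.2‖ ^ m * T ≤ C₀ →
      T ≤ Real.exp (C * Real.log N ^ C)) (by
        intro s a b hab h T N N₁ Y Z h1 h2 h3 h4 h5 h6 h7
        exact (h T N N₁ Y Z h1 h2 h3 h4 h5 h6 h7).trans (Arch_mono hab h2)) (by
        rintro s ⟨σ, rfl⟩
        exact cusp2b (Arch_CM.mpr ((Arch_CM.mp hβ).map σ.toRingHom)) (Arch_qm hγa hcm σ) C₀ hm)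
    refine Arch_end hF Set.finite_empty C₀ C₁ ?_
    intro x hx hxE N hN hisog σ hσ
    obtain ⟨hT1, h1, h2⟩ := h0 σ x hx hσ
    obtain ⟨N₁, hN₁, hN₁', hI₁⟩ := hisog (e 1) (e 2) h12
    exact hC₁ (σ β, σ γ) ⟨σ, rfl⟩ _ N N₁ (σ (x (i (e 1)))) (σ (x (i (e 2)))) hT1 hN
      hN₁ hN₁' (hI₁.map σ.toRingHom hN₁) h1 h2

end Pool.Agent.LGO
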