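import Mathlib
import Pool.Agent.LGO.Q.Arch
import Pool.Agent.LGO.H.CoreG

/-!
# LGO/Q: the core in the case of a good cusp, for integral points

`good_arch` (`Q/Arch.lean`) and `core_good` (`H/CoreG.lean`).
-/

namespace Pool.Agent.LGO

open UpperHalfPlane Pool.Agent.Hhelper14.ZPL Pool.Agent.Hhelper14.ZP

theorem good_core {n : ℕ} {V : Set (Fin n → ℂ)} (hV : Pool.Agent.Hhelper14.ZPL.IsIrredClosed V)
    (hVk : KClosed V) (hdim : Pool.Agent.Hhelper14.ZPL.dim V = 1) (i : Fin 3 → Fin n)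
    (hmod : ∀ a b, a ≠ b → ∀ g : GL (Fin 2) ℚ, 0 < g.det.val →
      ∃ x ∈ V, ¬ ∃ τ : ℍ, x (i a) = jInv τ ∧ x (i b) = jInv (gact g τ))
    (hg : GoodCusp V i) :
    ∃ (C : ℕ) (E : Set (Fin n → ℂ)), E.Finite ∧ ∀ x ∈ V, x ∉ E → (∀ a, NCM (x (i a))) →
      (∀ a b, ∃ N, 0 < N ∧ IsogDeg N (x (i a)) (x (i b))) → (∀ a, IsIntegral ℤ (x (i a))) →
      Concl i C x := by
  obtain ⟨F, E, C, hF, hE, hb⟩ := good_arch hV hVk hdim i hmod hg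
  refine core_good hV hVk hdim i (F := F) hF (C₀ := C) hE ?_
  intro x hx hxE _ hiso N hN3 hmd s
  have hN0 : (0 : ℝ) ≤ N := by linarith
  have h3 : 3 ≤ ⌊N⌋₊ := Nat.le_floor (by exact_mod_cast hN3)
  refine (hb x hx hxE ⌊N⌋₊ h3 (fun a b _ => ?_) s).trans ?_
  · obtain ⟨h1, h2⟩ := mdeg_spec (hiso a b)
    exact ⟨mdeg (x (i a)) (x (i b)), h1, Nat.le_floor (hmd a b), h2⟩
  · apply Real.exp_le_exp.2
    have h4 : (0 : ℝ) < (⌊N⌋₊ : ℝ) := by exact_mod_cast (by omega : 0 < ⌊N⌋₊)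
    have h5 : (1 : ℝ) ≤ (⌊N⌋₊ : ℝ) := by exact_mod_cast (by omega : 1 ≤ ⌊N⌋₊)
    have h6 : Real.log (⌊N⌋₊ : ℝ) ≤ Real.log N := Real.log_le_log h4 (Nat.floor_le hN0)
    have h7 : 0 ≤ Real.log (⌊N⌋₊ : ℝ) := Real.log_nonneg h5
    exact mul_le_mul_of_nonneg_left (pow_le_pow_left₀ h7 h6 C) (Nat.cast_nonneg C)

end Pool.Agent.LGO
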